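import Pool.Statements.S00089
import Pool.Agent.Work.MP_286f1f_ag.Main

set_option autoImplicit false
open Pool Pool.MP_286f1f_ag

namespace Pool.Agent.S00089

/-- In a d-dimensional Noetherian local ring of characteristic p, for J generated by a system of parameters and 𝔞 𝔪-primary, the multiplicity of J is at most (F-threshold c^J(𝔞)/d)^d times the multiplicity of 𝔞. -/
theorem result :
    ∀ (R : Type) [CommRing R] [IsLocalRing R] [IsNoetherianRing R]
      (p : ℕ) [Fact p.Prime] [CharP R p] (d : ℕ),
      ringKrullDim R = ((d : ℕ∞) : WithBot ℕ∞) →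
      ∀ (x : Fin d → R), (∀ i, x i ∈ IsLocalRing.maximalIdeal R) →
        (Ideal.span (Set.range x)).radical = IsLocalRing.maximalIdeal R →
        ∀ (𝔞 : Ideal R), 𝔞.radical = IsLocalRing.maximalIdeal R →
          ∀ (c eJ ea : ℝ),
            Filter.Tendsto
              (fun e : ℕ =>
                ((sInf {N : ℕ | 𝔞 ^ N ≤ Ideal.span (Set.range (fun i => x i ^ p ^ e))} : ℕ) : ℝ)
                  / (p : ℝ) ^ e)
              Filter.atTop (nhds c) →
            Filter.Tendsto
              (fun n : ℕ =>
                (d.factorial : ℝ)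
                  * ((Module.length R (R ⧸ (Ideal.span (Set.range x)) ^ n)).toNat : ℝ)
                  / (n : ℝ) ^ d)
              Filter.atTop (nhds eJ) →
            Filter.Tendsto
              (fun n : ℕ =>
                (d.factorial : ℝ) * ((Module.length R (R ⧸ 𝔞 ^ n)).toNat : ℝ) / (n : ℝ) ^ d)
              Filter.atTop (nhds ea) →
            eJ ≤ (c / (d : ℝ)) ^ d * ea := by
  intro R _ _ _ p _ _ d _ x hx hrad 𝔞 h𝔞 c eJ ea hc hJ ha
  exact HMTW.main R p d x hx hrad 𝔞 h𝔞 c eJ ea hc hJ ha

end Pool.Agent.S00089
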