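import Pool.Statements.S01127
import Pool.Agent.Work.MP_332575_al.Pk.Asm
import Pool.Agent.Work.MP_332575_al.Pk.Sec
import Pool.Agent.Work.MP_332575_al.Pk.Rep
import Pool.Agent.Work.MP_332575_al.Pk.TorXF
import Pool.Agent.Work.MP_332575_al.Pk.P2

set_option autoImplicit false
open Pool Pool.MP_332575_al

namespace Pool.Agent.S01127

/-- There is a finitely presented torsion-free group in which every cyclic subgroup is a retract of a finite-index subgroup, yet no finite-index subgroup is abelian and no finite-index subgroup maps onto the free group of rank 2. -/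
theorem result :
  ∃ (G : Type) (_ : Group G),
    (∃ (n : ℕ) (R : Finset (FreeGroup (Fin n))),
      Nonempty (G ≃* PresentedGroup (R : Set (FreeGroup (Fin n))))) ∧
    (∀ g : G, g ≠ 1 → ¬ IsOfFinOrder g) ∧
    (∀ g : G, ∃ K : Subgroup G, K.index ≠ 0 ∧ g ∈ K ∧
      ∃ ρ : K →* G, (∀ k : K, ρ k ∈ Subgroup.zpowers g) ∧
        ∀ k : K, (k : G) = g → ρ k = g) ∧
    ¬ (∃ H : Subgroup G, H.index ≠ 0 ∧ ∀ a ∈ H, ∀ b ∈ H, a * b = b * a) ∧
    ¬ (∃ H : Subgroup G, H.index ≠ 0 ∧
        ∃ φ : H →* FreeGroup (Fin 2), Function.Surjective φ) := by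
  exact VRC.Pk.assembly VRC.Cx.rep_inj VRC.Pk.XG_tf (VRC.Pk.sp_of_cert _ VRC.Pk.cert36)

end Pool.Agent.S01127
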