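import Pool.Statements.S01311
import Pool.Agent.Work.MP_41f637_al.FromBB
import Pool.Agent.Work.MP_6f5fa7_al.Mon.Final

set_option autoImplicit false
open Pool Pool.MP_41f637_al

namespace Pool.Agent.S01311

/-- There is a non-trivial group variety and r>0 whose relatively free group F_r discriminates the variety but fails to solve some finite system of inequalities with constants from F_r that is solvable in a larger relatively free group containing F_r as a free factor. -/
theorem result :
    ∃ (W : Set (FreeGroup ℕ)) (r : ℕ), 0 < r ∧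
      (FreeGroup.of (0 : Fin 1)) ∉
        Subgroup.normalClosure
          {g : FreeGroup (Fin 1) | ∃ w ∈ W, ∃ φ : FreeGroup ℕ →* FreeGroup (Fin 1), φ w = g} ∧
      (∀ (s : ℕ) (ws : Finset (FreeGroup (Fin s))),
        (∀ w ∈ ws, w ∉ Subgroup.normalClosure
          {g : FreeGroup (Fin s) | ∃ u ∈ W, ∃ φ : FreeGroup ℕ →* FreeGroup (Fin s), φ u = g}) →
        ∃ f : Fin s → (FreeGroup (Fin r) ⧸ Subgroup.normalClosure
          {g : FreeGroup (Fin r) | ∃ u ∈ W, ∃ φ : FreeGroup ℕ →* FreeGroup (Fin r), φ u = g}),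
          ∀ w ∈ ws, FreeGroup.lift f w ≠ 1) ∧
      ¬ (∀ (k : ℕ) (ws : Finset (FreeGroup (Fin r ⊕ Fin k))) (s : ℕ) (hs : r ≤ s),
        (∃ x : Fin k → (FreeGroup (Fin s) ⧸ Subgroup.normalClosure
            {g : FreeGroup (Fin s) | ∃ u ∈ W, ∃ φ : FreeGroup ℕ →* FreeGroup (Fin s), φ u = g}),
          ∀ w ∈ ws, FreeGroup.lift
            (Sum.elim
              (fun j : Fin r => (QuotientGroup.mk (FreeGroup.of (Fin.castLE hs j)) :
                FreeGroup (Fin s) ⧸ Subgroup.normalClosure
                  {g : FreeGroup (Fin s) | ∃ u ∈ W, ∃ φ : FreeGroup ℕ →* FreeGroup (Fin s), φ u = g}))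
              x) w ≠ 1) →
        ∃ y : Fin k → (FreeGroup (Fin r) ⧸ Subgroup.normalClosure
            {g : FreeGroup (Fin r) | ∃ u ∈ W, ∃ φ : FreeGroup ℕ →* FreeGroup (Fin r), φ u = g}),
          ∀ w ∈ ws, FreeGroup.lift
            (Sum.elim
              (fun j : Fin r => (QuotientGroup.mk (FreeGroup.of j) :
                FreeGroup (Fin r) ⧸ Subgroup.normalClosure
                  {g : FreeGroup (Fin r) | ∃ u ∈ W, ∃ φ : FreeGroup ℕ →* FreeGroup (Fin r), φ u = g}))
              y) w ≠ 1) := by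
  exact Pool.Agent.Work.MP_41f637_al.FromBB.S01311_of_BB Mon.bb_holds

end Pool.Agent.S01311
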