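import Pool.Statements.S02596
import Pool.Agent.Work.MP_a6eddd_al.Concrete

set_option autoImplicit false
open Pool Pool.MP_a6eddd_al

namespace Pool.Agent.S02596

/-- The negation of the preceding statement: For every finite primitive permutation group with minimal base size b ≥ 2, any two points α, β have a third point γ, distinct from each, such that γ lies with α in some minimal base and with β in some minimal base. -/
theorem result :
    ¬ (∀ (Ω : Type) [Finite Ω] (G : Subgroup (Equiv.Perm Ω)) (b : ℕ),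
      MulAction.IsPreprimitive G Ω →
      (∃ B : Finset Ω, B.card = b ∧ ∀ g ∈ G, (∀ x ∈ B, g x = x) → g = 1) →
      (∀ B : Finset Ω, (∀ g ∈ G, (∀ x ∈ B, g x = x) → g = 1) → b ≤ B.card) →
      2 ≤ b →
      ∀ α β : Ω, ∃ γ : Ω,
        (γ ≠ α ∧ ∃ B : Finset Ω, B.card = b ∧ α ∈ B ∧ γ ∈ B ∧
            ∀ g ∈ G, (∀ x ∈ B, g x = x) → g = 1) ∧
        (γ ≠ β ∧ ∃ B : Finset Ω, B.card = b ∧ β ∈ B ∧ γ ∈ B ∧
            ∀ g ∈ G, (∀ x ∈ B, g x = x) → g = 1)) := by
  intro h
  obtain ⟨Ω, hΩ, G, hprim, hbase, hmin, α, β, _, hno⟩ :=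
    Pool.Agent.Work.MP_a6eddd_al.counterexample
  obtain ⟨γ, hγ⟩ := h Ω G 2 hprim hbase hmin le_rfl α β
  exact hno γ hγ

end Pool.Agent.S02596
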