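import Pool.Statements.S02892
import Pool.Agent.Work.MP_bcc032_al.Ring

set_option autoImplicit false
open Pool Pool.MP_bcc032_al

namespace Pool.Agent.S02892

/-- The negation of the preceding statement: For all d,s,n there is N such that, over any field, if the free algebra on d letters modulo s relations of degree ≤ n has zero divisors, then it has two nonzero elements of degree < N with product zero. -/
theorem result :
    ¬ (∀ d s n : ℕ, ∃ N : ℕ, ∀ (k : Type) [Field k] (r : Fin s → FreeAlgebra k (Fin d)),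
      (∀ i, r i ∈ Submodule.span k
        {a : FreeAlgebra k (Fin d) | ∃ w : FreeMonoid (Fin d),
          w.length ≤ n ∧ a = (w.toList.map (FreeAlgebra.ι k)).prod}) →
      (∃ p q : FreeAlgebra k (Fin d),
        p ∉ TwoSidedIdeal.span (Set.range r) ∧ q ∉ TwoSidedIdeal.span (Set.range r) ∧
        p * q ∈ TwoSidedIdeal.span (Set.range r)) →
      ∃ p q : FreeAlgebra k (Fin d),
        p ∈ Submodule.span k
          {a : FreeAlgebra k (Fin d) | ∃ w : FreeMonoid (Fin d),
            w.length < N ∧ a = (w.toList.map (FreeAlgebra.ι k)).prod} ∧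
        q ∈ Submodule.span k
          {a : FreeAlgebra k (Fin d) | ∃ w : FreeMonoid (Fin d),
            w.length < N ∧ a = (w.toList.map (FreeAlgebra.ι k)).prod} ∧
        p ∉ TwoSidedIdeal.span (Set.range r) ∧ q ∉ TwoSidedIdeal.span (Set.range r) ∧
        p * q ∈ TwoSidedIdeal.span (Set.range r)) := by
  intro H
  obtain ⟨N, hN⟩ := H 8 7 3
  have hM : ((2 * (2 ^ N * 2 ^ N) : ℕ) : ℚ) ≤ ((2 * (2 ^ N * 2 ^ N) : ℕ) : ℚ) := le_refl _
  obtain ⟨p, q, hp, hq, hp0, hq0, hpq⟩ :=
    hN ℚ (Pool.Agent.Work.MP_bcc032_al.rel ((2 * (2 ^ N * 2 ^ N) : ℕ) : ℚ))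
      (Pool.Agent.Work.MP_bcc032_al.rel_deg _)
      ⟨_, _, Pool.Agent.Work.MP_bcc032_al.t_notMem _,
        Pool.Agent.Work.MP_bcc032_al.inc_notMem _ _
          (Pool.Agent.Work.MP_bcc032_al.kap_ne (2 ^ N * 2 ^ N)),
        Pool.Agent.Work.MP_bcc032_al.zero_div (2 ^ N * 2 ^ N)⟩
  exact Pool.Agent.Work.MP_bcc032_al.no_low _ N hM p q hp hq hp0 hq0 hpq

end Pool.Agent.S02892
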