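import Pool.Statements.S03212
import Pool.Agent.Work.MP_d8349b_al.Fails

set_option autoImplicit false
open Pool Pool.MP_d8349b_al

namespace Pool.Agent.S03212

/-- The negation of the preceding statement: For every field K, solvable group G and finite-dimensional representation V, there is a finite set S of identities of (V,G) such that any group representation satisfying S satisfies every identity of (V,G). -/
theorem result :
    ¬ (∀ (K : Type) [Field K] (G : Type) [Group G], IsSolvable G →
      ∀ (V : Type) [AddCommGroup V] [Module K V], FiniteDimensional K V →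
      ∀ (ρ : Representation K G V),
    ∃ S : Finset (MonoidAlgebra K (FreeGroup ℕ)),
      (∀ s ∈ S, ∀ φ : FreeGroup ℕ →* G,
          Representation.asAlgebraHom (MonoidHom.comp ρ φ) s = 0) ∧
      ∀ (H : Type) [Group H] (W : Type) [AddCommGroup W] [Module K W]
        (τ : Representation K H W),
        (∀ s ∈ S, ∀ ψ : FreeGroup ℕ →* H,
            Representation.asAlgebraHom (MonoidHom.comp τ ψ) s = 0) →
        ∀ u : MonoidAlgebra K (FreeGroup ℕ),
          (∀ φ : FreeGroup ℕ →* G,
              Representation.asAlgebraHom (MonoidHom.comp ρ φ) u = 0) →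
          ∀ ψ : FreeGroup ℕ →* H,
            Representation.asAlgebraHom (MonoidHom.comp τ ψ) u = 0) := by
  intro hmain
  obtain ⟨t, ht⟩ := Pool.Agent.MP_d8349b_al.exists_unit
  have hsol : Group.IsSolvable (Pool.Agent.MP_d8349b_al.GG (RatFunc (ZMod 2))) := by
    haveI : Group.IsSolvable (Pool.Agent.MP_d8349b_al.Wr (RatFunc (ZMod 2))ˣ) :=
      Pool.Agent.MP_d8349b_al.Wr.isSolvable
    exact Pool.Agent.MP_d8349b_al.Aff.isSolvable
  obtain ⟨S, hS, hall⟩ := hmain (RatFunc (ZMod 2))
    (Pool.Agent.MP_d8349b_al.GG (RatFunc (ZMod 2))) hsol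
    (Pool.Agent.MP_d8349b_al.VV (RatFunc (ZMod 2)))
    (Pool.Agent.MP_d8349b_al.VV_fd (RatFunc (ZMod 2)))
    (Pool.Agent.MP_d8349b_al.subRep (Pool.Agent.MP_d8349b_al.VV (RatFunc (ZMod 2)))
      (Pool.Agent.MP_d8349b_al.VV_inv (RatFunc (ZMod 2))))
  obtain ⟨H, iH, W, iW, iM, τ, h1, u, h2, ψ, h3⟩ :=
    Pool.Agent.MP_d8349b_al.final (RatFunc (ZMod 2)) t ht S hS
  exact h3 (hall H W τ h1 u h2 ψ)

end Pool.Agent.S03212
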