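import Pool.Statements.S03307
import Pool.Agent.Work.MP_e05d43_al.Final

set_option autoImplicit false
open scoped Pointwise
open Filter Topology
open Pool Pool.MP_e05d43_al

namespace Pool.Agent.S03307

/-- Every real r ≥ 1 is the exponential growth rate lim β(k)^(1/k) of some group with respect to some finite generating set S, where β(k) counts elements of word length at most k over S and its inverses. -/
theorem result :
    ∀ r : ℝ, 1 ≤ r →
      ∃ (Γ : Type) (_ : Group Γ) (S : Set Γ),
        S.Finite ∧ Subgroup.closure S = ⊤ ∧
        Tendsto
          (fun k : ℕ =>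
            ((((insert (1 : Γ) (S ∪ S⁻¹) : Set Γ) ^ k).ncard : ℝ) ^ ((1 : ℝ) / (k : ℝ))))
          atTop (𝓝 r) := by
  intro r hr
  exact Pool.Agent.Work.MP_e05d43_al.main r hr

end Pool.Agent.S03307
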