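import Pool.Statements.S04135
import Pool.Agent.Work.MP_28e115_an.Transfer

set_option autoImplicit false
open MeasureTheory
open Pool Pool.MP_28e115_an

namespace Pool.Agent.S04135

/-- For every n ≥ 2 there is a bounded holomorphic function on the unit ball of ℂⁿ whose restriction to almost every radius r ↦ f(rζ), 0 ≤ r < 1, has infinite total variation, i.e. a nonrectifiable image. -/
theorem result :
    ∀ n : ℕ, 2 ≤ n →
      ∃ f : (Fin n → ℂ) → ℂ,
        DifferentiableOn ℂ f {z : Fin n → ℂ | ∑ i, ‖z i‖ ^ 2 < 1} ∧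
        (∃ M : ℝ, ∀ z ∈ {z : Fin n → ℂ | ∑ i, ‖z i‖ ^ 2 < 1}, ‖f z‖ ≤ M) ∧
        ∀ᵐ x ∂(volume : Measure (Fin n → ℂ)),
          eVariationOn
            (fun r : ℝ => f ((((r / Real.sqrt (∑ i, ‖x i‖ ^ 2) : ℝ)) : ℂ) • x))
            (Set.Ico (0 : ℝ) 1) = ⊤ :=
  Pool.Agent.Work.MP_28e115_an.main_thm

end Pool.Agent.S04135
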