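import Pool.Statements.S04373
import Pool.Agent.Work.MP_39acf6_an.Bridge
import Pool.Agent.Work.MP_39acf6_an.Upper
import Pool.Agent.Work.MP_39acf6_an.H80Main

set_option autoImplicit false
open Pool Pool.MP_39acf6_an

namespace Pool.Agent.S04373

open Pool.Agent.Work.MP_39acf6_an in
/-- the shadow of the bridge is the shadow of the sign patterns -/
theorem up_eq {n : ℕ} (A : Finset (Fin n → ℤ)) : Bridge.up A = SignPat.up Finset.univ A := by
  ext β
  rw [Bridge.mem_up, SignPat.mem_up]
  constructor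
  · rintro ⟨γ, hγ, i, rfl⟩
    exact ⟨i, Finset.mem_univ _, by simpa using hγ⟩
  · rintro ⟨k, -, hk⟩
    exact ⟨β - SignPat.E k, hk, k, by simp⟩

open Pool.Agent.Work.MP_39acf6_an in
theorem cost_eq {n : ℕ} (P M : Finset (Fin n → ℤ)) :
    Bridge.cost P M = SignPat.g Finset.univ P M := by
  unfold Bridge.cost SignPat.g SignPat.sinks SignPat.unc
  rw [up_eq, up_eq, up_eq]

/-- For all n≥5, d≥2: among real coefficients c on degree-d multi-indices with some c<0 and all prolonged coefficients b_β=Σ_{β_j≥1} c_{β−e_j} ≥0, the least number of nonzero b_β is exactly C(n+1,2)−1. -/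
theorem result :
    ∀ n d : ℕ, 5 ≤ n → 2 ≤ d →
      (∃ c : (Fin n → ℕ) → ℝ,
          (∃ α ∈ Finset.Nat.antidiagonalTuple n d, c α < 0) ∧
          (∀ β ∈ Finset.Nat.antidiagonalTuple n (d + 1),
            0 ≤ ∑ j ∈ Finset.univ.filter (fun j : Fin n => 1 ≤ β j), c (β - Pi.single j 1)) ∧
          ((Finset.Nat.antidiagonalTuple n (d + 1)).filter
              (fun β => ∑ j ∈ Finset.univ.filter (fun j : Fin n => 1 ≤ β j),
                  c (β - Pi.single j 1) ≠ 0)).card = (n + 1).choose 2 - 1) ∧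
      (∀ c : (Fin n → ℕ) → ℝ,
          (∃ α ∈ Finset.Nat.antidiagonalTuple n d, c α < 0) →
          (∀ β ∈ Finset.Nat.antidiagonalTuple n (d + 1),
            0 ≤ ∑ j ∈ Finset.univ.filter (fun j : Fin n => 1 ≤ β j), c (β - Pi.single j 1)) →
          (n + 1).choose 2 - 1 ≤
            ((Finset.Nat.antidiagonalTuple n (d + 1)).filter
              (fun β => ∑ j ∈ Finset.univ.filter (fun j : Fin n => 1 ≤ β j),
                  c (β - Pi.single j 1) ≠ 0)).card) := by
  intro n d hn hd
  have hlow := Pool.Agent.Work.MP_39acf6_an.Bridge.lower_of_cost n d ((n + 1).choose 2 - 1) (by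
    intro P M hP hM hdis hne
    have h1 := SignPat.main_univ n (by omega) (d : ℤ) P M hP hM hdis hne
    rw [SignPat.F_of_ge5 hn] at h1
    rw [cost_eq]
    exact h1)
  refine ⟨?_, hlow⟩
  obtain ⟨c, h1, h2, h3⟩ := Pool.Agent.Work.MP_39acf6_an.Upper.upper n d (by omega) hd
  exact ⟨c, h1, h2, le_antisymm h3 (hlow c h1 h2)⟩

end Pool.Agent.S04373
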