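import Pool.Statements.S05237
import Pool.Agent.Work.MP_82f4f8_an.MainD

set_option autoImplicit false
open Pool Pool.MP_82f4f8_an

namespace Pool.Agent.S05237

/-- For the capacity-1 square and its exterior conformal map φ fixing infinity, every closed K at positive distance from the square has C with sup over K of the gap between the Fekete potential and U at most C/n, for all n≥2 and all Fekete n-tuples. -/
theorem result :
    ∀ a : ℝ, a = 2 * Real.pi ^ ((3 : ℝ) / 2) / Real.Gamma (1 / 4 : ℝ) ^ 2 →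
    ∀ φ : ℂ → ℂ,
      DifferentiableOn ℂ φ {z : ℂ | a < max |z.re| |z.im|} →
      Set.InjOn φ {z : ℂ | a < max |z.re| |z.im|} →
      φ '' {z : ℂ | a < max |z.re| |z.im|} = {w : ℂ | 1 < ‖w‖} →
      Filter.Tendsto (fun z => ‖φ z‖) (Filter.cocompact ℂ) Filter.atTop →
      ∀ K : Set ℂ, IsClosed K →
        (∃ δ : ℝ, 0 < δ ∧ ∀ x ∈ K, ∀ w : ℂ, max |w.re| |w.im| = a → δ ≤ ‖x - w‖) →
        ∃ C : ℝ, ∀ n : ℕ, 2 ≤ n → ∀ p : Fin n → ℂ,
          (∀ k, max |(p k).re| |(p k).im| = a) →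
          (∀ q : Fin n → ℂ, (∀ k, max |(q k).re| |(q k).im| = a) →
            (∏ j, ∏ k ∈ Finset.Ioi j, ‖q j - q k‖) ≤ ∏ j, ∏ k ∈ Finset.Ioi j, ‖p j - p k‖) →
          ∀ x ∈ K,
            |(1 / (n : ℝ)) * ∑ k, Real.log ‖x - p k‖
              - (if a < max |x.re| |x.im| then Real.log ‖φ x‖ else 0)| ≤ C / n := by
  intro a ha φ hd hi him hinf K _ hK
  obtain ⟨δ, hδ, hδK⟩ := hK
  rw [← Pool.Agent.Work.MP_82f4f8_an.aa_eq] at ha
  subst ha
  obtain ⟨C, hC⟩ := Pool.Agent.Work.MP_82f4f8_an.main_bound hd hi him hinf hδ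
  refine ⟨C, fun n hn p hp hmax x hx => ?_⟩
  exact hC n hn p ⟨hp, hmax⟩ x (hδK x hx)

end Pool.Agent.S05237
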