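import Pool.Statements.S05386

set_option autoImplicit false
open Pool Pool.MP_90924b_an

namespace Pool.Agent.S05386

noncomputable section

/-- The point `(|l|^2, l) / (1 + |l|^2)` of the ball of `C^2` attached to the line
`z_1 = l (1 - z_0)` through the boundary point `(1, 0)`. -/
def pt (l : ℂ) : EuclideanSpace ℂ (Fin 2) :=
  !₂[((‖l‖ ^ 2 / (1 + ‖l‖ ^ 2) : ℝ) : ℂ), l / ((1 + ‖l‖ ^ 2 : ℝ) : ℂ)]

lemma pt_zero (l : ℂ) : pt l 0 = ((‖l‖ ^ 2 / (1 + ‖l‖ ^ 2) : ℝ) : ℂ) := by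
  simp [pt]

lemma pt_one (l : ℂ) : pt l 1 = l / ((1 + ‖l‖ ^ 2 : ℝ) : ℂ) := by
  simp [pt]

lemma pos_aux (l : ℂ) : 0 < 1 + ‖l‖ ^ 2 := by positivity

lemma norm_pt_sq (l : ℂ) : ‖pt l‖ ^ 2 = ‖l‖ ^ 2 / (1 + ‖l‖ ^ 2) := by
  have h := pos_aux l
  have h1 : ‖((‖l‖ ^ 2 / (1 + ‖l‖ ^ 2) : ℝ) : ℂ)‖ = ‖l‖ ^ 2 / (1 + ‖l‖ ^ 2) := by
    rw [Complex.norm_real, Real.norm_eq_abs, abs_of_nonneg (by positivity)]
  have h2 : ‖l / ((1 + ‖l‖ ^ 2 : ℝ) : ℂ)‖ = ‖l‖ / (1 + ‖l‖ ^ 2) := by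
    rw [norm_div, Complex.norm_real, Real.norm_eq_abs, abs_of_pos h]
  rw [EuclideanSpace.norm_sq_eq, Fin.sum_univ_two, pt_zero, pt_one, h1, h2]
  field_simp
  ring

lemma one_sub_norm_pt_sq (l : ℂ) : 1 - ‖pt l‖ ^ 2 = 1 / (1 + ‖l‖ ^ 2) := by
  have h := pos_aux l
  rw [norm_pt_sq]
  field_simp
  ring

/-- The bounded holomorphic function. -/
def f (z : EuclideanSpace ℂ (Fin 2)) : ℂ :=
  Complex.cos ((z 1 / (1 - z 0)) ^ 2) * Complex.exp (-((1 + z 0) / (1 - z 0)))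

lemma norm_cos_le (w : ℂ) : ‖Complex.cos w‖ ≤ Real.exp ‖w‖ := by
  rw [Complex.cos]
  rw [norm_div]
  have h1 : ‖Complex.exp (w * Complex.I)‖ ≤ Real.exp ‖w‖ := by
    refine (Complex.norm_exp_le_exp_norm _).trans ?_
    simp
  have h2 : ‖Complex.exp (-w * Complex.I)‖ ≤ Real.exp ‖w‖ := by
    refine (Complex.norm_exp_le_exp_norm _).trans ?_
    simp
  have h3 := norm_add_le (Complex.exp (w * Complex.I)) (Complex.exp (-w * Complex.I))
  have h4 : ‖(2 : ℂ)‖ = 2 := by simp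
  rw [h4]
  rw [div_le_iff₀ (by norm_num)]
  linarith

lemma ball_mem {z : EuclideanSpace ℂ (Fin 2)} (hz : z ∈ Metric.ball (0 : EuclideanSpace ℂ (Fin 2)) 1) :
    ‖z 0‖ ^ 2 + ‖z 1‖ ^ 2 < 1 := by
  rw [mem_ball_zero_iff] at hz
  have : ‖z‖ ^ 2 < 1 := by nlinarith [norm_nonneg z]
  rw [EuclideanSpace.norm_sq_eq, Fin.sum_univ_two] at this
  exact this

lemma one_sub_ne {z : EuclideanSpace ℂ (Fin 2)} (hz : z ∈ Metric.ball (0 : EuclideanSpace ℂ (Fin 2)) 1) :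
    (1 : ℂ) - z 0 ≠ 0 := by
  intro h
  have h1 : z 0 = 1 := by linear_combination -h
  have := ball_mem hz
  rw [h1] at this
  simp at this
  nlinarith [norm_nonneg (z 1)]

lemma f_bound {z : EuclideanSpace ℂ (Fin 2)} (hz : z ∈ Metric.ball (0 : EuclideanSpace ℂ (Fin 2)) 1) :
    ‖f z‖ ≤ 1 := by
  have hb := ball_mem hz
  have hne := one_sub_ne hz
  rw [f, norm_mul, Complex.norm_exp]
  have hpos : 0 < ‖1 - z 0‖ ^ 2 := by positivity
  have hre : ((1 + z 0) / (1 - z 0)).re = (1 - ‖z 0‖ ^ 2) / ‖1 - z 0‖ ^ 2 := by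
    rw [Complex.div_re, ← Complex.normSq_eq_norm_sq, ← Complex.normSq_eq_norm_sq]
    have hn : Complex.normSq (1 - z 0) ≠ 0 := by
      simpa [Complex.normSq_eq_zero] using hne
    field_simp
    simp [Complex.normSq_apply]
    ring
  have h1 := norm_cos_le ((z 1 / (1 - z 0)) ^ 2)
  have h2 : ‖(z 1 / (1 - z 0)) ^ 2‖ = ‖z 1‖ ^ 2 / ‖1 - z 0‖ ^ 2 := by
    rw [norm_pow, norm_div, div_pow]
  rw [h2] at h1
  rw [Complex.neg_re, hre]
  calc ‖Complex.cos ((z 1 / (1 - z 0)) ^ 2)‖ * Real.exp (-((1 - ‖z 0‖ ^ 2) / ‖1 - z 0‖ ^ 2))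
      ≤ Real.exp (‖z 1‖ ^ 2 / ‖1 - z 0‖ ^ 2) * Real.exp (-((1 - ‖z 0‖ ^ 2) / ‖1 - z 0‖ ^ 2)) := by
        gcongr
    _ = Real.exp ((‖z 0‖ ^ 2 + ‖z 1‖ ^ 2 - 1) / ‖1 - z 0‖ ^ 2) := by
        rw [← Real.exp_add]
        congr 1
        field_simp
        ring
    _ ≤ Real.exp 0 := by
        apply Real.exp_le_exp.mpr
        apply div_nonpos_of_nonpos_of_nonneg
        · linarith
        · exact hpos.le
    _ = 1 := Real.exp_zero

/-- The parameters of the lines: square roots of the zeros of the cosine. -/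
def Lam : Set ℂ := {l | ∃ k : ℤ, l ^ 2 = (2 * k + 1) * Real.pi / 2}

lemma Lam_norm {l : ℂ} (hl : l ∈ Lam) : 1 ≤ ‖l‖ ^ 2 := by
  obtain ⟨k, hk⟩ := hl
  have h1 : ‖l‖ ^ 2 = ‖l ^ 2‖ := (norm_pow l 2).symm
  rw [h1, hk]
  have h2 : ((2 * (k : ℂ) + 1) * Real.pi / 2) = (((2 * k + 1 : ℤ) : ℝ) * Real.pi / 2 : ℝ) := by
    push_cast
    ring
  rw [h2, Complex.norm_real, Real.norm_eq_abs, abs_div, abs_mul]
  have h3 : (1 : ℝ) ≤ |((2 * k + 1 : ℤ) : ℝ)| := by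
    rw [← Int.cast_abs]
    have : (1 : ℤ) ≤ |2 * k + 1| := Int.one_le_abs (by omega)
    exact_mod_cast this
  have h4 : |Real.pi| = Real.pi := abs_of_pos Real.pi_pos
  have h5 : |(2 : ℝ)| = 2 := by norm_num
  rw [h4, h5]
  have h6 := Real.pi_gt_three
  nlinarith

lemma Lam_ne_zero {l : ℂ} (hl : l ∈ Lam) : l ≠ 0 := by
  intro h
  have := Lam_norm hl
  rw [h] at this
  norm_num at this

lemma Lam_countable : Lam.Countable := by
  have : Lam = ⋃ k : ℤ, {l : ℂ | l ^ 2 = (2 * k + 1) * Real.pi / 2} := by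
    ext l
    simp [Lam]
  rw [this]
  apply Set.countable_iUnion
  intro k
  apply Set.Finite.countable
  by_cases h : ∃ m : ℂ, m ^ 2 = (2 * k + 1) * Real.pi / 2
  · obtain ⟨m, hm⟩ := h
    apply Set.Finite.subset (Set.toFinite {m, -m})
    intro l hl
    simp only [Set.mem_ofPred_eq] at hl
    rw [← hm] at hl
    rcases sq_eq_sq_iff_eq_or_eq_neg.mp hl with h | h
    · left; exact h
    · right; exact h
  · push Not at h
    apply Set.Finite.subset Set.finite_empty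
    intro l hl
    exact (h l hl).elim

/-- real positive square root of the k-th positive zero of the cosine -/
def root (k : ℕ) : ℂ := ((Real.sqrt ((2 * k + 1) * Real.pi / 2) : ℝ) : ℂ)

lemma root_norm_sq (k : ℕ) : ‖root k‖ ^ 2 = (2 * k + 1) * Real.pi / 2 := by
  have h : 0 ≤ (2 * (k : ℝ) + 1) * Real.pi / 2 := by positivity
  rw [root, Complex.norm_real, Real.norm_eq_abs, sq_abs, Real.sq_sqrt h]

lemma root_mem (k : ℕ) : root k ∈ Lam := by
  refine ⟨k, ?_⟩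
  have h : 0 ≤ (2 * (k : ℝ) + 1) * Real.pi / 2 := by positivity
  rw [root, ← Complex.ofReal_pow, Real.sq_sqrt h]
  push_cast
  ring

lemma inner_pt (l : ℂ) (z : EuclideanSpace ℂ (Fin 2)) :
    inner ℂ (pt l) z = (((‖l‖ ^ 2 : ℝ) : ℂ) * z 0 + (starRingEnd ℂ) l * z 1) / ((1 + ‖l‖ ^ 2 : ℝ) : ℂ) := by
  have h := pos_aux l
  have h' : ((1 + ‖l‖ ^ 2 : ℝ) : ℂ) ≠ 0 := by exact_mod_cast h.ne'
  rw [PiLp.inner_apply, Fin.sum_univ_two, pt_zero, pt_one]
  simp only [RCLike.inner_apply, map_div₀, Complex.conj_ofReal]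
  rw [Complex.ofReal_div]
  field_simp

lemma mem_T_iff {l : ℂ} (hl : l ≠ 0) {z : EuclideanSpace ℂ (Fin 2)} (hz : (1 : ℂ) - z 0 ≠ 0) :
    inner ℂ (pt l) z = (((‖pt l‖ ^ 2 : ℝ)) : ℂ) ↔ z 1 / (1 - z 0) = l := by
  have h := pos_aux l
  have h' : ((1 + ‖l‖ ^ 2 : ℝ) : ℂ) ≠ 0 := by exact_mod_cast h.ne'
  rw [inner_pt, norm_pt_sq, Complex.ofReal_div, div_left_inj' h']
  have h2 : (((‖l‖ ^ 2 : ℝ)) : ℂ) = (starRingEnd ℂ) l * l := by
    rw [← Complex.normSq_eq_norm_sq, Complex.normSq_eq_conj_mul_self]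
  have h3 : (starRingEnd ℂ) l ≠ 0 := by simpa using hl
  rw [h2, div_eq_iff hz]
  constructor
  · intro h4
    apply mul_left_cancel₀ h3
    linear_combination h4
  · intro h4
    rw [h4]
    ring

/-- The negation of the preceding statement: For a countable set A in the unit ball of C^N lying in a (rho,c,q)-wedge, if the union of hyperplanes {(z,a)=∣a∣^2}, a in A, is the zero set of a nonzero bounded holomorphic function on the ball, then the sum of 1-∣a∣^2 over A is finite. -/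
theorem result :
    ¬ (∀ (N : ℕ) (ρ q c : ℝ), 0 < ρ → ρ < 1 → 0 < q → q < 1 → 0 < c →
    ∀ (e₀ : EuclideanSpace ℂ (Fin N)), ‖e₀‖ = 1 →
    ∀ (A : Set (EuclideanSpace ℂ (Fin N))), A.Countable → A ⊆ Metric.ball 0 1 →
    (∀ a ∈ A, ‖a‖ < ρ ∨
      (|(1 - inner ℂ e₀ a).im| ≤ c * (1 - inner ℂ e₀ a).re ∧
        ‖a‖ ^ 2 - ‖inner ℂ e₀ a‖ ^ 2 ≤ q * (1 - ‖inner ℂ e₀ a‖ ^ 2) ∧
        (1 - inner ℂ e₀ a).re ≤ 1 / (c ^ 2 + 1))) →
    (∃ f : EuclideanSpace ℂ (Fin N) → ℂ,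
      DifferentiableOn ℂ f (Metric.ball 0 1) ∧
      (∃ M : ℝ, ∀ z ∈ Metric.ball (0 : EuclideanSpace ℂ (Fin N)) 1, ‖f z‖ ≤ M) ∧
      (∃ z ∈ Metric.ball (0 : EuclideanSpace ℂ (Fin N)) 1, f z ≠ 0) ∧
      {z | z ∈ Metric.ball (0 : EuclideanSpace ℂ (Fin N)) 1 ∧ f z = 0} =
        {z | z ∈ Metric.ball (0 : EuclideanSpace ℂ (Fin N)) 1 ∧
          ∃ a ∈ A, inner ℂ a z = (((‖a‖ ^ 2 : ℝ)) : ℂ)}) →
    Summable (fun a : A => 1 - ‖(a : EuclideanSpace ℂ (Fin N))‖ ^ 2)) := by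
  intro H
  have key := H 2 (1 / 2) (1 / 2) 1 (by norm_num) (by norm_num) (by norm_num) (by norm_num)
    (by norm_num) (EuclideanSpace.single 0 1) (by simp) (pt '' Lam) (Lam_countable.image pt)
  have hin : ∀ a : EuclideanSpace ℂ (Fin 2),
      inner ℂ (EuclideanSpace.single (0 : Fin 2) (1 : ℂ)) a = a 0 := by
    intro a
    rw [EuclideanSpace.inner_single_left]
    simp
  have hball : pt '' Lam ⊆ Metric.ball 0 1 := by
    rintro _ ⟨l, hl, rfl⟩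
    rw [mem_ball_zero_iff]
    have h1 := one_sub_norm_pt_sq l
    have h2 : 0 < 1 / (1 + ‖l‖ ^ 2) := by positivity
    nlinarith [norm_nonneg (pt l)]
  have key2 := key hball
  clear key H
  have hw : (∀ a ∈ pt '' Lam, ‖a‖ < 1 / 2 ∨
      (|(1 - inner ℂ (EuclideanSpace.single (0 : Fin 2) (1 : ℂ)) a).im| ≤
          1 * (1 - inner ℂ (EuclideanSpace.single (0 : Fin 2) (1 : ℂ)) a).re ∧
        ‖a‖ ^ 2 - ‖inner ℂ (EuclideanSpace.single (0 : Fin 2) (1 : ℂ)) a‖ ^ 2 ≤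
          1 / 2 * (1 - ‖inner ℂ (EuclideanSpace.single (0 : Fin 2) (1 : ℂ)) a‖ ^ 2) ∧
        (1 - inner ℂ (EuclideanSpace.single (0 : Fin 2) (1 : ℂ)) a).re ≤ 1 / (1 ^ 2 + 1))) := by
    rintro _ ⟨l, hl, rfl⟩
    right
    have h := pos_aux l
    have hl1 := Lam_norm hl
    rw [hin, pt_zero]
    have h0 : (1 : ℂ) - ((‖l‖ ^ 2 / (1 + ‖l‖ ^ 2) : ℝ) : ℂ) = ((1 / (1 + ‖l‖ ^ 2) : ℝ) : ℂ) := by
      rw [← Complex.ofReal_one, ← Complex.ofReal_sub]
      congr 1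
      field_simp
      ring
    rw [h0, Complex.ofReal_re, Complex.ofReal_im, Complex.norm_real, Real.norm_eq_abs, sq_abs,
      norm_pt_sq]
    refine ⟨?_, ?_, ?_⟩
    · rw [abs_zero, one_mul]
      positivity
    · rw [← sub_nonneg]
      have : 1 / 2 * (1 - (‖l‖ ^ 2 / (1 + ‖l‖ ^ 2)) ^ 2) -
          (‖l‖ ^ 2 / (1 + ‖l‖ ^ 2) - (‖l‖ ^ 2 / (1 + ‖l‖ ^ 2)) ^ 2) =
          1 / 2 / (1 + ‖l‖ ^ 2) ^ 2 := by
        field_simp
        ring
      rw [this]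
      positivity
    · rw [div_le_div_iff₀ (by positivity) (by positivity)]
      linarith
  have key3 := key2 hw
  clear key2
  have hf : DifferentiableOn ℂ f (Metric.ball 0 1) := by
    intro z hz
    apply DifferentiableAt.differentiableWithinAt
    have hne := one_sub_ne hz
    have d0 : DifferentiableAt ℂ (fun z : EuclideanSpace ℂ (Fin 2) => z 0) z := by fun_prop
    have d1 : DifferentiableAt ℂ (fun z : EuclideanSpace ℂ (Fin 2) => z 1) z := by fun_prop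
    have e0 : DifferentiableAt ℂ (fun z : EuclideanSpace ℂ (Fin 2) => 1 - z 0) z :=
      d0.const_sub 1
    have e1 : DifferentiableAt ℂ (fun z : EuclideanSpace ℂ (Fin 2) => 1 + z 0) z :=
      d0.const_add 1
    have e2 : DifferentiableAt ℂ (fun z : EuclideanSpace ℂ (Fin 2) => (1 - z 0)⁻¹) z :=
      e0.fun_inv hne
    have e3 : DifferentiableAt ℂ (fun z : EuclideanSpace ℂ (Fin 2) => z 1 / (1 - z 0)) z := by
      simp only [div_eq_mul_inv]
      exact d1.fun_mul e2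
    have e4 : DifferentiableAt ℂ
        (fun z : EuclideanSpace ℂ (Fin 2) => (1 + z 0) / (1 - z 0)) z := by
      simp only [div_eq_mul_inv]
      exact e1.fun_mul e2
    exact (e3.fun_pow 2).ccos.fun_mul (e4.fun_neg).cexp
  have hzero : {z | z ∈ Metric.ball (0 : EuclideanSpace ℂ (Fin 2)) 1 ∧ f z = 0} =
        {z | z ∈ Metric.ball (0 : EuclideanSpace ℂ (Fin 2)) 1 ∧
          ∃ a ∈ pt '' Lam, inner ℂ a z = (((‖a‖ ^ 2 : ℝ)) : ℂ)} := by
    ext z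
    simp only [Set.mem_ofPred_eq, and_congr_right_iff]
    intro hz
    have hne := one_sub_ne hz
    rw [f, mul_eq_zero]
    have : ¬ Complex.exp (-((1 + z 0) / (1 - z 0))) = 0 := Complex.exp_ne_zero _
    rw [or_iff_left this, Complex.cos_eq_zero_iff]
    constructor
    · rintro ⟨k, hk⟩
      refine ⟨pt (z 1 / (1 - z 0)), ⟨_, ⟨k, hk⟩, rfl⟩, ?_⟩
      have hm : (z 1 / (1 - z 0)) ∈ Lam := ⟨k, hk⟩
      rw [mem_T_iff (Lam_ne_zero hm) hne]
    · rintro ⟨_, ⟨l, hl, rfl⟩, h⟩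
      rw [mem_T_iff (Lam_ne_zero hl) hne] at h
      rw [h]
      exact hl
  have hsum := key3 ⟨f, hf, ⟨1, fun z hz => f_bound hz⟩,
    ⟨0, by simp, by simp [f]⟩, hzero⟩
  -- contradiction with divergence of the harmonic series
  let g : ℕ → (pt '' Lam : Set (EuclideanSpace ℂ (Fin 2))) :=
    fun k => ⟨pt (root k), ⟨root k, root_mem k, rfl⟩⟩
  have hg : ∀ k, 1 - ‖((g k : (pt '' Lam : Set (EuclideanSpace ℂ (Fin 2)))) :
      EuclideanSpace ℂ (Fin 2))‖ ^ 2 = 1 / (1 + (2 * k + 1) * Real.pi / 2) := by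
    intro k
    simp only [g]
    rw [one_sub_norm_pt_sq, root_norm_sq]
  have ginj : Function.Injective g := by
    intro j k hjk
    have h1 := hg j
    rw [hjk, hg k] at h1
    have hp := Real.pi_pos
    have h2 : (0 : ℝ) < 1 + (2 * k + 1) * Real.pi / 2 := by positivity
    have h3 : (0 : ℝ) < 1 + (2 * j + 1) * Real.pi / 2 := by positivity
    rw [div_eq_div_iff h2.ne' h3.ne'] at h1
    have h4 : Real.pi * ((j : ℝ) - k) = 0 := by linarith
    rcases mul_eq_zero.mp h4 with h | h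
    · exact (hp.ne' h).elim
    · have h5 : (j : ℝ) = k := by linarith
      exact_mod_cast h5
  have h5 := hsum.comp_injective ginj
  have h6 : ((fun a : (pt '' Lam : Set (EuclideanSpace ℂ (Fin 2))) =>
      1 - ‖(a : EuclideanSpace ℂ (Fin 2))‖ ^ 2) ∘ g) =
      fun k : ℕ => 1 / (1 + (2 * (k : ℝ) + 1) * Real.pi / 2) := by
    funext k
    simp only [Function.comp]
    exact hg k
  rw [h6] at h5
  have h7 : Summable (fun k : ℕ => (1 / ((k : ℝ) + 1))) := by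
    have h8 := h5.mul_left (1 + Real.pi)
    refine Summable.of_nonneg_of_le (fun k => by positivity) (fun k => ?_) h8
    have hp := Real.pi_pos
    have hk : (0 : ℝ) ≤ k := Nat.cast_nonneg k
    rw [mul_one_div, div_le_div_iff₀ (by positivity) (by positivity)]
    nlinarith
  have h9 : ¬ Summable (fun k : ℕ => (1 / ((k : ℝ) + 1))) := by
    have := Real.not_summable_one_div_natCast
    rw [← summable_nat_add_iff 1] at this
    simpa using this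
  exact h9 h7

end

end Pool.Agent.S05386
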