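import Pool.Statements.S05442
import Pool.Agent.Work.MP_93d788_an.Final

set_option autoImplicit false
open Pool Pool.MP_93d788_an

namespace Pool.Agent.S05442

/-- The negation of the preceding statement: For every compact Hausdorff K, if the Borel sets of C(K) for the weak topology equal the norm Borel sets, then the Borel sets of C(K) for the topology of pointwise convergence also equal the norm Borel sets. -/
theorem result :
    ¬ (∀ (K : Type) [TopologicalSpace K] [CompactSpace K] [T2Space K],
      @borel C(K, ℝ)
          (TopologicalSpace.induced
            (fun f : C(K, ℝ) => fun φ : C(K, ℝ) →L[ℝ] ℝ => φ f) inferInstance)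
          = borel C(K, ℝ) →
      @borel C(K, ℝ)
          (TopologicalSpace.induced (fun f : C(K, ℝ) => (⇑f : K → ℝ)) inferInstance)
          = borel C(K, ℝ)) := by
  exact Pool.Agent.MP93d788.answer

end Pool.Agent.S05442
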