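import Pool.Statements.S05722
import Pool.Agent.Work.MP_a78000_an.Strict
import Pool.Agent.Work.MP_a78000_an.Cover
import Pool.Agent.Work.MP_a78000_an.Energy
import Pool.Agent.Work.MP_a78000_an.Final

set_option autoImplicit false
open MeasureTheory
open scoped ENNReal NNReal
open Pool Pool.MP_a78000_an

namespace Pool.Agent.S05722

/-- The negation of the preceding statement: If bounded domains conformal to annuli {r<∣z∣<1}, {r*<∣z∣<1} admit a finite-energy C¹ diffeomorphism minimizing Dirichlet energy among all such, then Mod Ω* ≥ log cosh Mod Ω (Mod = −log r, ∞ if r=0), and equality with finite moduli forces Ω* to be a round annulus. -/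
theorem result :
    ¬ (∀ (Ω Ωs : Set ℂ) (r rs : ℝ) (φ ψ h : ℂ → ℂ),
      IsOpen Ω → IsOpen Ωs → Bornology.IsBounded Ω → Bornology.IsBounded Ωs →
      0 ≤ r → r < 1 → 0 ≤ rs → rs < 1 →
      DifferentiableOn ℂ φ Ω → Set.InjOn φ Ω → φ '' Ω = {z : ℂ | r < ‖z‖ ∧ ‖z‖ < 1} →
      DifferentiableOn ℂ ψ Ωs → Set.InjOn ψ Ωs → ψ '' Ωs = {z : ℂ | rs < ‖z‖ ∧ ‖z‖ < 1} →
      ContDiffOn ℝ 1 h Ω → Set.MapsTo h Ω Ωs →
      (∃ k : ℂ → ℂ, ContDiffOn ℝ 1 k Ωs ∧ Set.MapsTo k Ωs Ω ∧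
          (∀ z ∈ Ω, k (h z) = z) ∧ ∀ w ∈ Ωs, h (k w) = w) →
      (∫⁻ z in Ω, (((‖fderiv ℝ h z 1‖₊ ^ 2 + ‖fderiv ℝ h z Complex.I‖₊ ^ 2 : ℝ≥0)) : ℝ≥0∞)) < ⊤ →
      (∀ g : ℂ → ℂ, ContDiffOn ℝ 1 g Ω → Set.MapsTo g Ω Ωs →
        (∃ k : ℂ → ℂ, ContDiffOn ℝ 1 k Ωs ∧ Set.MapsTo k Ωs Ω ∧
          (∀ z ∈ Ω, k (g z) = z) ∧ ∀ w ∈ Ωs, g (k w) = w) →
        (∫⁻ z in Ω, (((‖fderiv ℝ h z 1‖₊ ^ 2 + ‖fderiv ℝ h z Complex.I‖₊ ^ 2 : ℝ≥0)) : ℝ≥0∞))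
          ≤ (∫⁻ z in Ω, (((‖fderiv ℝ g z 1‖₊ ^ 2 + ‖fderiv ℝ g z Complex.I‖₊ ^ 2 : ℝ≥0)) : ℝ≥0∞))) →
      (r = 0 → rs = 0) ∧
      (0 < r → 0 < rs → Real.log (Real.cosh (-Real.log r)) ≤ -Real.log rs) ∧
      (0 < r → 0 < rs → -Real.log rs = Real.log (Real.cosh (-Real.log r)) →
        ∃ (c : ℂ) (a b : ℝ), 0 < a ∧ a < b ∧ Ωs = {z : ℂ | a < ‖z - c‖ ∧ ‖z - c‖ < b})) := by
  intro hall
  obtain ⟨rs, ψ, hrs0, hrs1, hψd, hψi, hψs⟩ := Pool.Agent.A78.Oms_uniformization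
  have hmod := Pool.Agent.A78.modulus_lt hrs0 hrs1 hψd hψi hψs
  have hmain := hall Pool.Agent.A78.Om Pool.Agent.A78.Oms (Real.exp (-(1/2))) rs
    (fun z => ((Real.exp (-(1/2)) : ℝ) : ℂ) * z) ψ Pool.Agent.A78.h
    Pool.Agent.A78.isOpen_Om Pool.Agent.A78.h_inv_facts.1
    Pool.Agent.A78.bounded_Om Pool.Agent.A78.bounded_Oms
    (Real.exp_pos _).le (by rw [Real.exp_lt_one_iff]; norm_num) hrs0 hrs1
    (by fun_prop) Pool.Agent.A78.scale_injOn Pool.Agent.A78.scale_image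
    hψd hψi hψs Pool.Agent.A78.h_contDiffOn (fun z hz => ⟨z, hz, rfl⟩)
    ⟨Function.invFunOn Pool.Agent.A78.h Pool.Agent.A78.Om, Pool.Agent.A78.h_inv_facts.2,
      fun w hw => Function.invFunOn_mem hw,
      fun z hz => Pool.Agent.A78.h_injOn (Function.invFunOn_mem ⟨z, hz, rfl⟩) hz
        (Function.invFunOn_eq ⟨z, hz, rfl⟩),
      fun w hw => Function.invFunOn_eq hw⟩
    Pool.Agent.A78.energy_h_lt_top
    (fun g hg hgm ⟨k, hk, hkm, hkg, hgk⟩ =>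
      Pool.Agent.A78.energy_min hg hgm hk hkm hkg hgk)
  have h2 := hmain.2.1 (Real.exp_pos _) hmod.1
  rw [Real.log_exp, neg_neg] at h2
  exact absurd hmod.2 (not_lt.mpr h2)

end Pool.Agent.S05722
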