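import Pool.Statements.S06126
import Pool.Agent.Work.MP_c93117_an.Neg.Main

set_option autoImplicit false
open Pool Pool.MP_c93117_an

namespace Pool.Agent.S06126

/-- The negation of the preceding statement: For every compact metric space K, every infinite-dimensional subspace of C(K) (real scalars) admitting a bounded linear projection onto it is isomorphic, as a Banach space, to C(L) for some compact metric space L. -/
theorem result :
    ¬ (∀ (K : Type) [MetricSpace K] [CompactSpace K] (p : Submodule ℝ C(K, ℝ)),
      p.ClosedComplemented → ¬ FiniteDimensional ℝ p →
      ∃ (L : Type) (_ : MetricSpace L) (_ : CompactSpace L),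
        Nonempty (p ≃L[ℝ] C(L, ℝ))) := by
  exact Pool.Agent.Work.MP_c93117_an.Neg.all_Final

end Pool.Agent.S06126
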