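import Pool.Statements.S06188
import Pool.Agent.Work.MP_cda452_an.NoG

set_option autoImplicit false
open Filter
open Pool Pool.MP_cda452_an

namespace Pool.Agent.S06188

/-- The negation of the preceding statement: For every compact metrizable space with a continuous Z^k action: it has zero mean dimension iff it has countably many finite-topological-entropy factors that jointly separate points, i.e. it is an inverse limit of finite-entropy systems. -/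
theorem result :
    ¬ (∀ (k : ℕ) (X : Type) [TopologicalSpace X] [CompactSpace X]
    [TopologicalSpace.MetrizableSpace X] [AddAction (Fin k → ℤ) X]
    [ContinuousConstVAdd (Fin k → ℤ) X],
    ((∀ α : Finset (Set X), (∀ U ∈ α, IsOpen U) → (∀ x : X, ∃ U ∈ α, x ∈ U) →
      ∀ ε : ℝ, 0 < ε → ∀ᶠ n : ℕ in atTop, ∃ γ : Finset (Set X),
        (∀ V ∈ γ, IsOpen V) ∧ (∀ x : X, ∃ V ∈ γ, x ∈ V) ∧
        (∀ V ∈ γ, ∃ c : (Fin k → ℤ) → Set X,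
          (∀ g : Fin k → ℤ, (∀ i, 0 ≤ g i ∧ g i < (n : ℤ)) → c g ∈ α) ∧
          ∀ x ∈ V, ∀ g : Fin k → ℤ, (∀ i, 0 ≤ g i ∧ g i < (n : ℤ)) → g +ᵥ x ∈ c g) ∧
        ∀ x : X, ∀ t ⊆ γ, (∀ V ∈ t, x ∈ V) → (t.card : ℝ) ≤ 1 + ε * (n : ℝ) ^ k)
    ↔ ∃ π : ℕ → X → (ℕ → ℝ), (∀ m, Continuous (π m)) ∧
      (∀ m (x y : X) (g : Fin k → ℤ), π m x = π m y → π m (g +ᵥ x) = π m (g +ᵥ y)) ∧
      (∀ m, ∃ C : ℝ, ∀ α : Finset (Set (ℕ → ℝ)), (∀ W ∈ α, IsOpen W) →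
        (∀ x : X, ∃ W ∈ α, π m x ∈ W) →
        ∀ᶠ n : ℕ in atTop, ∃ s : Finset ((Fin k → ℤ) → Set (ℕ → ℝ)),
          (∀ c ∈ s, ∀ g : Fin k → ℤ, (∀ i, 0 ≤ g i ∧ g i < (n : ℤ)) → c g ∈ α) ∧
          (∀ x : X, ∃ c ∈ s, ∀ g : Fin k → ℤ, (∀ i, 0 ≤ g i ∧ g i < (n : ℤ)) →
            π m (g +ᵥ x) ∈ c g) ∧
          Real.log (s.card : ℝ) ≤ C * (n : ℝ) ^ k) ∧
      (∀ x y : X, (∀ m, π m x = π m y) → x = y))) := by
  intro hall
  obtain ⟨hmp, -⟩ := hall 1 Pool.Agent.Work.MP_cda452_an.X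
  obtain ⟨π, hπ, -, hC, hsep⟩ := hmp (fun α ho hc ε hε =>
    Pool.Agent.Work.MP_cda452_an.mdim_zero α ho hc ε hε)
  obtain ⟨G, h, hG, h01, hG0, hG1, hcell⟩ :=
    Pool.Agent.Work.MP_cda452_an.exists_G π hπ hC hsep
  exact Pool.Agent.Work.MP_cda452_an.no_G G h hG h01 hG0 hG1 hcell

end Pool.Agent.S06188
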