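import Pool.Statements.S06446
import Pool.Agent.Work.MP_e08233_an.Asm4
import Pool.Agent.Work.MP_e08233_an.Final

set_option autoImplicit false
open Pool Pool.MP_e08233_an

namespace Pool.Agent.S06446

/-- The negation of the preceding statement: There is a finite t such that for all 1<n<N, every proper holomorphic map from the unit ball of C^n to the unit ball of C^N that is C^t up to the boundary has components p_j/q for polynomials p_j and a nonzero polynomial q. -/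
theorem result :
    ¬ (∃ t : ℕ, ∀ n N : ℕ, 1 < n → n < N →
    ∀ f : (Fin n → ℂ) → (Fin N → ℂ),
      Set.MapsTo f {z : Fin n → ℂ | ∑ i, ‖z i‖ ^ 2 < 1} {w : Fin N → ℂ | ∑ j, ‖w j‖ ^ 2 < 1} →
      DifferentiableOn ℂ f {z : Fin n → ℂ | ∑ i, ‖z i‖ ^ 2 < 1} →
      (∀ K : Set (Fin N → ℂ), K ⊆ {w : Fin N → ℂ | ∑ j, ‖w j‖ ^ 2 < 1} → IsCompact K →
        IsCompact ({z : Fin n → ℂ | ∑ i, ‖z i‖ ^ 2 < 1} ∩ f ⁻¹' K)) →
      ContDiffOn ℝ (t : WithTop ℕ∞) f {z : Fin n → ℂ | ∑ i, ‖z i‖ ^ 2 ≤ 1} →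
      ∃ p : Fin N → MvPolynomial (Fin n) ℂ, ∃ q : MvPolynomial (Fin n) ℂ, q ≠ 0 ∧
        ∀ z ∈ {z : Fin n → ℂ | ∑ i, ‖z i‖ ^ 2 < 1}, ∀ j : Fin N,
          f z j * MvPolynomial.eval z q = MvPolynomial.eval z (p j)) := by
  rintro ⟨t, ht⟩
  obtain ⟨N, hN, β, hβ, g, hd, hc, hs⟩ := Pool.Agent.BM.exists_g t
  exact Pool.Agent.BM.final_assembly t N hN β hβ g hd hc hs ht

end Pool.Agent.S06446
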