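import Pool.Statements.S06551
import Pool.Agent.Work.MP_ea6116_an.Main

set_option autoImplicit false
open Pool Pool.MP_ea6116_an

namespace Pool.Agent.S06551

/-- For div(A grad u)=0 with symmetric elliptic Lipschitz A on a bounded domain: if ∣grad u∣≤1 in the domain and ≤ε on a set E of (n−2+δ)-Hausdorff content ≥m away from the boundary, then ∣grad u∣≤Cε^γ on sets away from the boundary. -/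
theorem result :
  ∀ (n : ℕ), 2 ≤ n →
  ∀ (Ω : Set (EuclideanSpace ℝ (Fin n))), IsOpen Ω → IsConnected Ω → Bornology.IsBounded Ω →
  ∀ (A : EuclideanSpace ℝ (Fin n) → (EuclideanSpace ℝ (Fin n) →L[ℝ] EuclideanSpace ℝ (Fin n))),
    (∀ x ∈ Ω, ∀ ξ η : EuclideanSpace ℝ (Fin n), inner ℝ (A x ξ) η = inner ℝ ξ (A x η)) →
    (∃ Λ : ℝ, 0 < Λ ∧ ∀ x ∈ Ω, ∀ ξ : EuclideanSpace ℝ (Fin n),
        Λ⁻¹ * ‖ξ‖ ^ 2 ≤ inner ℝ (A x ξ) ξ ∧ inner ℝ (A x ξ) ξ ≤ Λ * ‖ξ‖ ^ 2) →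
    (∃ L : NNReal, LipschitzOnWith L A Ω) →
  ∀ δ : ℝ, 0 < δ → ∀ ρ : ℝ, 0 < ρ → ∀ m : ℝ, 0 < m →
  ∃ C γ : ℝ, 0 < C ∧ 0 < γ ∧
  ∀ E K : Set (EuclideanSpace ℝ (Fin n)), E ⊆ Ω → K ⊆ Ω →
    (∀ x ∈ E, ρ < Metric.infDist x Ωᶜ) → (∀ x ∈ K, ρ < Metric.infDist x Ωᶜ) →
    ENNReal.ofReal m ≤ ⨅ (t : ℕ → Set (EuclideanSpace ℝ (Fin n))) (_ : E ⊆ ⋃ i, t i),
        ∑' i, EMetric.diam (t i) ^ ((n : ℝ) - 2 + δ) →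
  ∀ u : EuclideanSpace ℝ (Fin n) → ℝ, ContDiffOn ℝ 1 u Ω →
    (∀ φ : EuclideanSpace ℝ (Fin n) → ℝ, ContDiff ℝ ((⊤ : ℕ∞) : WithTop ℕ∞) φ →
      HasCompactSupport φ → tsupport φ ⊆ Ω →
      ∫ x in Ω, inner ℝ (A x (gradient u x)) (gradient φ x) = 0) →
    (∀ x ∈ Ω, ‖gradient u x‖ ≤ 1) →
  ∀ ε : ℝ, 0 < ε → (∀ x ∈ E, ‖gradient u x‖ ≤ ε) →
    ∀ x ∈ K, ‖gradient u x‖ ≤ C * ε ^ γ := by
  exact EAGrad.main_statement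

end Pool.Agent.S06551
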