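import Pool.Statements.S06709
import Pool.Agent.Work.MP_f490a9_an.Third

set_option autoImplicit false
open Pool Pool.MP_f490a9_an

namespace Pool.Agent.S06709

/-- Every nonseparable real Banach space with a separable subspace whose dual is nonseparable (i.e. non-Asplund) has an equivalent norm that is strongly subdifferentiable at no nonzero point. -/
theorem result :
    ∀ (X : Type) [NormedAddCommGroup X] [NormedSpace ℝ X] [CompleteSpace X],
      ¬ TopologicalSpace.SeparableSpace X →
      (∃ Y : Submodule ℝ X, TopologicalSpace.SeparableSpace Y ∧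
          ¬ TopologicalSpace.SeparableSpace (Y →L[ℝ] ℝ)) →
      ∃ N : Seminorm ℝ X,
        (∃ a b : ℝ, 0 < a ∧ 0 < b ∧ ∀ x : X, a * ‖x‖ ≤ N x ∧ N x ≤ b * ‖x‖) ∧
        ∀ x : X, x ≠ 0 →
          ¬ ∃ D : X → ℝ, ∀ ε : ℝ, 0 < ε → ∃ δ : ℝ, 0 < δ ∧
              ∀ h : X, ‖h‖ ≤ 1 → ∀ t : ℝ, 0 < t → t < δ →
                |(N (x + t • h) - N x) / t - D h| < ε := by
  intro X _ _ _ _ hY
  obtain ⟨Y, hYs, hYd⟩ := hY
  obtain ⟨D, top, comp, r, e, v, C, hC, hr, hsurj, hirr, he, hec, hv, happ⟩ :=
    Pool.Agent.Work.MP_f490a9_an.cantor_system X Y hYs hYd (1 / 100) (by norm_num)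
  let S : Pool.Agent.Work.MP_f490a9_an.CSystem X D :=
    { r := r, e := e, v := v, C := C, hC := hC, hr := hr, surj := hsurj, irr := hirr, he := he,
      hec := hec, hv := hv, happ := happ }
  refine ⟨S.sem false + (S.sem true + S.sem3), ⟨1, 6, one_pos, by norm_num, fun x => ⟨?_, ?_⟩⟩, ?_⟩
  · have h1 := S.norm_le_sem3 x
    have h2 : 0 ≤ S.sem false x := apply_nonneg _ _
    have h3 : 0 ≤ S.sem true x := apply_nonneg _ _
    show 1 * ‖x‖ ≤ S.sem false x + (S.sem true x + S.sem3 x)
    linarith
  · have h1 := S.sem3_le x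
    have h2 := S.sem_le false x
    have h3 := S.sem_le true x
    show S.sem false x + (S.sem true x + S.sem3 x) ≤ 6 * ‖x‖
    linarith
  · intro x hx hssd
    have huc := Pool.Agent.Work.MP_f490a9_an.uc_of_ssd _ x hssd
    have huc1 : Pool.Agent.Work.MP_f490a9_an.UC (S.sem false) x :=
      Pool.Agent.Work.MP_f490a9_an.uc_left (S.sem false) (S.sem true + S.sem3) x huc
    have huc2 : Pool.Agent.Work.MP_f490a9_an.UC (S.sem true) x := by
      refine Pool.Agent.Work.MP_f490a9_an.uc_left (S.sem true) (S.sem false + S.sem3) x ?_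
      have : (fun y => S.sem true y + (S.sem false + S.sem3) y)
          = ⇑(S.sem false + (S.sem true + S.sem3)) := by
        funext y
        show S.sem true y + (S.sem false y + S.sem3 y) = S.sem false y + (S.sem true y + S.sem3 y)
        ring
      rw [this]
      exact huc
    have huc3 : Pool.Agent.Work.MP_f490a9_an.UC S.sem3 x := by
      refine Pool.Agent.Work.MP_f490a9_an.uc_left S.sem3 (S.sem false + S.sem true) x ?_
      have : (fun y => S.sem3 y + (S.sem false + S.sem true) y)
          = ⇑(S.sem false + (S.sem true + S.sem3)) := by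
        funext y
        show S.sem3 y + (S.sem false y + S.sem true y) = S.sem false y + (S.sem true y + S.sem3 y)
        ring
      rw [this]
      exact huc
    by_cases h0 : ∀ d, S.e d x = 0
    · exact S.not_uc_sem3 x hx h0 huc3
    · push Not at h0
      obtain ⟨d, hd⟩ := h0
      rcases hb : S.r d 0 with _ | _
      · exact S.not_uc_sem true x ⟨d, by simpa using hb, hd⟩ huc2
      · exact S.not_uc_sem false x ⟨d, by simpa using hb, hd⟩ huc1

end Pool.Agent.S06709
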