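import Pool.Statements.S06830

set_option autoImplicit false
open Pool Pool.MP_fda7e3_an

namespace Pool.Agent.S06830

open Polynomial

/-- coefficient `mu = (3 - 5 i)/340` -/
noncomputable def mu : ℂ := ⟨3/340, -1/68⟩

/-- coefficient `nu = (79851 + 35467 i)/87040` -/
noncomputable def nu : ℂ := ⟨79851/87040, 35467/87040⟩

/-- The quartic polynomial `T` with `T' = mu (z^3 - 3 z) + nu`, `T'' = 3 mu (z^2 - 1)`. -/
noncomputable def T : Polynomial ℂ :=
  C (mu / 4) * X ^ 4 - C (3 / 2 * mu) * X ^ 2 + C nu * X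

lemma T_eval (z : ℂ) : T.eval z = mu / 4 * z ^ 4 - 3 / 2 * mu * z ^ 2 + nu * z := by
  simp [T]

lemma dT : derivative T = C mu * X ^ 3 - C (3 * mu) * X + C nu := by
  simp only [T, derivative_add, derivative_sub, derivative_mul, derivative_C, derivative_X_pow,
    derivative_X, zero_mul, zero_add, mul_one]
  have h1 : (C (mu / 4) * (C ((4 : ℕ) : ℂ) * X ^ (4 - 1)) : Polynomial ℂ) = C mu * X ^ 3 := by
    rw [← mul_assoc, ← C_mul]
    congr 2
    push_cast
    ring
  have h2 : (C (3 / 2 * mu) * (C ((2 : ℕ) : ℂ) * X ^ (2 - 1)) : Polynomial ℂ) = C (3 * mu) * X := by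
    rw [← mul_assoc, ← C_mul]
    have : (3 / 2 * mu * ((2 : ℕ) : ℂ)) = 3 * mu := by push_cast; ring
    rw [this]
    simp
  rw [h1, h2]

lemma dT_eval (z : ℂ) : (derivative T).eval z = mu * (z ^ 3 - 3 * z) + nu := by
  rw [dT]
  simp
  ring

lemma ddT_eval (z : ℂ) : (derivative (derivative T)).eval z = 3 * mu * (z ^ 2 - 1) := by
  rw [dT]
  simp [derivative_mul]
  ring

/-- real part of `T'(x + i y)` -/
noncomputable def reP (x y : ℝ) : ℝ :=
  3/340 * (x^3 - 3*x*y^2 - 3*x) + 1/68 * (3*x^2*y - y^3 - 3*y) + 79851/87040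

/-- imaginary part of `T'(x + i y)` -/
noncomputable def imP (x y : ℝ) : ℝ :=
  3/340 * (3*x^2*y - y^3 - 3*y) - 1/68 * (x^3 - 3*x*y^2 - 3*x) + 35467/87040

lemma dT_eval_mk (x y : ℝ) : (derivative T).eval (⟨x, y⟩ : ℂ) = ⟨reP x y, imP x y⟩ := by
  rw [dT_eval]
  apply Complex.ext
  · simp [mu, nu, reP, pow_succ]
    ring
  · simp [mu, nu, imP, pow_succ]
    ring

lemma norm_lt_one_iff (x y : ℝ) :
    ‖(derivative T).eval (⟨x, y⟩ : ℂ)‖ < 1 ↔ (reP x y)^2 + (imP x y)^2 < 1 := by
  rw [dT_eval_mk]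
  rw [← abs_norm, ← sq_lt_one_iff_abs_lt_one, ← Complex.normSq_eq_norm_sq, Complex.normSq_mk]
  constructor <;> intro h <;> nlinarith

/-- the open set `|T'| < 1` -/
def U : Set ℂ := {u : ℂ | ‖(derivative T).eval u‖ < 1}

/-- first point -/
noncomputable def z1 : ℂ := ⟨1, 1/4⟩
/-- second point -/
noncomputable def z2 : ℂ := ⟨5/4, 5/4⟩
/-- intermediate point of the path -/
noncomputable def p0 : ℂ := ⟨0, 3/4⟩

lemma seg1_mem (t : ℝ) (h0 : 0 ≤ t) (h1 : t ≤ 1) :
    (⟨1 - t, 1/4 + t/2⟩ : ℂ) ∈ U := by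
  show ‖(derivative T).eval (⟨1 - t, 1/4 + t/2⟩ : ℂ)‖ < 1
  rw [norm_lt_one_iff]
  have hs : 0 ≤ 1 - t := by linarith
  have key : 1 - ((reP (1 - t) (1/4 + t/2))^2 + (imP (1 - t) (1/4 + t/2))^2) =
      (2468887/3787980800) +
      ((6639681/118374400) * t^1 * (1-t)^5 + (41920323/118374400) * t^2 * (1-t)^4 +
       (47828559/59187200) * t^3 * (1-t)^3 + (50734413/59187200) * t^4 * (1-t)^2 +
       (10146957/23674880) * t^5 * (1-t)^1 + (1914887/23674880) * t^6 * (1-t)^0) := by
    unfold reP imP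
    ring
  have hpos : 0 ≤ ((6639681/118374400) * t^1 * (1-t)^5 + (41920323/118374400) * t^2 * (1-t)^4 +
       (47828559/59187200) * t^3 * (1-t)^3 + (50734413/59187200) * t^4 * (1-t)^2 +
       (10146957/23674880) * t^5 * (1-t)^1 + (1914887/23674880) * t^6 * (1-t)^0) := by
    positivity
  linarith

lemma seg2_mem (t : ℝ) (h0 : 0 ≤ t) (h1 : t ≤ 1) :
    (⟨5/4 - 5/4 * t, 5/4 - t/2⟩ : ℂ) ∈ U := by
  show ‖(derivative T).eval (⟨5/4 - 5/4 * t, 5/4 - t/2⟩ : ℂ)‖ < 1
  rw [norm_lt_one_iff]
  have hs : 0 ≤ 1 - t := by linarith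
  have key : 1 - ((reP (5/4 - 5/4 * t) (5/4 - t/2))^2 + (imP (5/4 - 5/4 * t) (5/4 - t/2))^2) =
      (1464459/757596160) +
      ((41747043/118374400) * t^1 * (1-t)^5 + (654609861/473497600) * t^2 * (1-t)^4 +
       (40448465/18939904) * t^3 * (1-t)^3 + (151812381/94699520) * t^4 * (1-t)^2 +
       (273992259/473497600) * t^5 * (1-t)^1 + (4711383/59187200) * t^6 * (1-t)^0) := by
    unfold reP imP
    ring
  have hpos : 0 ≤ ((41747043/118374400) * t^1 * (1-t)^5 + (654609861/473497600) * t^2 * (1-t)^4 +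
       (40448465/18939904) * t^3 * (1-t)^3 + (151812381/94699520) * t^4 * (1-t)^2 +
       (273992259/473497600) * t^5 * (1-t)^1 + (4711383/59187200) * t^6 * (1-t)^0) := by
    positivity
  linarith

lemma segment1_sub : segment ℝ z1 p0 ⊆ U := by
  rintro z ⟨a, b, ha, hb, hab, rfl⟩
  have h := seg1_mem b hb (by linarith)
  convert h using 1
  have ha' : a = 1 - b := by linarith
  subst ha'
  apply Complex.ext
  · simp [z1, p0]
  · simp [z1, p0]
    ring

lemma segment2_sub : segment ℝ z2 p0 ⊆ U := by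
  rintro z ⟨a, b, ha, hb, hab, rfl⟩
  have h := seg2_mem b hb (by linarith)
  convert h using 1
  have ha' : a = 1 - b := by linarith
  subst ha'
  apply Complex.ext
  · simp [z2, p0]
    ring
  · simp [z2, p0]
    ring

lemma z1_mem_U : z1 ∈ U := segment1_sub (left_mem_segment ℝ z1 p0)

/-- `z2` lies in the component of `|T'| < 1` containing `z1`. -/
lemma z2_mem_comp : z2 ∈ connectedComponentIn U z1 := by
  have h1 : IsPreconnected (segment ℝ z1 p0) := (convex_segment z1 p0).isPreconnected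
  have h2 : IsPreconnected (segment ℝ z2 p0) := (convex_segment z2 p0).isPreconnected
  have h3 : IsPreconnected (segment ℝ z1 p0 ∪ segment ℝ z2 p0) :=
    IsPreconnected.union p0 (right_mem_segment ℝ z1 p0) (right_mem_segment ℝ z2 p0) h1 h2
  have h4 := h3.subset_connectedComponentIn (F := U) (x := z1)
    (Or.inl (left_mem_segment ℝ z1 p0)) (Set.union_subset segment1_sub segment2_sub)
  exact h4 (Or.inr (left_mem_segment ℝ z2 p0))

lemma z1_mem_comp : z1 ∈ connectedComponentIn U z1 := mem_connectedComponentIn z1_mem_U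

/-- `conj z + T z` takes the same value at `z1` and `z2`. -/
lemma same_value : starRingEnd ℂ z2 + T.eval z2 = starRingEnd ℂ z1 + T.eval z1 := by
  rw [T_eval, T_eval]
  apply Complex.ext
  · simp [mu, nu, z1, z2, pow_succ, Complex.div_re, Complex.div_im, Complex.normSq]
    norm_num
  · simp [mu, nu, z1, z2, pow_succ, Complex.div_re, Complex.div_im, Complex.normSq]
    norm_num

lemma z1_ne_z2 : z1 ≠ z2 := by
  intro h
  have := congrArg Complex.re h
  norm_num [z1, z2] at this

lemma mu_ne_zero : mu ≠ 0 := by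
  intro h
  have := congrArg Complex.re h
  norm_num [mu] at this

/-- No critical point of `T'` lies in `U`. -/
lemma ddT_ne_zero (z : ℂ) (hz : z ∈ U) : (derivative (derivative T)).eval z ≠ 0 := by
  rw [ddT_eval]
  intro h
  have h3 : (3 * mu : ℂ) ≠ 0 := mul_ne_zero (by norm_num) mu_ne_zero
  have h4 : z ^ 2 - 1 = 0 := by
    rcases mul_eq_zero.1 h with h | h
    · exact absurd h h3
    · exact h
  have h5 : z = 1 ∨ z = -1 := by
    have : (z - 1) * (z + 1) = 0 := by linear_combination h4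
    rcases mul_eq_zero.1 this with h | h
    · left; linear_combination h
    · right; linear_combination h
  have hz' : ‖(derivative T).eval z‖ < 1 := hz
  rcases h5 with h | h
  · have e : z = (⟨1, 0⟩ : ℂ) := by rw [h]; rfl
    rw [e, norm_lt_one_iff] at hz'
    norm_num [reP, imP] at hz'
  · have e : z = (⟨-1, 0⟩ : ℂ) := by
      rw [h]
      apply Complex.ext <;> simp
    rw [e, norm_lt_one_iff] at hz'
    norm_num [reP, imP] at hz'

/-- The negation of the preceding statement: For every complex polynomial T and every connected component D of the set where ∣T'∣ < 1, each value w is taken by conj(z) + T(z) at most r+1 times in D, where r is the number of zeros of T'' in D counted with multiplicity. -/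
theorem result :
    ¬ (∀ (T : Polynomial ℂ) (x : ℂ), ‖(Polynomial.derivative T).eval x‖ < 1 →
      ∀ w : ℂ,
        {z : ℂ | z ∈ connectedComponentIn {u : ℂ | ‖(Polynomial.derivative T).eval u‖ < 1} x ∧
            starRingEnd ℂ z + T.eval z = w}.encard
          ≤ (((∑ᶠ z ∈ connectedComponentIn {u : ℂ | ‖(Polynomial.derivative T).eval u‖ < 1} x,
                (Polynomial.derivative (Polynomial.derivative T)).rootMultiplicity z) + 1 : ℕ) : ℕ∞)) := by
  intro H
  have h := H T z1 z1_mem_U (starRingEnd ℂ z1 + T.eval z1)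
  have hsum : (∑ᶠ z ∈ connectedComponentIn {u : ℂ | ‖(Polynomial.derivative T).eval u‖ < 1} z1,
      (Polynomial.derivative (Polynomial.derivative T)).rootMultiplicity z) = 0 := by
    apply finsum_mem_eq_zero_of_forall_eq_zero
    intro z hz
    have hzU : z ∈ U := connectedComponentIn_subset _ _ hz
    exact Polynomial.rootMultiplicity_eq_zero (ddT_ne_zero z hzU)
  rw [hsum] at h
  have hsub : ({z1, z2} : Set ℂ) ⊆
      {z : ℂ | z ∈ connectedComponentIn {u : ℂ | ‖(Polynomial.derivative T).eval u‖ < 1} z1 ∧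
            starRingEnd ℂ z + T.eval z = starRingEnd ℂ z1 + T.eval z1} := by
    intro z hz
    rcases hz with hz | hz
    · rw [hz]
      exact ⟨z1_mem_comp, rfl⟩
    · rw [Set.mem_singleton_iff] at hz
      rw [hz]
      exact ⟨z2_mem_comp, same_value⟩
  have h2 := Set.encard_le_encard hsub
  rw [Set.encard_pair z1_ne_z2] at h2
  have h3 : (2 : ℕ∞) ≤ ((0 + 1 : ℕ) : ℕ∞) := le_trans h2 h
  norm_num at h3

end Pool.Agent.S06830
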