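import Pool.Statements.S07012
-- import your own Pool.Agent.* helpers here
import Pool.Agent.Work.MP_073f2d_co.Ad.Fin

set_option autoImplicit false
open N8b55e67f
open Filter Topology Fintype
open scoped ENNReal Pointwise
open Pool Pool.MP_073f2d_co

namespace Pool.Agent.S07012

/-- The negation of the preceding statement: For each r, f r = liminf_n (inf over F2-subspaces V of F2^n with V + HammingBall(n,r) = univ of ∣V∣·∣Ball∣/2^n) in ℝ≥0∞, and f r → ⊤ as r → ∞. -/
theorem result :
    ¬ (Tendsto f atTop (𝓝 ⊤)) := by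
  intro h
  have h1 : ∀ᶠ r in atTop, (300 : ℝ≥0∞) < f r :=
    h.eventually (lt_mem_nhds (ENNReal.natCast_lt_top 300))
  obtain ⟨r, hr, hr2⟩ := (h1.and (eventually_ge_atTop 2)).exists
  obtain ⟨k, rfl⟩ : ∃ k, r = k + 1 := ⟨r - 1, by omega⟩
  exact absurd (Pool.Agent.MP073f2d.Ad.stFin k (by omega)) (not_le.2 hr)

end Pool.Agent.S07012
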