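import Pool.Statements.S07891
import Pool.Agent.Work.MP_2e1090_co.Final

set_option autoImplicit false
open Pool Pool.MP_2e1090_co

namespace Pool.Agent.S07891

/-- Some Dressian Dr(d,n) has a tropical Plücker vector inducing a coarsest nontrivial matroid subdivision (a ray) that differs from the subdivision induced by the corank vector of every rank-d matroid on n elements. -/
theorem result :
    ∃ d n : ℕ, ∃ w : Finset (Fin n) → ℝ,
      (∀ (S : Finset (Fin n)) (i j k l : Fin n), S.card + 2 = d →
        i ∉ S → j ∉ S → k ∉ S → l ∉ S →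
        i ≠ j → i ≠ k → i ≠ l → j ≠ k → j ≠ l → k ≠ l →
        ((w (insert i (insert j S)) + w (insert k (insert l S))
            = w (insert i (insert k S)) + w (insert j (insert l S)) ∧
          w (insert i (insert j S)) + w (insert k (insert l S))
            ≤ w (insert i (insert l S)) + w (insert j (insert k S))) ∨
         (w (insert i (insert j S)) + w (insert k (insert l S))
            = w (insert i (insert l S)) + w (insert j (insert k S)) ∧
          w (insert i (insert j S)) + w (insert k (insert l S))
            ≤ w (insert i (insert k S)) + w (insert j (insert l S))) ∨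
         (w (insert i (insert k S)) + w (insert j (insert l S))
            = w (insert i (insert l S)) + w (insert j (insert k S)) ∧
          w (insert i (insert k S)) + w (insert j (insert l S))
            ≤ w (insert i (insert j S)) + w (insert k (insert l S))))) ∧
      (¬ ∃ c : Fin n → ℝ, ∀ B : Finset (Fin n), B.card = d →
          ∀ B' : Finset (Fin n), B'.card = d →
            w B - ∑ i ∈ B, c i ≤ w B' - ∑ i ∈ B', c i) ∧
      (∀ v : Finset (Fin n) → ℝ,
        (∀ (S : Finset (Fin n)) (i j k l : Fin n), S.card + 2 = d →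
          i ∉ S → j ∉ S → k ∉ S → l ∉ S →
          i ≠ j → i ≠ k → i ≠ l → j ≠ k → j ≠ l → k ≠ l →
          ((v (insert i (insert j S)) + v (insert k (insert l S))
              = v (insert i (insert k S)) + v (insert j (insert l S)) ∧
            v (insert i (insert j S)) + v (insert k (insert l S))
              ≤ v (insert i (insert l S)) + v (insert j (insert k S))) ∨
           (v (insert i (insert j S)) + v (insert k (insert l S))
              = v (insert i (insert l S)) + v (insert j (insert k S)) ∧
            v (insert i (insert j S)) + v (insert k (insert l S))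
              ≤ v (insert i (insert k S)) + v (insert j (insert l S))) ∨
           (v (insert i (insert k S)) + v (insert j (insert l S))
              = v (insert i (insert l S)) + v (insert j (insert k S)) ∧
            v (insert i (insert k S)) + v (insert j (insert l S))
              ≤ v (insert i (insert j S)) + v (insert k (insert l S))))) →
        (∀ c : Fin n → ℝ, ∃ c' : Fin n → ℝ,
          {B : Finset (Fin n) | B.card = d ∧ ∀ B' : Finset (Fin n), B'.card = d →
              w B - ∑ i ∈ B, c i ≤ w B' - ∑ i ∈ B', c i} ⊆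
          {B : Finset (Fin n) | B.card = d ∧ ∀ B' : Finset (Fin n), B'.card = d →
              v B - ∑ i ∈ B, c' i ≤ v B' - ∑ i ∈ B', c' i}) →
        (∃ c : Fin n → ℝ, ∀ B : Finset (Fin n), B.card = d →
          ∀ B' : Finset (Fin n), B'.card = d →
            v B - ∑ i ∈ B, c i ≤ v B' - ∑ i ∈ B', c i) ∨
        ((∀ c : Fin n → ℝ, ∃ c' : Fin n → ℝ,
          {B : Finset (Fin n) | B.card = d ∧ ∀ B' : Finset (Fin n), B'.card = d →
              w B - ∑ i ∈ B, c i ≤ w B' - ∑ i ∈ B', c i} =
          {B : Finset (Fin n) | B.card = d ∧ ∀ B' : Finset (Fin n), B'.card = d →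
              v B - ∑ i ∈ B, c' i ≤ v B' - ∑ i ∈ B', c' i}) ∧
         (∀ c : Fin n → ℝ, ∃ c' : Fin n → ℝ,
          {B : Finset (Fin n) | B.card = d ∧ ∀ B' : Finset (Fin n), B'.card = d →
              v B - ∑ i ∈ B, c i ≤ v B' - ∑ i ∈ B', c i} =
          {B : Finset (Fin n) | B.card = d ∧ ∀ B' : Finset (Fin n), B'.card = d →
              w B - ∑ i ∈ B, c' i ≤ w B' - ∑ i ∈ B', c' i}))) ∧
      (¬ ∃ M : Matroid (Fin n), M.E = Set.univ ∧ M.eRank = (d : ℕ∞) ∧
        (∀ c : Fin n → ℝ, ∃ c' : Fin n → ℝ,
          {B : Finset (Fin n) | B.card = d ∧ ∀ B' : Finset (Fin n), B'.card = d →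
              w B - ∑ i ∈ B, c i ≤ w B' - ∑ i ∈ B', c i} =
          {B : Finset (Fin n) | B.card = d ∧ ∀ B' : Finset (Fin n), B'.card = d →
              ((d : ℝ) - ((M.eRk (B : Set (Fin n))).toNat : ℝ)) - ∑ i ∈ B, c' i ≤
              ((d : ℝ) - ((M.eRk (B' : Set (Fin n))).toNat : ℝ)) - ∑ i ∈ B', c' i}) ∧
        (∀ c : Fin n → ℝ, ∃ c' : Fin n → ℝ,
          {B : Finset (Fin n) | B.card = d ∧ ∀ B' : Finset (Fin n), B'.card = d →
              ((d : ℝ) - ((M.eRk (B : Set (Fin n))).toNat : ℝ)) - ∑ i ∈ B, c i ≤
              ((d : ℝ) - ((M.eRk (B' : Set (Fin n))).toNat : ℝ)) - ∑ i ∈ B', c i} =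
          {B : Finset (Fin n) | B.card = d ∧ ∀ B' : Finset (Fin n), B'.card = d →
              w B - ∑ i ∈ B, c' i ≤ w B' - ∑ i ∈ B', c' i})) := by
  refine ⟨3, 9, Pool.Agent.Work.MP_2e1090_co.w, ?_, ?_, ?_, ?_⟩
  · exact fun S i j k l hS hi hj hk hl hij hik hil hjk hjl hkl =>
      Pool.Agent.Work.MP_2e1090_co.plucker S i j k l hS hi hj hk hl hij hik hil hjk hjl hkl
  · exact Pool.Agent.Work.MP_2e1090_co.nontriv
  · intro v _ hv
    obtain ⟨lam, hlam, a, ha⟩ := Pool.Agent.Work.MP_2e1090_co.rigid v hv
    rcases hlam.eq_or_lt with h0 | hpos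
    · left
      refine ⟨a, fun B hB B' hB' => ?_⟩
      rw [ha B hB, ha B' hB', ← h0]
      simp
    · right
      constructor
      · intro c
        refine ⟨fun i => lam * c i + a i, ?_⟩
        ext B
        simp only [Set.mem_ofPred_eq]
        refine and_congr_right fun hB => forall_congr' fun B' => imp_congr_right fun hB' => ?_
        rw [ha B hB, ha B' hB', Finset.sum_add_distrib, Finset.sum_add_distrib,
          ← Finset.mul_sum, ← Finset.mul_sum]
        constructor
        · intro h
          have := mul_le_mul_of_nonneg_left h hpos.le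
          linarith
        · intro h
          have h3 : lam * (Pool.Agent.Work.MP_2e1090_co.w B - ∑ i ∈ B, c i) ≤
              lam * (Pool.Agent.Work.MP_2e1090_co.w B' - ∑ i ∈ B', c i) := by linarith
          exact le_of_mul_le_mul_left h3 hpos
      · intro c
        refine ⟨fun i => lam⁻¹ * (c i - a i), ?_⟩
        ext B
        simp only [Set.mem_ofPred_eq]
        refine and_congr_right fun hB => forall_congr' fun B' => imp_congr_right fun hB' => ?_
        rw [ha B hB, ha B' hB', ← Finset.mul_sum, ← Finset.mul_sum,
          Finset.sum_sub_distrib, Finset.sum_sub_distrib]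
        have hne : lam ≠ 0 := hpos.ne'
        have hid : ∀ X Y : ℝ, lam * (X - lam⁻¹ * Y) = lam * X - Y := by
          intro X Y
          rw [mul_sub, mul_inv_cancel_left₀ hne]
        constructor
        · intro h
          have h3 : lam * (Pool.Agent.Work.MP_2e1090_co.w B
                - lam⁻¹ * (∑ i ∈ B, c i - ∑ i ∈ B, a i)) ≤
              lam * (Pool.Agent.Work.MP_2e1090_co.w B'
                - lam⁻¹ * (∑ i ∈ B', c i - ∑ i ∈ B', a i)) := by
            rw [hid, hid]
            linarith
          exact le_of_mul_le_mul_left h3 hpos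
        · intro h
          have := mul_le_mul_of_nonneg_left h hpos.le
          rw [hid, hid] at this
          linarith
  · rintro ⟨M, _, _, h1, h2⟩
    exact Pool.Agent.Work.MP_2e1090_co.not_corank M h1 h2

end Pool.Agent.S07891
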