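import Pool.Statements.S08394
import Pool.Agent.Work.MP_42e384_co.Main

set_option autoImplicit false
open Pool Pool.MP_42e384_co

namespace Pool.Agent.S08394

/-- The negation of the preceding statement: For every finite matroid of rank at least 3 with n points and every k from 2 to rank−1, k(n−k)·W_k² ≥ (k+1)(n−k+1)·W_{k−1}·W_{k+1}, where W_j counts rank-j flats. -/
theorem result :
    ¬ (∀ (α : Type) (M : Matroid α), M.Finite →
      (3 : ℕ∞) ≤ M.eRank →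
      ∀ k : ℕ, 2 ≤ k → (((k + 1 : ℕ)) : ℕ∞) ≤ M.eRank →
        (k : ℚ) * (({F : Set α | M.IsFlat F ∧ M.eRk F = (1 : ℕ∞)}.ncard : ℚ) - k) *
            (({F : Set α | M.IsFlat F ∧ M.eRk F = ((k : ℕ) : ℕ∞)}.ncard : ℚ)) ^ 2 ≥
          ((k : ℚ) + 1) * (({F : Set α | M.IsFlat F ∧ M.eRk F = (1 : ℕ∞)}.ncard : ℚ) - k + 1) *
            ({F : Set α | M.IsFlat F ∧ M.eRk F = ((k - 1 : ℕ) : ℕ∞)}.ncard : ℚ) *
            ({F : Set α | M.IsFlat F ∧ M.eRk F = ((k + 1 : ℕ) : ℕ∞)}.ncard : ℚ)) := by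
  intro H
  obtain ⟨n, p, m, hn, hm, hr, h1, h3⟩ := Pool.Agent.Whitney.valley 1
  rw [one_mul] at h1 h3
  set s := Fintype.card (Pool.Agent.Whitney.Sx n p) with hs
  have hr3 : (3 : ℕ∞) ≤ (Pool.Agent.Whitney.Mx n p m).eRank := by
    refine le_trans ?_ hr
    have : 3 ≤ s + 3 := by omega
    exact_mod_cast this
  have key := H (Pool.Agent.Whitney.Gr n p m) (Pool.Agent.Whitney.Mx n p m)
    (Pool.Agent.Whitney.linMat_finite _) hr3 (s + 2) (by omega) (by exact_mod_cast hr)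
  have hW : ∀ j : ℕ, ({F : Set (Pool.Agent.Whitney.Gr n p m) |
      (Pool.Agent.Whitney.Mx n p m).IsFlat F ∧
      (Pool.Agent.Whitney.Mx n p m).eRk F = (j : ℕ∞)}.ncard : ℚ) =
      (Pool.Agent.Whitney.Wh (Pool.Agent.Whitney.Mx n p m) j : ℚ) := fun j => rfl
  have hW1 : ({F : Set (Pool.Agent.Whitney.Gr n p m) |
      (Pool.Agent.Whitney.Mx n p m).IsFlat F ∧
      (Pool.Agent.Whitney.Mx n p m).eRk F = (1 : ℕ∞)}.ncard : ℚ) =
      (Pool.Agent.Whitney.Wh (Pool.Agent.Whitney.Mx n p m) 1 : ℚ) := by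
    rw [← hW 1]; norm_num
  rw [hW1, hW, hW, hW] at key
  have e1 : s + 2 - 1 = s + 1 := by omega
  rw [e1] at key
  have hn1 := Pool.Agent.Whitney.Wh_one_ge n p m hm
  set a := Pool.Agent.Whitney.Wh (Pool.Agent.Whitney.Mx n p m) (s + 1)
  set b := Pool.Agent.Whitney.Wh (Pool.Agent.Whitney.Mx n p m) (s + 2)
  set c := Pool.Agent.Whitney.Wh (Pool.Agent.Whitney.Mx n p m) (s + 2 + 1)
  set w := Pool.Agent.Whitney.Wh (Pool.Agent.Whitney.Mx n p m) 1
  have hw : (s : ℚ) + 2 ≤ w := by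
    have : s + 2 ≤ w := by omega
    exact_mod_cast this
  have ha : (b : ℚ) + 1 ≤ a := by exact_mod_cast h1
  have hc : (b : ℚ) + 1 ≤ c := by exact_mod_cast h3
  have hb0 : (0 : ℚ) ≤ b := Nat.cast_nonneg b
  have hs0 : (0 : ℚ) ≤ s := Nat.cast_nonneg s
  push_cast at key
  have hbac : (b : ℚ) ^ 2 < a * c := by nlinarith
  have hco : ((s : ℚ) + 2) * (w - (s + 2)) < (s + 2 + 1) * (w - (s + 2) + 1) := by nlinarith
  have hco0 : 0 ≤ ((s : ℚ) + 2) * (w - (s + 2)) := by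
    apply mul_nonneg <;> linarith
  have hfin : ((s : ℚ) + 2) * (w - (s + 2)) * b ^ 2 < (s + 2 + 1) * (w - (s + 2) + 1) * (a * c) := by
    calc ((s : ℚ) + 2) * (w - (s + 2)) * b ^ 2 ≤ ((s : ℚ) + 2) * (w - (s + 2)) * (a * c) :=
          mul_le_mul_of_nonneg_left hbac.le hco0
      _ < (s + 2 + 1) * (w - (s + 2) + 1) * (a * c) := by
          apply mul_lt_mul_of_pos_right hco
          nlinarith
  nlinarith

end Pool.Agent.S08394
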