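import Pool.Statements.S09243
import Pool.Agent.Work.MP_66c627_co.FEnd
import Pool.Agent.Work.MP_66c627_co.FRed

set_option autoImplicit false
open Pool Pool.MP_66c627_co

namespace Pool.Agent.S09243

/-- For odd t > 1, every normalised ±1 2-cocycle on Z2×Z2×Zt whose cocyclic matrix M satisfies M·Mᵀ = 4t·I is non-symmetric, i.e. has nontrivial transgression component. -/
theorem result :
    ∀ (t : ℕ) [NeZero t], 1 < t → Odd t →
      ∀ ψ : (ZMod 2 × ZMod 2 × ZMod t) → (ZMod 2 × ZMod 2 × ZMod t) → ℤ,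
        (∀ g h, ψ g h = 1 ∨ ψ g h = -1) →
        ψ 0 0 = 1 →
        (∀ g h k, ψ g h * ψ (g + h) k = ψ g (h + k) * ψ h k) →
        Matrix.of ψ * Matrix.transpose (Matrix.of ψ) =
          (4 * (t : ℤ)) • (1 : Matrix (ZMod 2 × ZMod 2 × ZMod t) (ZMod 2 × ZMod 2 × ZMod t) ℤ) →
        ∃ g h, ψ g h ≠ ψ h g := by
  intro t _ ht ho ψ h1 h2 h3 h4
  by_contra hcon
  push Not at hcon
  obtain ⟨l, n, Y, W, w, hl, hY, hW, hw, hs⟩ :=
    Pool.MP_66c627_co.Full.prRed t ho ψ h1 h2 h3 h4 hcon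
  exact Pool.MP_66c627_co.Full.prFin Pool.MP_66c627_co.Full.prLoc t ht ho l n Y W w hl hY hW hw hs

end Pool.Agent.S09243
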