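import Pool.Statements.S09733
import Pool.Agent.Work.MP_7fa5ba_co.TowerCov

set_option autoImplicit false
open N8b55e67f
open Filter Topology Fintype
open scoped ENNReal Pointwise
open Pool Pool.MP_7fa5ba_co

namespace Pool.Agent.S09733

/-- liminf_{n→∞} of min over subspaces V ≤ F_2^n with V + HammingBall(n,2) = F_2^n of ∣V∣·∣H(2)∣/2^n equals 1 (in ℝ≥0∞) -/
theorem result :
    f 2 = 1 := by
  exact Pool.Agent.MP7fa5ba.f_two

end Pool.Agent.S09733
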