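import Pool.Statements.S10205
import Pool.Agent.Work.MP_947296_co.All

set_option autoImplicit false
open Pool Pool.MP_947296_co

namespace Pool.Agent.S10205

/-- For infinitely many n there are k and a tournament T on k vertices such that Maker, moving first, can claim a k-clique on K_n, yet Breaker can stop Maker (who orients her edges) from building a copy of T. -/
theorem result :
  ∀ N : ℕ, ∃ n : ℕ, N ≤ n ∧ ∃ k : ℕ,
    (∃ σ : (t : ℕ) → (Fin t → Fin n × Fin n) → Fin n × Fin n,
      ∀ b : ℕ → Fin n × Fin n,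
      ∃ f : Fin k → Fin n, Function.Injective f ∧ ∀ i j : Fin k, i ≠ j →
        ∃ t : ℕ,
          (σ t (fun s : Fin t => b s.val) = (f i, f j) ∨
            σ t (fun s : Fin t => b s.val) = (f j, f i)) ∧
          ∀ s : ℕ, s < t → (b s ≠ (f i, f j) ∧ b s ≠ (f j, f i))) ∧
    ∃ T : Fin k → Fin k → Prop, (∀ i, ¬ T i i) ∧ (∀ i j, i ≠ j → (T i j ↔ ¬ T j i)) ∧
      ¬ ∃ σ : (t : ℕ) → (Fin t → Fin n × Fin n) → Fin n × Fin n,
        ∀ b : ℕ → Fin n × Fin n,
        ∃ f : Fin k → Fin n, Function.Injective f ∧ ∀ i j : Fin k, T i j →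
          ∃ t : ℕ, σ t (fun s : Fin t => b s.val) = (f i, f j) ∧
            ∀ s : ℕ, s < t →
              (b s ≠ (f i, f j) ∧ b s ≠ (f j, f i) ∧
                σ s (fun r : Fin s => b r.val) ≠ (f i, f j) ∧
                σ s (fun r : Fin s => b r.val) ≠ (f j, f i)) := Pool.Agent.Work.MP_947296_co.all

end Pool.Agent.S10205
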