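import Pool.Statements.S10352
import Pool.Agent.Work.MP_9ad55e_co.Final

set_option autoImplicit false
open MeasureTheory
open Pool Pool.MP_9ad55e_co

namespace Pool.Agent.S10352

/-- The negation of the preceding statement: In every dimension, any covering of space by convex bodies of diameter at most 1 has lower asymptotic count-per-volume at least the infimum of that quantity over all coverings by balls of diameter 1. -/
theorem result :
    ¬ (∀ d : ℕ, 1 ≤ d → ∀ C : Set (Set (EuclideanSpace ℝ (Fin d))),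
    (∀ K ∈ C, IsCompact K ∧ Convex ℝ K ∧ (interior K).Nonempty ∧ Metric.diam K ≤ 1) →
    ⋃₀ C = Set.univ →
    (⨅ (B : Set (Set (EuclideanSpace ℝ (Fin d))))
        (_ : (∀ S ∈ B, ∃ x : EuclideanSpace ℝ (Fin d), S = Metric.closedBall x (1/2 : ℝ)) ∧
              ⋃₀ B = Set.univ),
      Filter.liminf
        (fun r : ℝ =>
          ((({S ∈ B | S ⊆ Metric.closedBall (0 : EuclideanSpace ℝ (Fin d)) r}.encard : ℕ∞) : ENNReal)) /
            volume (Metric.closedBall (0 : EuclideanSpace ℝ (Fin d)) r))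
        Filter.atTop)
    ≤ Filter.liminf
        (fun r : ℝ =>
          ((({K ∈ C | K ⊆ Metric.closedBall (0 : EuclideanSpace ℝ (Fin d)) r}.encard : ℕ∞) : ENNReal)) /
            volume (Metric.closedBall (0 : EuclideanSpace ℝ (Fin d)) r))
        Filter.atTop) := by
  intro H
  have h := H 2 (by norm_num) Agent.Work.MP_9ad55e_co.CC (by
    rintro K ⟨i, m, n, rfl⟩
    exact ⟨Agent.Work.MP_9ad55e_co.cell_compact i m n, convex_convexHull ℝ _,
      Agent.Work.MP_9ad55e_co.cell_interior i m n, Agent.Work.MP_9ad55e_co.cell_diam i m n⟩) (by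
    rw [Set.sUnion_eq_univ_iff]
    intro x
    obtain ⟨i, m, n, hx⟩ := Agent.Work.MP_9ad55e_co.cover_plane x
    exact ⟨_, ⟨i, m, n, rfl⟩, hx⟩)
  have h1 : ENNReal.ofReal (8 / (3 * √3)) ≤
      (⨅ (B : Set (Set (EuclideanSpace ℝ (Fin 2))))
        (_ : (∀ S ∈ B, ∃ x : EuclideanSpace ℝ (Fin 2), S = Metric.closedBall x (1/2 : ℝ)) ∧
              ⋃₀ B = Set.univ),
      Filter.liminf
        (fun r : ℝ =>
          ((({S ∈ B | S ⊆ Metric.closedBall (0 : EuclideanSpace ℝ (Fin 2)) r}.encard : ℕ∞) : ENNReal)) /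
            volume (Metric.closedBall (0 : EuclideanSpace ℝ (Fin 2)) r))
        Filter.atTop) := by
    refine le_iInf fun B => le_iInf fun hB => ?_
    exact Agent.Work.MP_9ad55e_co.liminf_balls hB.1 hB.2
  have h2 := (h1.trans h).trans Agent.Work.MP_9ad55e_co.liminf_CC
  exact absurd h2 (not_le.2 Agent.Work.MP_9ad55e_co.numeric)

end Pool.Agent.S10352
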