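import Pool.Statements.S10663
import Pool.Agent.Work.MP_a8f287_co.C3.Main5
import Pool.Agent.Work.MP_a8f287_co.Frozen

set_option autoImplicit false
open Pool Pool.MP_a8f287_co

namespace Pool.Agent.S10663

/-- For every set S of nonzero vectors over GF(2) whose vector matroid has no contraction-deletion minor isomorphic to the cycle matroid of K5, some linear map to GF(2)^3 is nonzero on all of S, i.e. the critical exponent is at most 3. -/
theorem result :
    ∀ (n : ℕ) (S : Set (Fin n → ZMod 2)), (0 : Fin n → ZMod 2) ∉ S →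
      (¬ ∃ (C : Set (Fin n → ZMod 2))
          (h : (⊤ : SimpleGraph (Fin 5)).edgeSet → (Fin n → ZMod 2)),
          C ⊆ S ∧ Function.Injective h ∧ (∀ e, h e ∈ S \ C) ∧
          ∀ F : Set (⊤ : SimpleGraph (Fin 5)).edgeSet,
            (LinearIndependent (ZMod 2)
                (fun e : F => (Submodule.span (ZMod 2) C).mkQ (h e.1)) ↔
              (SimpleGraph.fromEdgeSet (Subtype.val '' F)).IsAcyclic)) →
      ∃ f : (Fin n → ZMod 2) →ₗ[ZMod 2] (Fin 3 → ZMod 2), ∀ v ∈ S, f v ≠ 0 := by
  intro n S h0 hfree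
  classical
  have hK : ¬ Pool.Agent.WW.HasK5 S := fun h => hfree (Pool.Agent.WW.frozen_of_hasK5 S h)
  have hfin : S.Finite := Set.toFinite S
  have hc : ((hfin.toFinset : Finset (Fin n → ZMod 2)) : Set (Fin n → ZMod 2)) = S :=
    hfin.coe_toFinset
  obtain ⟨f, hf⟩ := Pool.Agent.WW.crit_three hfin.toFinset
    (fun h => h0 (hfin.mem_toFinset.1 h)) (by rw [hc]; exact hK)
  exact ⟨f, fun v hv => hf v (hfin.mem_toFinset.2 hv)⟩

end Pool.Agent.S10663
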