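import Pool.Statements.S11286

set_option autoImplicit false
open Pool Pool.MP_c40d78_co

namespace Pool.Agent.S11286

/-- The coordinates of the six points: a big isosceles triangle in the plane of the first two
coordinates and a small similar one in the plane of the last two coordinates, both inscribed in
circles centred at the origin. -/
noncomputable def pt : Fin 6 → EuclideanSpace ℝ (Fin 4) :=
  ![!₂[3, 4, 0, 0], !₂[3, -4, 0, 0], !₂[-5, 0, 0, 0],
    !₂[0, 0, 3/10, 4/10], !₂[0, 0, 3/10, -(4/10)], !₂[0, 0, -(5/10), 0]]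

/-- The matching. -/
def sg : Equiv.Perm (Fin 6) :=
  ⟨![3, 4, 5, 0, 1, 2], ![3, 4, 5, 0, 1, 2], by decide, by decide⟩

/-- The length of every edge of the matching. -/
noncomputable def L : ℝ := √(25 + 1/4)

/-- Node potentials. -/
noncomputable def w : Fin 6 → ℝ := ![9/2, 9/2, 9/2, L - 9/2, L - 9/2, L - 9/2]

lemma L_ge : 5 ≤ L := by
  unfold L
  apply Real.le_sqrt_of_sq_le
  norm_num

lemma L_sq : L ^ 2 = 25 + 1/4 := by
  unfold L
  rw [Real.sq_sqrt]
  norm_num

lemma dist_le (i j : Fin 6) (c : ℝ) (hc : 0 ≤ c)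
    (h : ∑ k, (pt i k - pt j k) ^ 2 ≤ c ^ 2) : dist (pt i) (pt j) ≤ c := by
  rw [EuclideanSpace.dist_eq]
  apply Real.sqrt_le_iff.2
  refine ⟨hc, ?_⟩
  simpa [Real.dist_eq, sq_abs] using h

lemma dist_sq (i j : Fin 6) : dist (pt i) (pt j) ^ 2 = ∑ k, (pt i k - pt j k) ^ 2 := by
  rw [EuclideanSpace.dist_eq, Real.sq_sqrt]
  · simp [Real.dist_eq, sq_abs]
  · positivity

lemma dist_le_w (i j : Fin 6) : dist (pt i) (pt j) ≤ w i + w j := by
  have h5 := L_ge
  have hL := L_sq
  apply dist_le
  · fin_cases i <;> fin_cases j <;> simp [w] <;> linarith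
  · fin_cases i <;> fin_cases j <;> simp [w, pt, Fin.sum_univ_four] <;> nlinarith

lemma dist_sg (i : Fin 6) : dist (pt i) (pt (sg i)) = L := by
  have h5 := L_ge
  have hL := L_sq
  have h : dist (pt i) (pt (sg i)) ^ 2 = L ^ 2 := by
    rw [dist_sq, hL]
    fin_cases i <;> simp [sg, pt, Fin.sum_univ_four] <;> norm_num
  exact (pow_left_inj₀ dist_nonneg (by linarith) (by norm_num)).1 h

lemma pt_inj : Function.Injective pt := by
  intro i j hij
  by_contra hne
  have h : ∀ k, pt i k = pt j k := fun k => by rw [hij]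
  have h0 := h 0
  have h1 := h 1
  have h2 := h 2
  have h3 := h 3
  revert h0 h1 h2 h3 hne
  clear h hij
  fin_cases i <;> fin_cases j <;> simp [pt] <;> norm_num

lemma no_common (x : EuclideanSpace ℝ (Fin 4))
    (h : ∀ i, dist x (midpoint ℝ (pt i) (pt (sg i))) < dist (pt i) (pt (sg i)) / 2) : False := by
  have hL := L_sq
  have h5 := L_ge
  have key : ∀ i, ∑ k, (x k - (pt i k + pt (sg i) k) / 2) ^ 2 < L ^ 2 / 4 := by
    intro i
    have hi := h i
    rw [dist_sg i] at hi
    have hi2 : dist x (midpoint ℝ (pt i) (pt (sg i))) ^ 2 < (L / 2) ^ 2 :=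
      pow_lt_pow_left₀ hi dist_nonneg (by norm_num)
    rw [EuclideanSpace.dist_eq, Real.sq_sqrt (by positivity)] at hi2
    have e : ∀ k, (midpoint ℝ (pt i) (pt (sg i))) k = (pt i k + pt (sg i) k) / 2 := by
      intro k
      rw [midpoint_eq_smul_add]
      simp
      ring
    simp only [Real.dist_eq, sq_abs, e] at hi2
    calc _ < (L / 2) ^ 2 := hi2
      _ = L ^ 2 / 4 := by ring
  have k0 := key 0
  have k1 := key 1
  have k2 := key 2
  rw [hL] at k0 k1 k2
  simp [sg, pt, Fin.sum_univ_four] at k0 k1 k2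
  nlinarith [sq_nonneg (x 0), sq_nonneg (x 1), sq_nonneg (x 2), sq_nonneg (x 3)]

/-- The negation of the preceding statement: For any dimension d and any 2n distinct points in R^d, every perfect matching maximizing the total Euclidean length of its edges has a point lying in all open balls whose diameters are the matched edges. -/
theorem result :
    ¬ (∀ (d n : ℕ) (p : Fin (2 * n) → EuclideanSpace ℝ (Fin d)), Function.Injective p →
      ∀ σ : Equiv.Perm (Fin (2 * n)), (∀ i, σ (σ i) = i) → (∀ i, σ i ≠ i) →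
        (∀ τ : Equiv.Perm (Fin (2 * n)), (∀ i, τ (τ i) = i) → (∀ i, τ i ≠ i) →
          ∑ i, dist (p i) (p (τ i)) ≤ ∑ i, dist (p i) (p (σ i))) →
        ∃ x : EuclideanSpace ℝ (Fin d), ∀ i,
          dist x (midpoint ℝ (p i) (p (σ i))) < dist (p i) (p (σ i)) / 2) := by
  intro H
  obtain ⟨x, hx⟩ := H 4 3 pt pt_inj sg (by decide) (by decide) (by
    intro τ _ _
    have h1 : ∑ i, dist (pt i) (pt (τ i)) ≤ ∑ i, (w i + w (τ i)) :=
      Finset.sum_le_sum fun i _ => dist_le_w i (τ i)
    have h2 : ∑ i, (w i + w (τ i)) = 6 * L := by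
      rw [Finset.sum_add_distrib, Equiv.sum_comp τ w]
      simp [w, Fin.sum_univ_six]
      ring
    have h3 : ∑ i, dist (pt i) (pt (sg i)) = 6 * L := by
      simp [dist_sg]
    exact (h1.trans h2.le).trans h3.ge)
  exact no_common x hx

end Pool.Agent.S11286
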