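import Pool.Statements.S12845
import Pool.Agent.Work.MP_1c91cf_gt.Final

set_option autoImplicit false
open Pool Pool.MP_1c91cf_gt

namespace Pool.Agent.S12845

/-- In hyperbolic n-space (Klein ball), n even ≥ 4, any integer simplicial cycle whose vertices move continuously while every edge length stays fixed has constant generalised oriented volume (signed sum of geodesic cone volumes). -/
theorem result :
  ∀ (k m : ℕ), Odd k → 3 ≤ k →
  ∀ (c : (Fin (k+1) → Fin m) → ℤ),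
  (∀ f : (Fin k → Fin m) → ℤ,
      (∀ (τ : Fin k → Fin m) (π : Equiv.Perm (Fin k)),
          f (τ ∘ ⇑π) = ((Equiv.Perm.sign π : ℤˣ) : ℤ) * f τ) →
      ∑ σ : Fin (k+1) → Fin m,
          c σ * ∑ i : Fin (k+1), (-1 : ℤ) ^ (i : ℕ) * f (σ ∘ Fin.succAbove i) = 0) →
  ∀ p : ℝ → Fin m → (Fin (k+1) → ℝ), Continuous p →
  (∀ (t : ℝ) (v : Fin m), ∑ j, (p t v j) ^ 2 < 1) →
  (∀ σ : Fin (k+1) → Fin m, c σ ≠ 0 → ∀ (a b : Fin (k+1)) (s t : ℝ),
      (1 - ∑ j, p s (σ a) j * p s (σ b) j) ^ 2 /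
          ((1 - ∑ j, (p s (σ a) j) ^ 2) * (1 - ∑ j, (p s (σ b) j) ^ 2)) =
      (1 - ∑ j, p t (σ a) j * p t (σ b) j) ^ 2 /
          ((1 - ∑ j, (p t (σ a) j) ^ 2) * (1 - ∑ j, (p t (σ b) j) ^ 2))) →
  ∀ s t : ℝ,
    ∑ σ : Fin (k+1) → Fin m, (c σ : ℝ) *
        Real.sign (Matrix.det (Matrix.of (fun i j => p s (σ i) j))) *
        ((MeasureTheory.Measure.withDensity MeasureTheory.volume
            (fun x : Fin (k+1) → ℝ =>
              ENNReal.ofReal ((1 - ∑ j, (x j) ^ 2) ^ (-((k : ℝ) + 2) / 2))))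
          (convexHull ℝ (insert 0 (Set.range (fun i => p s (σ i)))))).toReal
    =
    ∑ σ : Fin (k+1) → Fin m, (c σ : ℝ) *
        Real.sign (Matrix.det (Matrix.of (fun i j => p t (σ i) j))) *
        ((MeasureTheory.Measure.withDensity MeasureTheory.volume
            (fun x : Fin (k+1) → ℝ =>
              ENNReal.ofReal ((1 - ∑ j, (x j) ^ 2) ^ (-((k : ℝ) + 2) / 2))))
          (convexHull ℝ (insert 0 (Set.range (fun i => p t (σ i)))))).toReal := by
  intro k m _ hk c hc p hp hb hedge s t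
  obtain ⟨q, rfl⟩ : ∃ q, k = q + 1 := ⟨k - 1, by omega⟩
  exact Pool.Agent.Work.MP_1c91cf_gt.bellows (by omega) c hc p hp hb hedge s t

end Pool.Agent.S12845
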