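import Pool.Statements.S12865
import Pool.Agent.Work.MP_1ef410_gt.Apc

set_option autoImplicit false
open Pool Pool.MP_1ef410_gt

namespace Pool.Agent.S12865

open Relation Pool.Agent.Work.MP_1ef410_gt

lemma exists_lab {H : Type} (A : Set H) (hA : A.Finite) :
    ∃ g : H → ℕ, Set.InjOn g A ∧ ∀ k ∈ A, g k < A.ncard := by
  classical
  let e := hA.toFinset.equivFin
  refine ⟨fun k => if h : k ∈ hA.toFinset then (e ⟨k, h⟩ : ℕ) else 0, ?_, ?_⟩
  · intro k hk k' hk' h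
    have h1 : k ∈ hA.toFinset := hA.mem_toFinset.mpr hk
    have h2 : k' ∈ hA.toFinset := hA.mem_toFinset.mpr hk'
    simp only [dif_pos h1, dif_pos h2] at h
    have h3 := e.injective (Fin.ext h)
    exact congrArg Subtype.val h3
  · intro k hk
    have h1 : k ∈ hA.toFinset := hA.mem_toFinset.mpr hk
    simp only [dif_pos h1]
    rw [Set.ncard_eq_toFinset_card A hA]
    exact (e ⟨k, h1⟩).2

lemma base_apc {N H : Type} [Group N] [Group H] (φ : H →* MulAut N)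
    (d : (N ⋊[φ] H) → (N ⋊[φ] H) → ℝ)
    (dinv : ∀ g x y, d (g * x) (g * y) = d x y)
    (dprop : ∀ r : ℝ, {x : N ⋊[φ] H | d 1 x ≤ r}.Finite)
    (hH : ∀ R : ℕ → ℝ, ∃ n : ℕ, ∃ U : ℕ → Set (Set H), ∃ B : ℝ,
          (∀ i < n, ∀ A ∈ U i, ∀ x ∈ A, ∀ y ∈ A,
            d (SemidirectProduct.inr x) (SemidirectProduct.inr y) ≤ B) ∧
          (∀ i < n, ∀ A ∈ U i, ∀ A' ∈ U i, A ≠ A' → ∀ x ∈ A, ∀ y ∈ A',
            R i < d (SemidirectProduct.inr x) (SemidirectProduct.inr y)) ∧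
          (∀ x : H, ∃ i < n, ∃ A ∈ U i, x ∈ A)) :
    BaseAPC (fun (r : ℕ) (a b : N ⋊[φ] H) => d a b ≤ (r : ℝ)) (fun x => x.right) := by
  intro R
  have hs : ∀ c : ℕ, ∃ s : ℝ, ∀ g : N ⋊[φ] H, d 1 g ≤ (R c : ℝ) →
      d 1 (SemidirectProduct.inr g.right) ≤ s := by
    intro c
    obtain ⟨s, hs⟩ := ((dprop (R c)).image
      (fun g => d 1 (SemidirectProduct.inr g.right))).bddAbove
    exact ⟨s, fun g hg => hs ⟨g, hg, rfl⟩⟩
  choose s hs using hs
  obtain ⟨n, U, B, hB, hsep, hcov⟩ := hH s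
  choose col hcol A hA hkA using hcov
  have hd1 : ∀ x y : H, d (SemidirectProduct.inr x) (SemidirectProduct.inr y) =
      d 1 (SemidirectProduct.inr (x⁻¹ * y)) := by
    intro x y
    have := dinv (SemidirectProduct.inr x) 1 (SemidirectProduct.inr (x⁻¹ * y))
    rw [mul_one, ← map_mul, mul_inv_cancel_left] at this
    exact this
  have hballfin : {x : H | d 1 (SemidirectProduct.inr x) ≤ B}.Finite := by
    refine Set.Finite.preimage (f := (SemidirectProduct.inr : H →* N ⋊[φ] H))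
      (SemidirectProduct.inr_injective.injOn) (dprop B)
  have hsub : ∀ k, A k ⊆ (fun x => k * x) '' {x : H | d 1 (SemidirectProduct.inr x) ≤ B} := by
    intro k y hy
    refine ⟨k⁻¹ * y, ?_, by simp⟩
    have := hB (col k) (hcol k) (A k) (hA k) k (hkA k) y hy
    rw [hd1] at this
    exact this
  have hfin : ∀ k, (A k).Finite := fun k => (hballfin.image _).subset (hsub k)
  have hcard : ∀ k, (A k).ncard ≤ {x : H | d 1 (SemidirectProduct.inr x) ≤ B}.ncard := by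
    intro k
    calc (A k).ncard ≤ ((fun x => k * x) '' {x : H | d 1 (SemidirectProduct.inr x) ≤ B}).ncard :=
          Set.ncard_le_ncard (hsub k) (hballfin.image _)
      _ ≤ _ := Set.ncard_image_le hballfin
  choose g hg1 hg2 using (exists_lab (H := H))
  have hgc : ∀ (A A' : Set H) (h : A = A') (hf : A.Finite) (hf' : A'.Finite),
      g A hf = g A' hf' := by
    rintro A _ rfl _ _
    rfl
  refine ⟨n, {x : H | d 1 (SemidirectProduct.inr x) ≤ B}.ncard, col,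
    fun k => g (A k) (hfin k) k, A, hcol, ?_, ?_, ?_⟩
  · intro k
    exact lt_of_lt_of_le (hg2 (A k) (hfin k) k (hkA k)) (hcard k)
  · intro k k' _ hAk hlab
    have h1 := hg1 (A k) (hfin k)
    refine h1 (hkA k) (by rw [hAk]; exact hkA k') ?_
    simp only at hlab
    rw [hlab, hgc (A k) (A k') hAk (hfin k) (hfin k')]
  · intro x y hc hxy
    by_contra hne
    have h1 := hsep (col x.right) (hcol _) (A x.right) (hA _) (A y.right)
      (by rw [hc]; exact hA _) hne x.right (hkA _) y.right (hkA _)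
    rw [hd1] at h1
    have h2 : d 1 (x⁻¹ * y) = d x y := by
      have := dinv x 1 (x⁻¹ * y)
      rw [mul_one, mul_inv_cancel_left] at this
      exact this.symm
    have h3 := hs (col x.right) (x⁻¹ * y) (by rw [h2]; exact hxy)
    have h4 : (x⁻¹ * y).right = x.right⁻¹ * y.right := by
      simp
    rw [h4] at h3
    exact absurd h3 (not_le.mpr h1)

lemma fib_apc {N H : Type} [Group N] [Group H] (φ : H →* MulAut N)
    (d : (N ⋊[φ] H) → (N ⋊[φ] H) → ℝ)
    (dinv : ∀ g x y, d (g * x) (g * y) = d x y)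
    (hN : ∀ R : ℕ → ℝ, ∃ n : ℕ, ∃ U : ℕ → Set (Set N), ∃ B : ℝ,
          (∀ i < n, ∀ A ∈ U i, ∀ x ∈ A, ∀ y ∈ A,
            d (SemidirectProduct.inl x) (SemidirectProduct.inl y) ≤ B) ∧
          (∀ i < n, ∀ A ∈ U i, ∀ A' ∈ U i, A ≠ A' → ∀ x ∈ A, ∀ y ∈ A',
            R i < d (SemidirectProduct.inl x) (SemidirectProduct.inl y)) ∧
          (∀ x : N, ∃ i < n, ∃ A ∈ U i, x ∈ A)) (p : ℕ → ℕ) :
    ∃ m D : ℕ, Cov (fun (r : ℕ) (a b : N ⋊[φ] H) => d a b ≤ (r : ℝ)) (fun x => x.right)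
      (rl p m) Set.univ D := by
  obtain ⟨m, U, B, hB, hsep, hcov⟩ := hN (fun j => (p j : ℝ))
  have hiso : ∀ x y : N ⋊[φ] H, x.right = y.right → d x y =
      d (SemidirectProduct.inl (φ x.right⁻¹ x.left))
        (SemidirectProduct.inl (φ y.right⁻¹ y.left)) := by
    intro x y hxy
    have h1 : ∀ z : N ⋊[φ] H, z = SemidirectProduct.inr z.right *
        SemidirectProduct.inl (φ z.right⁻¹ z.left) := by
      intro z
      apply SemidirectProduct.ext
      · simp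
      · simp
    conv_lhs => rw [h1 x, h1 y, hxy]
    rw [dinv, hxy]
  refine ⟨m, ⌈B⌉₊, ?_⟩
  refine cov_of_families _ p (fun j => {x | ∃ A ∈ U j, φ x.right⁻¹ x.left ∈ A}) _ m ?_ _ ?_
  · rintro i hi a ⟨A, hA, haA⟩ b hab
    have h1 := (rtg_inv (R' := fun _ _ => True) (fun b => b.right = a.right ∧
      φ b.right⁻¹ b.left ∈ A) ?_ ⟨rfl, haA⟩ hab).2
    · have h2 := hB i hi A hA _ haA _ h1.2
      change d a b ≤ _
      rw [hiso a b h1.1.symm]
      exact h2.trans (Nat.le_ceil B)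
    · rintro x y ⟨hx1, hx2⟩ ⟨-, ⟨A', hA', hyA'⟩, hxy, hE⟩
      have hxy' : x.right = y.right := hxy
      refine ⟨trivial, hxy'.symm.trans hx1, ?_⟩
      by_cases hAA : A = A'
      · rw [hAA]; exact hyA'
      · exfalso
        have h3 := hsep i hi A hA A' hA' hAA _ hx2 _ hyA'
        rw [← hiso x y hxy] at h3
        exact absurd hE (not_le.mpr h3)
  · intro x _
    obtain ⟨i, hi, A, hA, hx⟩ := hcov (φ x.right⁻¹ x.left)
    exact ⟨i, hi, A, hA, hx⟩

/-- For countable groups N, H and any action of H on N by automorphisms, if N and H have asymptotic property C for every proper left-invariant metric, then so does the semidirect product N ⋊ H. -/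
theorem result :
    ∀ (N H : Type) [Group N] [Group H] [Countable N] [Countable H] (φ : H →* MulAut N),
      (∀ d : N → N → ℝ,
        ((∀ x y, d x y = 0 ↔ x = y) ∧ (∀ x y, d x y = d y x) ∧
          (∀ x y z, d x z ≤ d x y + d y z) ∧ (∀ g x y, d (g * x) (g * y) = d x y) ∧
          (∀ r : ℝ, {x : N | d 1 x ≤ r}.Finite)) →
        ∀ R : ℕ → ℝ, ∃ n : ℕ, ∃ U : ℕ → Set (Set N), ∃ B : ℝ,
          (∀ i < n, ∀ A ∈ U i, ∀ x ∈ A, ∀ y ∈ A, d x y ≤ B) ∧
          (∀ i < n, ∀ A ∈ U i, ∀ A' ∈ U i, A ≠ A' → ∀ x ∈ A, ∀ y ∈ A', R i < d x y) ∧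
          (∀ x : N, ∃ i < n, ∃ A ∈ U i, x ∈ A)) →
      (∀ d : H → H → ℝ,
        ((∀ x y, d x y = 0 ↔ x = y) ∧ (∀ x y, d x y = d y x) ∧
          (∀ x y z, d x z ≤ d x y + d y z) ∧ (∀ g x y, d (g * x) (g * y) = d x y) ∧
          (∀ r : ℝ, {x : H | d 1 x ≤ r}.Finite)) →
        ∀ R : ℕ → ℝ, ∃ n : ℕ, ∃ U : ℕ → Set (Set H), ∃ B : ℝ,
          (∀ i < n, ∀ A ∈ U i, ∀ x ∈ A, ∀ y ∈ A, d x y ≤ B) ∧
          (∀ i < n, ∀ A ∈ U i, ∀ A' ∈ U i, A ≠ A' → ∀ x ∈ A, ∀ y ∈ A', R i < d x y) ∧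
          (∀ x : H, ∃ i < n, ∃ A ∈ U i, x ∈ A)) →
      (∀ d : (N ⋊[φ] H) → (N ⋊[φ] H) → ℝ,
        ((∀ x y, d x y = 0 ↔ x = y) ∧ (∀ x y, d x y = d y x) ∧
          (∀ x y z, d x z ≤ d x y + d y z) ∧ (∀ g x y, d (g * x) (g * y) = d x y) ∧
          (∀ r : ℝ, {x : N ⋊[φ] H | d 1 x ≤ r}.Finite)) →
        ∀ R : ℕ → ℝ, ∃ n : ℕ, ∃ U : ℕ → Set (Set (N ⋊[φ] H)), ∃ B : ℝ,
          (∀ i < n, ∀ A ∈ U i, ∀ x ∈ A, ∀ y ∈ A, d x y ≤ B) ∧
          (∀ i < n, ∀ A ∈ U i, ∀ A' ∈ U i, A ≠ A' → ∀ x ∈ A, ∀ y ∈ A', R i < d x y) ∧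
          (∀ x : N ⋊[φ] H, ∃ i < n, ∃ A ∈ U i, x ∈ A)) := by
  intro N H _ _ _ _ φ hN hH d hd R
  obtain ⟨d0, dsymm, dtri, dinv, dprop⟩ := hd
  have hN' := hN (fun x y => d (SemidirectProduct.inl x) (SemidirectProduct.inl y)) ⟨
    fun x y => by rw [d0]; exact SemidirectProduct.inl_inj,
    fun x y => dsymm _ _, fun x y z => dtri _ _ _,
    fun g x y => by simp only [map_mul, dinv],
    fun r => by
      simp only [map_one]
      exact Set.Finite.preimage (f := (SemidirectProduct.inl : N →* N ⋊[φ] H))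
        (SemidirectProduct.inl_injective.injOn) (dprop r)⟩
  have hH' := hH (fun x y => d (SemidirectProduct.inr x) (SemidirectProduct.inr y)) ⟨
    fun x y => by rw [d0]; exact SemidirectProduct.inr_inj,
    fun x y => dsymm _ _, fun x y z => dtri _ _ _,
    fun g x y => by simp only [map_mul, dinv],
    fun r => by
      simp only [map_one]
      exact Set.Finite.preimage (f := (SemidirectProduct.inr : H →* N ⋊[φ] H))
        (SemidirectProduct.inr_injective.injOn) (dprop r)⟩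
  have hE : Coarse (fun (r : ℕ) (a b : N ⋊[φ] H) => d a b ≤ (r : ℝ)) := by
    refine ⟨fun a => ?_, fun r a b h => ?_, fun r s a b c h1 h2 => ?_, fun r s a b h1 h2 => ?_⟩
    · simp [(d0 a a).mpr rfl]
    · rw [dsymm]; exact h
    · push_cast
      exact (dtri a b c).trans (add_le_add h1 h2)
    · exact h2.trans (by exact_mod_cast h1)
  have hclaim := abstract_main hE (fun x => x.right) (base_apc φ d dinv dprop hH')
    (fib_apc φ d dinv hN')
  obtain ⟨m, D, Bf, W, hW, hWe, hcov⟩ := hclaim (fun i => ⌈R i⌉₊)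
  have hsym : ∀ i u v, St (fun (r : ℕ) (a b : N ⋊[φ] H) =>
      d a b ≤ (r : ℝ)) (fun _ => ()) (W i) ⌈R i⌉₊ u v → St (fun (r : ℕ) (a b : N ⋊[φ] H) =>
      d a b ≤ (r : ℝ)) (fun _ => ()) (W i) ⌈R i⌉₊ v u := by
    rintro i u v ⟨h1, h2, h3, h4⟩
    refine ⟨h2, h1, h3.symm, ?_⟩
    change d v u ≤ _
    rw [dsymm]
    exact h4
  have hmem : ∀ i a x, a ∈ W i → ReflTransGen (St (fun (r : ℕ) (a b : N ⋊[φ] H) =>
      d a b ≤ (r : ℝ)) (fun _ => ()) (W i) ⌈R i⌉₊) a x → x ∈ W i := by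
    intro i a x ha hx
    exact (rtg_inv (R' := fun _ _ => True) (fun b => b ∈ W i)
      (fun u v _ h => ⟨trivial, h.2.1⟩) ha hx).2
  refine ⟨m, fun i => {A | ∃ a ∈ W i, A = {b | ReflTransGen (St (fun (r : ℕ) (a b : N ⋊[φ] H) =>
    d a b ≤ (r : ℝ)) (fun _ => ()) (W i) ⌈R i⌉₊) a b}}, ((∑ i ∈ Finset.range m, Bf i : ℕ) : ℝ),
    ?_, ?_, ?_⟩
  · rintro i hi A ⟨a, ha, rfl⟩ x hx y hy
    have hxa := rtg_symm (hsym i) hx
    have h1 : d x y ≤ (Bf i : ℝ) := hW i x (hmem i a x ha hx) y (hxa.trans hy)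
    refine h1.trans ?_
    exact_mod_cast Finset.single_le_sum (f := Bf) (fun _ _ => Nat.zero_le _)
      (Finset.mem_range.mpr hi)
  · rintro i hi A ⟨a, ha, rfl⟩ A' ⟨a', ha', rfl⟩ hne x hx y hy
    by_contra hcon
    push Not at hcon
    apply hne
    have hstep : ReflTransGen (St (fun (r : ℕ) (a b : N ⋊[φ] H) =>
        d a b ≤ (r : ℝ)) (fun _ => ()) (W i) ⌈R i⌉₊) x y :=
      ReflTransGen.single ⟨hmem i a x ha hx, hmem i a' y ha' hy, rfl,
        hcon.trans (Nat.le_ceil (R i))⟩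
    have haa' := (hx.trans hstep).trans (rtg_symm (hsym i) hy)
    ext b
    exact ⟨fun h => (rtg_symm (hsym i) haa').trans h, fun h => haa'.trans h⟩
  · intro x
    have hx : ∃ i, x ∈ W i := by
      by_contra hno
      push Not at hno
      have : x ∈ ({x | ∀ i, x ∉ W i} : Set (N ⋊[φ] H)) := hno
      rw [show ({x | ∀ i, x ∉ W i} : Set (N ⋊[φ] H)) = ∅ from hcov] at this
      exact this
    obtain ⟨i, hi⟩ := hx
    have him : i < m := by
      by_contra h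
      rw [hWe i (not_lt.mp h)] at hi
      exact hi
    exact ⟨i, him, _, ⟨x, hi, rfl⟩, ReflTransGen.refl⟩

end Pool.Agent.S12865
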