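import Pool.Statements.S13147
import Pool.Agent.Work.MP_4ec80c_gt.Norm
import Pool.Agent.Work.MP_4ec80c_gt.ItemE

set_option autoImplicit false
open scoped Manifold
open Pool Pool.MP_4ec80c_gt

namespace Pool.Agent.S13147

/-- Every orientation-preserving smooth diffeomorphism f of the circle equals g∘h∘g⁻¹∘h⁻¹ for some orientation-preserving smooth circle diffeomorphisms g and h. Orientation-preserving means having a continuous strictly increasing lift to the real line. -/
theorem result :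
    ∀ f : Diffeomorph (𝓡 1) (𝓡 1) Circle Circle ((⊤ : ℕ∞) : WithTop ℕ∞),
      (∃ F : ℝ → ℝ, Continuous F ∧ StrictMono F ∧ ∀ x : ℝ, f (Circle.exp x) = Circle.exp (F x)) →
      ∃ g h : Diffeomorph (𝓡 1) (𝓡 1) Circle Circle ((⊤ : ℕ∞) : WithTop ℕ∞),
        (∃ G : ℝ → ℝ, Continuous G ∧ StrictMono G ∧ ∀ x : ℝ, g (Circle.exp x) = Circle.exp (G x)) ∧
        (∃ H : ℝ → ℝ, Continuous H ∧ StrictMono H ∧ ∀ x : ℝ, h (Circle.exp x) = Circle.exp (H x)) ∧
        ∀ z : Circle, f z = g (h (g.symm (h.symm z))) := by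
  exact W4ec.circle_reduction W4ec.main_line

end Pool.Agent.S13147
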