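import Pool.Statements.S13445
import Pool.Agent.Work.MP_7dea6f_gt.Main

set_option autoImplicit false
open Pool Pool.MP_7dea6f_gt

namespace Pool.Agent.S13445

/-- For every homogeneous one-dimensional metric continuum X, if the group of homotopy classes of maps X to the circle (= first Čech cohomology with integer coefficients) has finite rank, then that rank is at most 1. -/
theorem result :
    ∀ (X : Type) [TopologicalSpace X] [CompactSpace X] [ConnectedSpace X]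
      [TopologicalSpace.MetrizableSpace X] [Nontrivial X],
      (∀ (n : ℕ) (U : Fin n → Set X), (∀ i, IsOpen (U i)) → (⋃ i, U i) = Set.univ →
        ∃ (m : ℕ) (V : Fin m → Set X), (∀ j, IsOpen (V j)) ∧ (⋃ j, V j) = Set.univ ∧
          (∀ j, ∃ i, V j ⊆ U i) ∧
          ∀ (x : X) (j₁ j₂ j₃ : Fin m), x ∈ V j₁ → x ∈ V j₂ → x ∈ V j₃ →
            j₁ = j₂ ∨ j₁ = j₃ ∨ j₂ = j₃) →
      (∀ x y : X, ∃ h : X ≃ₜ X, h x = y) →
      (∃ m : ℕ, ∀ g : Fin (m + 1) → C(X, Circle), ∃ k : Fin (m + 1) → ℤ, k ≠ 0 ∧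
        ∃ f : C(X, ℝ), ∀ x : X,
          (((∏ i, (g i x) ^ (k i) : Circle)) : ℂ) = Complex.exp ((f x : ℂ) * Complex.I)) →
      ∀ g₁ g₂ : C(X, Circle), ∃ a b : ℤ, (a ≠ 0 ∨ b ≠ 0) ∧
        ∃ f : C(X, ℝ), ∀ x : X,
          ((((g₁ x) ^ a * (g₂ x) ^ b : Circle)) : ℂ) = Complex.exp ((f x : ℂ) * Complex.I) := by
  intro X _ _ _ _ _ hdim hhom hfin g₁ g₂
  letI : MetricSpace X := TopologicalSpace.metrizableSpaceMetric X
  obtain ⟨m, hm⟩ := hfin
  have h := Pool.Agent.Work.MP_7dea6f_gt.main (X := X) hdim hhom hm g₁ g₂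
  unfold Pool.Agent.Work.MP_7dea6f_gt.Indep at h
  push Not at h
  exact h

end Pool.Agent.S13445
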