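import Pool.Statements.S13694
import Pool.Agent.Work.MP_a33cdf_gt.Density

set_option autoImplicit false
open Pool Pool.MP_a33cdf_gt

namespace Pool.Agent.S13694

/-- The negation of the preceding statement: For every Tychonoff space X and cardinal τ: if every closed subspace of X has a dense subset of size at most τ, then every subspace of X has a dense subset of size at most τ. -/
theorem result :
    ¬ (∀ (X : Type) [TopologicalSpace X] [T35Space X] (τ : Cardinal.{0}),
      (∀ Y : Set X, IsClosed Y → ∃ D ⊆ Y, Y ⊆ closure D ∧ Cardinal.mk ↥D ≤ τ) →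
      ∀ Z : Set X, ∃ D ⊆ Z, Z ⊆ closure D ∧ Cardinal.mk ↥D ≤ τ) := by
  exact Pool.Agent.Work.MP_a33cdf_gt.not_main

end Pool.Agent.S13694
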