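import Pool.Statements.S14041

set_option autoImplicit false
open Pool Pool.MP_d91817_gt

namespace Pool.Agent.S14041

/-- The involution of the index set: `3k ↔ 6k+2`, `3k+1 ↔ 6k+5`. -/
def piv (n : ℕ) : ℕ :=
  if n % 3 = 0 then 2 * n + 2 else if n % 3 = 1 then 2 * n + 3
  else 3 * ((n / 3) / 2) + (n / 3) % 2

theorem piv_piv (n : ℕ) : piv (piv n) = n := by
  unfold piv
  split_ifs <;> omega

/-- The embedding of the Cantor space `{0,1,2}^ℕ` into the line. -/
noncomputable def emb (a : ℕ → Fin 3) : ℝ := ∑' i, ((a i : ℕ) : ℝ) / 4 ^ (i + 1)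

noncomputable def pre (n : ℕ) (a : ℕ → Fin 3) : ℝ :=
  ∑ i ∈ Finset.range n, ((a i : ℕ) : ℝ) / 4 ^ (i + 1)

theorem digit_le (a : ℕ → Fin 3) (i : ℕ) : ((a i : ℕ) : ℝ) ≤ 2 := by
  have h : (a i : ℕ) ≤ 2 := by omega
  exact_mod_cast h

theorem summable_bound (n : ℕ) : Summable (fun i : ℕ => (2 : ℝ) / 4 ^ (i + n + 1)) := by
  have h : Summable (fun i : ℕ => (2 / 4 ^ (n + 1) : ℝ) * (1 / 4 : ℝ) ^ i) :=
    (summable_geometric_of_lt_one (by norm_num) (by norm_num)).mul_left _
  refine h.congr ?_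
  intro i
  rw [add_assoc, one_div, inv_pow]
  field_simp
  ring

theorem tsum_bound (n : ℕ) : ∑' i : ℕ, (2 : ℝ) / 4 ^ (i + n + 1) = 2 / 3 / 4 ^ n := by
  have h : ∀ i : ℕ, (2 : ℝ) / 4 ^ (i + n + 1) = (2 / 4 ^ (n + 1) : ℝ) * (1 / 4 : ℝ) ^ i := by
    intro i
    rw [add_assoc, pow_add, one_div, inv_pow]
    field_simp
  rw [tsum_congr h, tsum_mul_left, tsum_geometric_of_lt_one (by norm_num) (by norm_num), pow_succ]
  field_simp
  norm_num

theorem summable_emb (a : ℕ → Fin 3) :
    Summable (fun i : ℕ => ((a i : ℕ) : ℝ) / 4 ^ (i + 1)) := by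
  refine Summable.of_nonneg_of_le (fun i => by positivity) (fun i => ?_) (summable_bound 0)
  simp only [add_zero]
  gcongr
  exact digit_le a i

theorem pre_le_emb (n : ℕ) (a : ℕ → Fin 3) : pre n a ≤ emb a :=
  (summable_emb a).sum_le_tsum _ (fun i _ => by positivity)

theorem emb_le (n : ℕ) (a : ℕ → Fin 3) : emb a ≤ pre n a + 2 / 3 / 4 ^ n := by
  unfold emb pre
  rw [← (summable_emb a).sum_add_tsum_nat_add n, ← tsum_bound n]
  gcongr with i
  · exact (summable_nat_add_iff n).2 (summable_emb a)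
  · exact summable_bound n
  · exact digit_le a _

theorem continuous_emb : Continuous emb := by
  refine continuous_tsum (u := fun i : ℕ => (2 : ℝ) / 4 ^ (i + 0 + 1)) (fun i => ?_)
    (summable_bound 0) (fun i a => ?_)
  · have h : Continuous (fun a : ℕ → Fin 3 => a i) := continuous_apply i
    have h2 : Continuous (fun x : Fin 3 => ((x : ℕ) : ℝ) / 4 ^ (i + 1)) :=
      continuous_of_discreteTopology
    exact h2.comp h
  · rw [Real.norm_of_nonneg (by positivity)]
    simp only [add_zero]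
    gcongr
    exact digit_le a i

theorem pre_congr {n : ℕ} {a b : ℕ → Fin 3} (h : ∀ i < n, a i = b i) : pre n a = pre n b := by
  unfold pre
  refine Finset.sum_congr rfl (fun i hi => ?_)
  rw [h i (Finset.mem_range.1 hi)]

/-- Gap estimate: if `a`, `b` agree below `n` and `a n < b n` then `emb b - emb a ≥ 1/3/4^(n+1)`. -/
theorem emb_gap {n : ℕ} {a b : ℕ → Fin 3} (h : ∀ i < n, a i = b i) (hn : a n < b n) :
    emb a + 1 / 3 / 4 ^ (n + 1) ≤ emb b := by
  have h1 := emb_le (n + 1) a
  have h2 := pre_le_emb (n + 1) b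
  have h3 : pre (n + 1) a + 1 / 4 ^ (n + 1) ≤ pre (n + 1) b := by
    have e1 : pre (n + 1) a = pre n a + ((a n : ℕ) : ℝ) / 4 ^ (n + 1) := by
      unfold pre; rw [Finset.sum_range_succ]
    have e2 : pre (n + 1) b = pre n b + ((b n : ℕ) : ℝ) / 4 ^ (n + 1) := by
      unfold pre; rw [Finset.sum_range_succ]
    rw [e1, e2, pre_congr h, add_assoc, ← add_div]
    gcongr
    have : (a n : ℕ) + 1 ≤ (b n : ℕ) := hn
    exact_mod_cast this
  have h4 : (1 : ℝ) / 4 ^ (n + 1) = 1 / 3 / 4 ^ (n + 1) + 2 / 3 / 4 ^ (n + 1) := by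
    field_simp; norm_num
  linarith

theorem emb_lt {n : ℕ} {a b : ℕ → Fin 3} (h : ∀ i < n, a i = b i) (hn : a n < b n) :
    emb a < emb b := by
  have := emb_gap h hn
  have h2 : (0 : ℝ) < 1 / 3 / 4 ^ (n + 1) := by positivity
  linarith

theorem emb_injective : Function.Injective emb := by
  intro a b hab
  by_contra hne
  have hex : ∃ n, a n ≠ b n := by
    by_contra hcon
    push Not at hcon
    exact hne (funext hcon)
  classical
  let n := Nat.find hex
  have hn : a n ≠ b n := Nat.find_spec hex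
  have hlt : ∀ i < n, a i = b i := by
    intro i hi
    have := Nat.find_min hex hi
    push Not at this
    exact this
  rcases lt_or_gt_of_ne hn with h | h
  · exact absurd hab (ne_of_lt (emb_lt hlt h))
  · exact absurd hab (ne_of_gt (emb_lt (fun i hi => (hlt i hi).symm) h))

/-- The involution of the Cantor space. -/
def inv (a : ℕ → Fin 3) : ℕ → Fin 3 := fun i => a (piv i)

theorem inv_inv (a : ℕ → Fin 3) : inv (inv a) = a := by
  funext i
  simp [inv, piv_piv]

theorem continuous_inv : Continuous inv := by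
  unfold inv
  exact continuous_pi (fun i => continuous_apply _)

theorem exists_ext : ∃ H : ℝ → ℝ, Continuous H ∧ ∀ a, H (emb a) = emb (inv a) := by
  have he : Topology.IsClosedEmbedding emb :=
    continuous_emb.isClosedEmbedding emb_injective
  obtain ⟨g, hg⟩ := ContinuousMap.exists_extension' he
    (⟨fun a => emb (inv a), continuous_emb.comp continuous_inv⟩ : C(ℕ → Fin 3, ℝ))
  exact ⟨g, g.continuous, fun a => congrFun hg a⟩

/-- Main obstruction. -/
theorem main_aux (H : ℝ → ℝ) (hH : ∀ a, H (emb a) = emb (inv a)) (m : ℕ) (ε : ℝ)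
    (hε : ε = 1 / 3 / 4 ^ (6 * m + 20)) (k : ℕ) (t : ℕ → ℝ) (hk : 0 < k) (h0 : t 0 = 0)
    (h1 : t k = 1) (ht : ∀ i, i < k → t i < t (i + 1) ∧ t (i + 1) - t i < ε)
    (hm : ∀ i, i < k →
            {j : ℕ | j < k ∧
              ((fun x : ℝ => (x + H x, x * H x)) '' Set.Icc (t i) (t (i + 1)) ∩
                (fun x : ℝ => (x + H x, x * H x)) '' Set.Icc (t j) (t (j + 1))).Nonempty}.encard
              ≤ (m : ℕ∞)) : False := by
  classical
  -- every point of the image of `emb` lies in some interval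
  have hcover : ∀ x : ℝ, 0 ≤ x → x ≤ 1 → ∃ i, i < k ∧ x ∈ Set.Icc (t i) (t (i + 1)) := by
    intro x hx0 hx1
    have hex : ∃ i, x ≤ t (i + 1) := ⟨k - 1, by rw [Nat.sub_add_cancel hk, h1]; exact hx1⟩
    let i := Nat.find hex
    have hi : x ≤ t (i + 1) := Nat.find_spec hex
    have hik : i < k := by
      have : i ≤ k - 1 := Nat.find_min' hex (by rw [Nat.sub_add_cancel hk, h1]; exact hx1)
      omega
    refine ⟨i, hik, ?_, hi⟩
    rcases Nat.eq_zero_or_pos i with h | h
    · rw [h, h0]; exact hx0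
    · have := Nat.find_min hex (m := i - 1) (by omega)
      rw [Nat.sub_add_cancel h] at this
      push Not at this
      exact this.le
  have emb_nonneg : ∀ a, 0 ≤ emb a := fun a => by
    have := pre_le_emb 0 a
    simpa [pre] using this
  have emb_le_one : ∀ a, emb a ≤ 1 := fun a => by
    have := emb_le 0 a
    simp [pre] at this
    linarith
  -- some interval contains a cylinder
  have hexd : ∃ d : ℕ, ∃ i, i < k ∧ ∃ a : ℕ → Fin 3, ∀ b : ℕ → Fin 3, (∀ l < d, b l = a l) →
      emb b ∈ Set.Icc (t i) (t (i + 1)) := by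
    have ht1 : 0 < t 1 := by
      have := (ht 0 hk).1
      rw [h0] at this
      simpa using this
    obtain ⟨d, hd⟩ := exists_pow_lt_of_lt_one ht1 (show (1 / 4 : ℝ) < 1 by norm_num)
    refine ⟨d, 0, hk, fun _ => 0, fun b hb => ⟨by rw [h0]; exact emb_nonneg b, ?_⟩⟩
    have hb1 := emb_le d b
    have hb2 : pre d b = 0 := by
      rw [pre_congr (b := fun _ => 0) hb]
      simp [pre]
    rw [hb2] at hb1
    have hb3 : (2 : ℝ) / 3 / 4 ^ d ≤ (1 / 4 : ℝ) ^ d := by
      rw [one_div, inv_pow, div_div, div_le_iff₀ (by positivity)]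
      have : ((4 : ℝ) ^ d)⁻¹ * (3 * 4 ^ d) = 3 := by field_simp
      rw [this]; norm_num
    simp only [zero_add]
    linarith
  let d := Nat.find hexd
  obtain ⟨i, hik, a, ha⟩ : ∃ i, i < k ∧ ∃ a : ℕ → Fin 3, ∀ b : ℕ → Fin 3, (∀ l < d, b l = a l) →
      emb b ∈ Set.Icc (t i) (t (i + 1)) := Nat.find_spec hexd
  have hmin : ∀ d' < d, ∀ i, i < k → ∀ a : ℕ → Fin 3, ∃ b : ℕ → Fin 3, (∀ l < d', b l = a l) ∧
      emb b ∉ Set.Icc (t i) (t (i + 1)) := by
    intro d' hd' i hi a
    have := Nat.find_min hexd hd'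
    push Not at this
    obtain ⟨b, hb1, hb2⟩ := this i hi a
    exact ⟨b, hb1, hb2⟩
  -- `d` is large
  have hd : 6 * m + 20 < d + 1 := by
    let a0 : ℕ → Fin 3 := fun l => if l < d then a l else 0
    let a1 : ℕ → Fin 3 := fun l => if l < d then a l else 1
    have e0 := ha a0 (fun l hl => by simp [a0, hl])
    have e1 := ha a1 (fun l hl => by simp [a1, hl])
    have hgap : emb a0 + 1 / 3 / 4 ^ (d + 1) ≤ emb a1 :=
      emb_gap (fun l hl => by simp [a0, a1, hl]) (by simp [a0, a1])
    have hmesh := (ht i hik).2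
    have hlt : (1 : ℝ) / 3 / 4 ^ (d + 1) < 1 / 3 / 4 ^ (6 * m + 20) := by
      rw [← hε]
      have := e0.1
      have := e1.2
      linarith
    by_contra hcon
    push Not at hcon
    have : (1 : ℝ) / 3 / 4 ^ (6 * m + 20) ≤ 1 / 3 / 4 ^ (d + 1) := by
      gcongr
      norm_num
    linarith
  -- the family of points
  let s : ℕ → ℕ := fun r => 3 * (d / 6 + 1 + r)
  have hs1 : ∀ r, piv (s r) ≥ d := by
    intro r
    simp only [s, piv]
    split_ifs <;> omega
  have hs2 : ∀ r, r ≤ m → s r + 1 < d := by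
    intro r hr
    simp only [s]
    omega
  have hpinj : ∀ x y, piv x = piv y → x = y := by
    intro x y hxy
    have := congrArg piv hxy
    rwa [piv_piv, piv_piv] at this
  let b : ℕ → (ℕ → Fin 3) := fun r l => if l < d then a l else if l = piv (s r) then 2 else 0
  have hb : ∀ r, emb (b r) ∈ Set.Icc (t i) (t (i + 1)) :=
    fun r => ha (b r) (fun l hl => by simp [b, hl])
  have hx1 : ∀ r, inv (b r) (s r) = 2 := by
    intro r
    have := hs1 r
    simp [inv, b, not_lt.2 this]
  have hx2 : ∀ r r', r ≠ r' → inv (b r) (s r') = 0 := by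
    intro r r' hrr
    have h3 := hs1 r'
    have h4 : piv (s r') ≠ piv (s r) := by
      intro h
      have := hpinj _ _ h
      simp only [s] at this
      omega
    simp [inv, b, not_lt.2 h3, h4]
  have hx3 : ∀ r r' l, l < s r → l < s r' → inv (b r) l = inv (b r') l := by
    intro r r' l hl hl'
    have h4 : piv l ≠ piv (s r) := fun h => (ne_of_lt hl) (hpinj _ _ h)
    have h5 : piv l ≠ piv (s r') := fun h => (ne_of_lt hl') (hpinj _ _ h)
    simp [inv, b, h4, h5]
  -- choose the intervals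
  have hch : ∀ r, ∃ j, j < k ∧ emb (inv (b r)) ∈ Set.Icc (t j) (t (j + 1)) :=
    fun r => hcover _ (emb_nonneg _) (emb_le_one _)
  choose J hJk hJ using hch
  have hJinj : ∀ r r', r ≤ m → r' ≤ m → r < r' → J r ≠ J r' := by
    intro r r' hr hr' hrr hJJ
    have hsl : s r < s r' := by simp only [s]; omega
    -- cylinder in between
    obtain ⟨c, hc1, hc2⟩ := hmin (s r + 1) (hs2 r hr) (J r) (hJk r)
      (fun l => if l = s r then 1 else inv (b r) l)
    apply hc2
    have hlow : emb (inv (b r')) < emb c := by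
      apply emb_lt (n := s r)
      · intro l hl
        rw [hc1 l (by omega), if_neg (by omega)]
        exact (hx3 r r' l hl (by omega)).symm
      · rw [hc1 (s r) (by omega), if_pos rfl, hx2 r' r (by omega)]
        decide
    have hhigh : emb c < emb (inv (b r)) := by
      apply emb_lt (n := s r)
      · intro l hl
        rw [hc1 l (by omega), if_neg (by omega)]
      · rw [hc1 (s r) (by omega), if_pos rfl, hx1 r]
        decide
    have hJr := hJ r
    have hJr' := hJ r'
    rw [← hJJ] at hJr'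
    exact ⟨hJr'.1.trans hlow.le, hhigh.le.trans hJr.2⟩
  have hcard := hm i hik
  let F : Finset ℕ := (Finset.range (m + 1)).image J
  have hFcard : F.card = m + 1 := by
    rw [Finset.card_image_of_injOn, Finset.card_range]
    intro r hr r' hr' hrr
    simp only [Finset.coe_range, Set.mem_Iio] at hr hr'
    by_contra hne
    rcases lt_or_gt_of_ne hne with h | h
    · exact hJinj r r' (by omega) (by omega) h hrr
    · exact hJinj r' r (by omega) (by omega) h hrr.symm
  have hsub : (F : Set ℕ) ⊆ {j : ℕ | j < k ∧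
              ((fun x : ℝ => (x + H x, x * H x)) '' Set.Icc (t i) (t (i + 1)) ∩
                (fun x : ℝ => (x + H x, x * H x)) '' Set.Icc (t j) (t (j + 1))).Nonempty} := by
    intro j hj
    simp only [F, Finset.coe_image, Set.mem_image] at hj
    obtain ⟨r, -, rfl⟩ := hj
    refine ⟨hJk r, (emb (b r) + H (emb (b r)), emb (b r) * H (emb (b r))),
      ⟨emb (b r), hb r, rfl⟩, ⟨emb (inv (b r)), hJ r, ?_⟩⟩
    simp only [hH, inv_inv]
    rw [add_comm, mul_comm]
  have h5 := Set.encard_le_encard hsub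
  rw [Set.encard_coe_eq_coe_finsetCard, hFcard] at h5
  have h6 := h5.trans hcard
  have h7 : m + 1 ≤ m := by exact_mod_cast h6
  omega

/-- There is a metric space Y and a map f continuous on [0,1] whose fibers there have at most n points (some n ≥ 1), such that f is not finitely linear in the mesh-partition sense defined above. -/
theorem result :
    ∃ (Y : Type) (_ : MetricSpace Y) (f : ℝ → Y) (n : ℕ),
      0 < n ∧ ContinuousOn f (Set.Icc (0:ℝ) 1) ∧
      (∀ y : Y, {x : ℝ | x ∈ Set.Icc (0:ℝ) 1 ∧ f x = y}.encard ≤ (n : ℕ∞)) ∧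
      ¬ ∃ m : ℕ, 0 < m ∧ ∀ ε : ℝ, 0 < ε →
        ∃ (k : ℕ) (t : ℕ → ℝ), 0 < k ∧ t 0 = 0 ∧ t k = 1 ∧
          (∀ i, i < k → t i < t (i + 1) ∧ t (i + 1) - t i < ε) ∧
          ∀ i, i < k →
            {j : ℕ | j < k ∧
              (f '' Set.Icc (t i) (t (i + 1)) ∩ f '' Set.Icc (t j) (t (j + 1))).Nonempty}.encard
              ≤ (m : ℕ∞) := by
  obtain ⟨H, hHc, hH⟩ := exists_ext
  refine ⟨ℝ × ℝ, inferInstance, fun x => (x + H x, x * H x), 2, by norm_num, ?_, ?_, ?_⟩
  · exact Continuous.continuousOn (by fun_prop)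
  · intro y
    rcases Set.eq_empty_or_nonempty
      {x : ℝ | x ∈ Set.Icc (0:ℝ) 1 ∧ (fun x => (x + H x, x * H x)) x = y} with h | ⟨x0, -, hx0⟩
    · rw [h]; simp
    · have hp : ({x0, H x0} : Set ℝ).encard ≤ ((2 : ℕ) : ℕ∞) := by
        refine (Set.encard_insert_le _ _).trans ?_
        rw [Set.encard_singleton]
        norm_num
      refine (Set.encard_le_encard (t := {x0, H x0}) ?_).trans hp
      rintro x ⟨-, hx⟩
      have h1 : x + H x = x0 + H x0 := by
        have := congrArg Prod.fst (hx.trans hx0.symm)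
        simpa using this
      have h2 : x * H x = x0 * H x0 := by
        have := congrArg Prod.snd (hx.trans hx0.symm)
        simpa using this
      have h3 : (x - x0) * (x - H x0) = 0 := by
        have h4 : H x = x0 + H x0 - x := by linarith
        rw [h4] at h2
        linarith
      rcases mul_eq_zero.1 h3 with h | h
      · left; linarith
      · right; simp only [Set.mem_singleton_iff]; linarith
  · rintro ⟨m, -, hm⟩
    obtain ⟨k, t, hk, h0, h1, ht, hcard⟩ := hm (1 / 3 / 4 ^ (6 * m + 20)) (by positivity)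
    exact main_aux H hH m _ rfl k t hk h0 h1 ht hcard

end Pool.Agent.S14041
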