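import Pool.Statements.S14144
import Pool.Agent.Work.MP_e5cb06_gt.Main

set_option autoImplicit false
open Pool Pool.MP_e5cb06_gt

namespace Pool.Agent.S14144

/-- The negation of the preceding statement: For every nonempty Tychonoff space Y, if Cp(Y⊕Y) is linearly homeomorphic to Cp(Y) (pointwise topology), then Cp(Y)×R is linearly homeomorphic to Cp(Y). -/
theorem result :
    ¬ (∀ (Y : Type) [TopologicalSpace Y] [T35Space Y] [Nonempty Y],
    (∃ (T : (Y ⊕ Y → ℝ) → (Y → ℝ)) (S : (Y → ℝ) → (Y ⊕ Y → ℝ)),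
      (∀ f : Y ⊕ Y → ℝ, Continuous f → Continuous (T f)) ∧
      (∀ g : Y → ℝ, Continuous g → Continuous (S g)) ∧
      (∀ f : Y ⊕ Y → ℝ, Continuous f → S (T f) = f) ∧
      (∀ g : Y → ℝ, Continuous g → T (S g) = g) ∧
      (∀ (a : ℝ) (f₁ f₂ : Y ⊕ Y → ℝ), Continuous f₁ → Continuous f₂ →
        T (a • f₁ + f₂) = a • T f₁ + T f₂) ∧
      ContinuousOn T {f : Y ⊕ Y → ℝ | Continuous f} ∧
      ContinuousOn S {g : Y → ℝ | Continuous g}) →
    ∃ (T : (Y → ℝ) × ℝ → (Y → ℝ)) (S : (Y → ℝ) → (Y → ℝ) × ℝ),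
      (∀ p : (Y → ℝ) × ℝ, Continuous p.1 → Continuous (T p)) ∧
      (∀ g : Y → ℝ, Continuous g → Continuous (S g).1) ∧
      (∀ p : (Y → ℝ) × ℝ, Continuous p.1 → S (T p) = p) ∧
      (∀ g : Y → ℝ, Continuous g → T (S g) = g) ∧
      (∀ (a : ℝ) (p q : (Y → ℝ) × ℝ), Continuous p.1 → Continuous q.1 →
        T (a • p + q) = a • T p + T q) ∧
      ContinuousOn T {p : (Y → ℝ) × ℝ | Continuous p.1} ∧
      ContinuousOn S {g : Y → ℝ | Continuous g}) := by
  intro H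
  obtain ⟨B, hB, hflow, hB2⟩ := Pool.Agent.Work.MP_e5cb06_gt.exists_algebra
  have hFact : Fact (Pool.Agent.Work.MP_e5cb06_gt.Closed B) := ⟨hB⟩
  have hne : Nonempty (Pool.Agent.Work.MP_e5cb06_gt.K B) :=
    ⟨Pool.Agent.Work.MP_e5cb06_gt.pt B 0⟩
  let q := Pool.Agent.Work.MP_e5cb06_gt.sumHomeo (B := B)
  obtain ⟨T, S, h1, h2, h3, h4, h5, h6, h7⟩ := H (Pool.Agent.Work.MP_e5cb06_gt.K B)
    ⟨fun f y => f (q.symm y), fun g z => g (q z), fun f hf => hf.comp q.symm.continuous,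
      fun g hg => hg.comp q.continuous, fun f _ => by funext z; simp, fun g _ => by funext y; simp,
      fun a f₁ f₂ _ _ => rfl,
      (continuous_pi fun y => continuous_apply (q.symm y)).continuousOn,
      (continuous_pi fun z => continuous_apply (q z)).continuousOn⟩
  obtain ⟨d⟩ := Pool.Agent.Work.MP_e5cb06_gt.exists_rows hB h1 h2 h3 h4 h5 h6 h7
  exact Pool.Agent.Work.MP_e5cb06_gt.no_rows hflow hB2 d

end Pool.Agent.S14144
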