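import Pool.Statements.S14501
import Pool.Agent.Work.MP_2709b3_lc.Final

set_option autoImplicit false
open Classical
open Pool Pool.MP_2709b3_lc

namespace Pool.Agent.S14501

open Pool.Agent.Work.MP_2709b3_lc in
theorem aux1 (n : ℕ) :
    (Finset.univ.filter (fun E : Fin n → Fin n → Bool =>
          (∀ a b, ¬ (E a b = true ∧ E b a = true)) ∧
          (SimpleGraph.fromRel (fun a b => E a b = true)).IsTree)) = OTs (Fin n) := by
  ext E
  rw [mem_OTs, Finset.mem_filter]
  constructor
  · rintro ⟨-, h⟩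
    exact h
  · intro h
    exact ⟨Finset.mem_univ _, h⟩

open Pool.Agent.Work.MP_2709b3_lc in
theorem aux2 (n : ℕ) :
    (Finset.univ.filter (fun E : Fin n → Fin n → Bool =>
          (∀ a b, ¬ (E a b = true ∧ E b a = true)) ∧
          (SimpleGraph.fromRel (fun a b => E a b = true)).IsTree ∧
          ¬ ∃ s : Fin n → Fin n → Fin n → Fin n → Fin n,
            (∀ a r e, s a r e a = s r a r e) ∧
            ∀ x₁ x₂ x₃ x₄ y₁ y₂ y₃ y₄ : Fin n,
              E x₁ y₁ = true → E x₂ y₂ = true → E x₃ y₃ = true → E x₄ y₄ = true →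
              E (s x₁ x₂ x₃ x₄) (s y₁ y₂ y₃ y₄) = true)) =
      (OTs (Fin n)).filter (fun E => NoSig E) := by
  ext E
  rw [Finset.mem_filter, Finset.mem_filter, mem_OTs]
  constructor
  · rintro ⟨-, h1, h2, h3⟩
    exact ⟨⟨h1, h2⟩, h3⟩
  · rintro ⟨⟨h1, h2⟩, h3⟩
    exact ⟨Finset.mem_univ _, h1, h2, h3⟩

/-- Among all oriented trees on vertex set {1..n}, the fraction with no 4-ary Siggers polymorphism tends to 1. -/
theorem result :
    Filter.Tendsto (fun n : ℕ =>
      ((Finset.univ.filter (fun E : Fin n → Fin n → Bool =>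
          (∀ a b, ¬ (E a b = true ∧ E b a = true)) ∧
          (SimpleGraph.fromRel (fun a b => E a b = true)).IsTree ∧
          ¬ ∃ s : Fin n → Fin n → Fin n → Fin n → Fin n,
            (∀ a r e, s a r e a = s r a r e) ∧
            ∀ x₁ x₂ x₃ x₄ y₁ y₂ y₃ y₄ : Fin n,
              E x₁ y₁ = true → E x₂ y₂ = true → E x₃ y₃ = true → E x₄ y₄ = true →
              E (s x₁ x₂ x₃ x₄) (s y₁ y₂ y₃ y₄) = true)).card : ℝ) /
      ((Finset.univ.filter (fun E : Fin n → Fin n → Bool =>
          (∀ a b, ¬ (E a b = true ∧ E b a = true)) ∧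
          (SimpleGraph.fromRel (fun a b => E a b = true)).IsTree)).card : ℝ))
      Filter.atTop (nhds 1) := by
  refine Filter.Tendsto.congr ?_ Pool.Agent.Work.MP_2709b3_lc.main_tendsto
  intro n
  rw [aux1, aux2]

end Pool.Agent.S14501
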