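-- Proof of frozen statement S14684 (the Diophantine problem for the structure of positive
-- integers with addition and x * 2 ^ y is undecidable).
import Pool.Statements.S14684
import Pool.Agent.Work.MP_4f56fb_lc.Trans

set_option autoImplicit false
open Pool Pool.MP_4f56fb_lc

namespace Pool.Agent.S14684

/-- The negation of the preceding statement: There is an algorithm deciding whether a finite system of constraints x=y+z, x=y·2^z, x≤y, x=1 has a solution in positive naturals, i.e. the existential theory of (N>0; +, x·2^y, ≤, 1) is decidable. -/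
theorem result :
    ¬ (ComputablePred
      (fun L : List ((ℕ × ℕ × ℕ) ⊕ (ℕ × ℕ × ℕ) ⊕ (ℕ × ℕ) ⊕ ℕ) =>
        ∃ v : ℕ → ℕ, (∀ n, 0 < v n) ∧
          ∀ c ∈ L,
            Sum.elim (fun t : ℕ × ℕ × ℕ => v t.1 = v t.2.1 + v t.2.2)
              (Sum.elim (fun t : ℕ × ℕ × ℕ => v t.1 = v t.2.1 * 2 ^ v t.2.2)
                (Sum.elim (fun p : ℕ × ℕ => v p.1 ≤ v p.2)
                  (fun i : ℕ => v i = 1))) c)) := by
  exact Pool.Agent.Work.MP_4f56fb_lc.undecidable _ (fun L _ => Iff.rfl)

end Pool.Agent.S14684
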