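import Pool.Statements.S14827
import Pool.Agent.Work.MP_6722ca_lc.Assembly2

set_option autoImplicit false
open MeasureTheory
open Pool Pool.MP_6722ca_lc

namespace Pool.Agent.S14827

/-- For every Borel action of a Polish group G on a Polish space X, there is a Borel map from X to measure-preserving automorphisms of [0,1] such that x,y lie in the same orbit iff their images are conjugate modulo null sets. -/
theorem result :
    ∀ (G : Type) [TopologicalSpace G] [Group G] [IsTopologicalGroup G] [PolishSpace G]
      [MeasurableSpace G] [BorelSpace G]
      (X : Type) [TopologicalSpace X] [PolishSpace X] [MeasurableSpace X] [BorelSpace X]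
      [MulAction G X],
      Measurable (fun p : G × X => p.1 • p.2) →
      ∃ f : X → MeasurableEquiv unitInterval unitInterval,
        (∀ x, MeasurePreserving (f x) (volume : Measure unitInterval) (volume : Measure unitInterval)) ∧
        (∀ A B : Set unitInterval, MeasurableSet A → MeasurableSet B →
          Measurable (fun x : X => (volume : Measure unitInterval) ((f x) ⁻¹' A ∩ B))) ∧
        (∀ x y : X, (∃ g : G, g • x = y) ↔
          ∃ R : MeasurableEquiv unitInterval unitInterval,
            MeasurePreserving R (volume : Measure unitInterval) (volume : Measure unitInterval) ∧
            (fun t : unitInterval => R (f x (R.symm t))) =ᵐ[(volume : Measure unitInterval)]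
              (fun t : unitInterval => f y t)) :=
  CEq.main

end Pool.Agent.S14827
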