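import Pool.Statements.S15544
import Pool.Agent.Work.MP_e693fe_lc.Main

set_option autoImplicit false
open FirstOrder FirstOrder.Language
open Pool Pool.MP_e693fe_lc

namespace Pool.Agent.S15544

/-- The negation of the preceding statement: There is a first-order structure on ℕ, with the usual order definable, in which every formula has finite VC-dimension, and in which an infinite field is interpretable via a definable set, definable equivalence and definable addition and multiplication. -/
theorem result :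
    ¬ (∃ (L : FirstOrder.Language.{0, 0}) (S : L.Structure ℕ),
      (∃ φ : L.Formula (Fin 2), ∀ v : Fin 2 → ℕ, φ.Realize v ↔ v 0 < v 1) ∧
      (∀ (n m : ℕ) (φ : L.Formula (Fin n ⊕ Fin m)), ∃ k : ℕ,
        ∀ A : Finset (Fin n → ℕ), A.card = k →
          ∃ B ⊆ A, ∀ b : Fin m → ℕ,
            ¬ (∀ a ∈ A, (a ∈ B ↔ φ.Realize (Sum.elim a b)))) ∧
      (∃ (K : Type) (_ : Field K), Infinite K ∧
        ∃ (n : ℕ) (D : L.Formula (Fin n)) (f : (Fin n → ℕ) → K),
          (∀ x : K, ∃ a : Fin n → ℕ, D.Realize a ∧ f a = x) ∧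
          (∃ E : L.Formula (Fin 2 × Fin n), ∀ a b : Fin n → ℕ,
            D.Realize a → D.Realize b →
              (E.Realize (fun p => ![a, b] p.1 p.2) ↔ f a = f b)) ∧
          (∃ Ad : L.Formula (Fin 3 × Fin n), ∀ a b c : Fin n → ℕ,
            D.Realize a → D.Realize b → D.Realize c →
              (Ad.Realize (fun p => ![a, b, c] p.1 p.2) ↔ f a + f b = f c)) ∧
          (∃ Mu : L.Formula (Fin 3 × Fin n), ∀ a b c : Fin n → ℕ,
            D.Realize a → D.Realize b → D.Realize c →
              (Mu.Realize (fun p => ![a, b, c] p.1 p.2) ↔ f a * f b = f c)))) := by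
  rintro ⟨L, S, hlt, hNIP, K, hK, hinf, n, D, f, hsurj, hE, hAd, hMu⟩
  exact Pool.Agent.Work.MP_e693fe_lc.Intp.contradiction
    (⟨hlt, n, D, f, hsurj, hE, hAd, hMu⟩ : Pool.Agent.Work.MP_e693fe_lc.Intp L K) hNIP

end Pool.Agent.S15544
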