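import Pool.Statements.S15651

set_option autoImplicit false
open Pool Pool.MP_fccb05_lc

namespace Pool.Agent.S15651

open Nat Set

/-- positive atom `f_c (k) = n` -/
def pos (c k n : ℕ) : ℕ := Nat.pair c (Nat.pair k (2 * n))

/-- negative atom `f_c (k) ≠ n` -/
def neg (c k n : ℕ) : ℕ := Nat.pair c (Nat.pair k (2 * n + 1))

/-- generator of the premises of axiom `i` -/
def gU (i p : ℕ) : Option (List ℕ) :=
  if i.unpair.1 = 0 then
    some [pos p.unpair.1 p.unpair.2.unpair.1 p.unpair.2.unpair.2,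
      neg p.unpair.1 p.unpair.2.unpair.1 p.unpair.2.unpair.2]
  else if i.unpair.1 = 1 then
    some [Nat.pair i.unpair.2.unpair.1 (Nat.pair i.unpair.2.unpair.2.unpair.1 p)]
  else if i.unpair.1 = 2 then
    some [pos i.unpair.2.unpair.1 p.unpair.1 p.unpair.2]
  else if i.unpair.1 = 3 then
    (if p.unpair.1.unpair.1 = p.unpair.2.unpair.1 then none else
      some [neg i.unpair.2 p.unpair.1.unpair.1 p.unpair.1.unpair.2,
        neg i.unpair.2 p.unpair.2.unpair.1 p.unpair.2.unpair.2])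
  else some []

/-- generator of the conclusions of axiom `i` -/
def gV (i p : ℕ) : Option (List ℕ) :=
  if i.unpair.1 = 0 then none
  else if i.unpair.1 = 1 then
    (if p = 0 then
      some [pos i.unpair.2.unpair.1 i.unpair.2.unpair.2.unpair.1 i.unpair.2.unpair.2.unpair.2]
    else
      some [neg i.unpair.2.unpair.1 i.unpair.2.unpair.2.unpair.1 i.unpair.2.unpair.2.unpair.2])
  else if i.unpair.1 = 2 then
    some [pos i.unpair.2.unpair.1 i.unpair.2.unpair.2 p]
  else if i.unpair.1 = 3 then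
    some [pos i.unpair.2 p.unpair.1 p.unpair.2]
  else some [Nat.pair i.unpair.2 p]

def U (x : ℕ × List ℕ) : Prop := ∃ p : ℕ, gU x.1 p = some x.2

def V (x : ℕ × List ℕ) : Prop := ∃ p : ℕ, gV x.1 p = some x.2

section computability

theorem re_exists {α : Type} [Primcodable α] {p : α → ℕ → Prop}
    [∀ a n, Decidable (p a n)] (h : Computable₂ fun a n => decide (p a n)) :
    REPred fun a => ∃ n, p a n := by
  have h1 := (Partrec.rfind h.partrec₂).dom_re
  refine h1.of_eq fun a => ?_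
  simp [Nat.rfind_dom]

theorem primrec_fst_unpair : Primrec fun n : ℕ => n.unpair.1 :=
  Primrec.fst.comp Primrec.unpair

theorem primrec_snd_unpair : Primrec fun n : ℕ => n.unpair.2 :=
  Primrec.snd.comp Primrec.unpair

theorem primrec_pos {α : Type} [Primcodable α] {f g h : α → ℕ} (hf : Primrec f)
    (hg : Primrec g) (hh : Primrec h) : Primrec fun a => pos (f a) (g a) (h a) := by
  unfold pos
  exact Primrec₂.natPair.comp hf (Primrec₂.natPair.comp hg
    (Primrec.nat_mul.comp (Primrec.const 2) hh))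

theorem primrec_neg {α : Type} [Primcodable α] {f g h : α → ℕ} (hf : Primrec f)
    (hg : Primrec g) (hh : Primrec h) : Primrec fun a => neg (f a) (g a) (h a) := by
  unfold neg
  exact Primrec₂.natPair.comp hf (Primrec₂.natPair.comp hg
    (Primrec.succ.comp (Primrec.nat_mul.comp (Primrec.const 2) hh)))

theorem primrec_single {α : Type} [Primcodable α] {f : α → ℕ} (hf : Primrec f) :
    Primrec fun a => (some [f a] : Option (List ℕ)) :=
  Primrec.option_some.comp (Primrec.list_cons.comp hf (Primrec.const []))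

theorem primrec_double {α : Type} [Primcodable α] {f g : α → ℕ} (hf : Primrec f)
    (hg : Primrec g) :
    Primrec fun a => (some [f a, g a] : Option (List ℕ)) :=
  Primrec.option_some.comp (Primrec.list_cons.comp hf
    (Primrec.list_cons.comp hg (Primrec.const [])))

theorem primrec_gU : Primrec₂ gU := by
  have i1 : Primrec fun x : ℕ × ℕ => x.1.unpair.1 := primrec_fst_unpair.comp Primrec.fst
  have i2 : Primrec fun x : ℕ × ℕ => x.1.unpair.2 := primrec_snd_unpair.comp Primrec.fst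
  have i21 : Primrec fun x : ℕ × ℕ => x.1.unpair.2.unpair.1 := primrec_fst_unpair.comp i2
  have i22 : Primrec fun x : ℕ × ℕ => x.1.unpair.2.unpair.2 := primrec_snd_unpair.comp i2
  have i221 : Primrec fun x : ℕ × ℕ => x.1.unpair.2.unpair.2.unpair.1 :=
    primrec_fst_unpair.comp i22
  have p0 : Primrec fun x : ℕ × ℕ => x.2 := Primrec.snd
  have p1 : Primrec fun x : ℕ × ℕ => x.2.unpair.1 := primrec_fst_unpair.comp p0
  have p2 : Primrec fun x : ℕ × ℕ => x.2.unpair.2 := primrec_snd_unpair.comp p0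
  have p11 : Primrec fun x : ℕ × ℕ => x.2.unpair.1.unpair.1 := primrec_fst_unpair.comp p1
  have p12 : Primrec fun x : ℕ × ℕ => x.2.unpair.1.unpair.2 := primrec_snd_unpair.comp p1
  have p21 : Primrec fun x : ℕ × ℕ => x.2.unpair.2.unpair.1 := primrec_fst_unpair.comp p2
  have p22 : Primrec fun x : ℕ × ℕ => x.2.unpair.2.unpair.2 := primrec_snd_unpair.comp p2
  unfold Primrec₂ gU
  refine Primrec.ite (Primrec.eq.comp i1 (Primrec.const 0)) ?_ ?_
  · exact primrec_double (primrec_pos p1 p21 p22) (primrec_neg p1 p21 p22)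
  refine Primrec.ite (Primrec.eq.comp i1 (Primrec.const 1)) ?_ ?_
  · exact primrec_single (Primrec₂.natPair.comp i21 (Primrec₂.natPair.comp i221 p0))
  refine Primrec.ite (Primrec.eq.comp i1 (Primrec.const 2)) ?_ ?_
  · exact primrec_single (primrec_pos i21 p1 p2)
  refine Primrec.ite (Primrec.eq.comp i1 (Primrec.const 3)) ?_ ?_
  · refine Primrec.ite (Primrec.eq.comp p11 p21) ?_ ?_
    · exact Primrec.const none
    · exact primrec_double (primrec_neg i2 p11 p12) (primrec_neg i2 p21 p22)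
  · exact Primrec.const (some [])

theorem primrec_gV : Primrec₂ gV := by
  have i1 : Primrec fun x : ℕ × ℕ => x.1.unpair.1 := primrec_fst_unpair.comp Primrec.fst
  have i2 : Primrec fun x : ℕ × ℕ => x.1.unpair.2 := primrec_snd_unpair.comp Primrec.fst
  have i21 : Primrec fun x : ℕ × ℕ => x.1.unpair.2.unpair.1 := primrec_fst_unpair.comp i2
  have i22 : Primrec fun x : ℕ × ℕ => x.1.unpair.2.unpair.2 := primrec_snd_unpair.comp i2
  have i221 : Primrec fun x : ℕ × ℕ => x.1.unpair.2.unpair.2.unpair.1 :=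
    primrec_fst_unpair.comp i22
  have i222 : Primrec fun x : ℕ × ℕ => x.1.unpair.2.unpair.2.unpair.2 :=
    primrec_snd_unpair.comp i22
  have p0 : Primrec fun x : ℕ × ℕ => x.2 := Primrec.snd
  have p1 : Primrec fun x : ℕ × ℕ => x.2.unpair.1 := primrec_fst_unpair.comp p0
  have p2 : Primrec fun x : ℕ × ℕ => x.2.unpair.2 := primrec_snd_unpair.comp p0
  unfold Primrec₂ gV
  refine Primrec.ite (Primrec.eq.comp i1 (Primrec.const 0)) (Primrec.const none) ?_
  refine Primrec.ite (Primrec.eq.comp i1 (Primrec.const 1)) ?_ ?_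
  · refine Primrec.ite (Primrec.eq.comp p0 (Primrec.const 0)) ?_ ?_
    · exact primrec_single (primrec_pos i21 i221 i222)
    · exact primrec_single (primrec_neg i21 i221 i222)
  refine Primrec.ite (Primrec.eq.comp i1 (Primrec.const 2)) ?_ ?_
  · exact primrec_single (primrec_pos i21 i22 p0)
  refine Primrec.ite (Primrec.eq.comp i1 (Primrec.const 3)) ?_ ?_
  · exact primrec_single (primrec_pos i2 p1 p2)
  · exact primrec_single (Primrec₂.natPair.comp i2 p0)

theorem re_U : REPred U := by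
  unfold U
  apply re_exists
  have h : Primrec₂ fun (a : ℕ × List ℕ) (n : ℕ) => gU a.1 n :=
    primrec_gU.comp (Primrec.fst.comp Primrec.fst) Primrec.snd
  have h2 : Primrec₂ fun (a : ℕ × List ℕ) (n : ℕ) => (some a.2 : Option (List ℕ)) :=
    Primrec.option_some.comp (Primrec.snd.comp Primrec.fst)
  exact (Primrec.eq.comp h h2).decide.to_comp

theorem re_V : REPred V := by
  unfold V
  apply re_exists
  have h : Primrec₂ fun (a : ℕ × List ℕ) (n : ℕ) => gV a.1 n :=
    primrec_gV.comp (Primrec.fst.comp Primrec.fst) Primrec.snd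
  have h2 : Primrec₂ fun (a : ℕ × List ℕ) (n : ℕ) => (some a.2 : Option (List ℕ)) :=
    Primrec.option_some.comp (Primrec.snd.comp Primrec.fst)
  exact (Primrec.eq.comp h h2).decide.to_comp

/-- the predicate semi-decided by a code -/
def codePred (e : Nat.Partrec.Code) (x : ℕ × List ℕ) : Prop :=
  (e.eval (Encodable.encode x)).Dom

theorem exists_code {p : ℕ × List ℕ → Prop} (h : REPred p) :
    ∃ e : Nat.Partrec.Code, p = codePred e := by
  unfold REPred Partrec at h
  obtain ⟨e, he⟩ := Nat.Partrec.Code.exists_code.1 h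
  refine ⟨e, funext fun x => ?_⟩
  unfold codePred
  rw [he]
  simp only [Encodable.encodek]
  simp [Part.assert, -Encodable.decode_prod_val]

end computability

/-- The point of the space with parameter `y`. -/
def pt (y : ℕ → ℕ) : Set ℕ :=
  {a | (y (Nat.pair a.unpair.1 0) = 0 ∧
        (a.unpair.2.unpair.2 = 2 * y (Nat.pair a.unpair.1 (a.unpair.2.unpair.1 + 1)) ∨
          (a.unpair.2.unpair.2 % 2 = 1 ∧
            a.unpair.2.unpair.2 ≠ 2 * y (Nat.pair a.unpair.1 (a.unpair.2.unpair.1 + 1)) + 1))) ∨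
       (y (Nat.pair a.unpair.1 0) = a.unpair.2.unpair.1 + 1 ∧ a.unpair.2.unpair.2 % 2 = 1)}

theorem pos_mem_pt {y : ℕ → ℕ} {c k n : ℕ} :
    pos c k n ∈ pt y ↔ y (Nat.pair c 0) = 0 ∧ y (Nat.pair c (k + 1)) = n := by
  simp only [pt, pos, Set.mem_ofPred_eq, Nat.unpair_pair]
  constructor
  · rintro (⟨h1, h2 | h2⟩ | ⟨h1, h2⟩)
    · exact ⟨h1, by omega⟩
    · omega
    · omega
  · rintro ⟨h1, h2⟩
    exact Or.inl ⟨h1, Or.inl (by omega)⟩

theorem neg_mem_pt {y : ℕ → ℕ} {c k n : ℕ} :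
    neg c k n ∈ pt y ↔ (y (Nat.pair c 0) = 0 ∧ y (Nat.pair c (k + 1)) ≠ n) ∨
      y (Nat.pair c 0) = k + 1 := by
  simp only [pt, neg, Set.mem_ofPred_eq, Nat.unpair_pair]
  constructor
  · rintro (⟨h1, h2 | h2⟩ | ⟨h1, h2⟩)
    · omega
    · exact Or.inl ⟨h1, by omega⟩
    · exact Or.inr h1
  · rintro (⟨h1, h2⟩ | h1)
    · exact Or.inl ⟨h1, Or.inr ⟨by omega, by omega⟩⟩
    · exact Or.inr ⟨h1, by omega⟩

theorem atom_cases (c k m : ℕ) :
    (∃ n, Nat.pair c (Nat.pair k m) = pos c k n) ∨ (∃ n, Nat.pair c (Nat.pair k m) = neg c k n) := by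
  rcases Nat.even_or_odd' m with ⟨n, h | h⟩
  · left; exact ⟨n, by rw [h]; rfl⟩
  · right; exact ⟨n, by rw [h]; rfl⟩

theorem atom_cases' (a : ℕ) : ∃ c k n, a = pos c k n ∨ a = neg c k n := by
  have h : a = Nat.pair a.unpair.1 (Nat.pair a.unpair.2.unpair.1 a.unpair.2.unpair.2) := by simp
  rcases atom_cases a.unpair.1 a.unpair.2.unpair.1 a.unpair.2.unpair.2 with ⟨n, hn⟩ | ⟨n, hn⟩
  · exact ⟨_, _, n, Or.inl (h.trans hn)⟩
  · exact ⟨_, _, n, Or.inr (h.trans hn)⟩

/-- Membership in the space. -/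
def InX (A : Set ℕ) : Prop :=
  ∀ i : ℕ, (∃ l : List ℕ, U (i, l) ∧ ∀ k ∈ l, k ∈ A) → ∃ l : List ℕ, V (i, l) ∧ ∀ k ∈ l, k ∈ A

theorem pt_mem (y : ℕ → ℕ) : InX (pt y) := by
  rintro i ⟨l, ⟨p, hp⟩, hl⟩
  simp only [gU] at hp
  by_cases h0 : i.unpair.1 = 0
  · -- consistency
    rw [if_pos h0] at hp
    simp only [Option.some.injEq] at hp
    subst hp
    simp only [List.mem_cons, List.not_mem_nil, or_false, forall_eq_or_imp, forall_eq] at hl
    rw [pos_mem_pt, neg_mem_pt] at hl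
    omega
  rw [if_neg h0] at hp
  by_cases h1 : i.unpair.1 = 1
  · rw [if_pos h1] at hp
    simp only [Option.some.injEq] at hp
    subst hp
    simp only [List.mem_cons, List.not_mem_nil, or_false, forall_eq] at hl
    set c := i.unpair.2.unpair.1 with hc
    set k := i.unpair.2.unpair.2.unpair.1 with hk
    set m := i.unpair.2.unpair.2.unpair.2 with hm
    by_cases hmm : pos c k m ∈ pt y
    · refine ⟨[pos c k m], ⟨0, ?_⟩, by simpa using hmm⟩
      simp [gV, h1, ← hc, ← hk, ← hm]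
    · refine ⟨[neg c k m], ⟨1, ?_⟩, ?_⟩
      · simp [gV, h1, ← hc, ← hk, ← hm]
      · simp only [List.mem_cons, List.not_mem_nil, or_false, forall_eq]
        rw [pos_mem_pt] at hmm
        rw [neg_mem_pt]
        rcases atom_cases c k p with ⟨n, hn⟩ | ⟨n, hn⟩
        · rw [hn, pos_mem_pt] at hl
          left; exact ⟨hl.1, fun h => hmm ⟨hl.1, h⟩⟩
        · rw [hn, neg_mem_pt] at hl
          rcases hl with hl | hl
          · left; exact ⟨hl.1, fun h => hmm ⟨hl.1, h⟩⟩
          · right; exact hl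
  rw [if_neg h1] at hp
  by_cases h2 : i.unpair.1 = 2
  · rw [if_pos h2] at hp
    simp only [Option.some.injEq] at hp
    subst hp
    simp only [List.mem_cons, List.not_mem_nil, or_false, forall_eq] at hl
    rw [pos_mem_pt] at hl
    refine ⟨[pos i.unpair.2.unpair.1 i.unpair.2.unpair.2
      (y (Nat.pair i.unpair.2.unpair.1 (i.unpair.2.unpair.2 + 1)))],
      ⟨y (Nat.pair i.unpair.2.unpair.1 (i.unpair.2.unpair.2 + 1)), ?_⟩, ?_⟩
    · simp [gV, h2]
    · simp only [List.mem_cons, List.not_mem_nil, or_false, forall_eq]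
      rw [pos_mem_pt]
      exact ⟨hl.1, rfl⟩
  rw [if_neg h2] at hp
  by_cases h3 : i.unpair.1 = 3
  · rw [if_pos h3] at hp
    split_ifs at hp with h4
    simp only [Option.some.injEq] at hp
    subst hp
    simp only [List.mem_cons, List.not_mem_nil, or_false, forall_eq_or_imp, forall_eq] at hl
    rw [neg_mem_pt, neg_mem_pt] at hl
    refine ⟨[pos i.unpair.2 0 (y (Nat.pair i.unpair.2 1))],
      ⟨Nat.pair 0 (y (Nat.pair i.unpair.2 1)), ?_⟩, ?_⟩
    · simp [gV, h3]
    · simp only [List.mem_cons, List.not_mem_nil, or_false, forall_eq]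
      rw [pos_mem_pt]
      refine ⟨?_, rfl⟩
      omega
  · -- nonempty
    by_cases hy : y (Nat.pair i.unpair.2 0) = 0
    · refine ⟨[pos i.unpair.2 0 (y (Nat.pair i.unpair.2 1))],
        ⟨Nat.pair 0 (2 * (y (Nat.pair i.unpair.2 1))), ?_⟩, ?_⟩
      · simp [gV, h0, h1, h2, h3, pos]
      · simp only [List.mem_cons, List.not_mem_nil, or_false, forall_eq]
        rw [pos_mem_pt]
        exact ⟨hy, rfl⟩
    · obtain ⟨k, hk⟩ := Nat.exists_eq_succ_of_ne_zero hy
      refine ⟨[neg i.unpair.2 k 0], ⟨Nat.pair k 1, ?_⟩, ?_⟩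
      · simp [gV, h0, h1, h2, h3, neg]
      · simp only [List.mem_cons, List.not_mem_nil, or_false, forall_eq]
        rw [neg_mem_pt]
        right; exact hk

/-! ### Consequences of membership -/

theorem cons {A : Set ℕ} (h : InX A) {c k n : ℕ} (h1 : pos c k n ∈ A) (h2 : neg c k n ∈ A) :
    False := by
  obtain ⟨l, ⟨p, hp⟩, _⟩ := h (Nat.pair 0 0) ⟨[pos c k n, neg c k n],
    ⟨Nat.pair c (Nat.pair k n), by simp [gU]⟩, by simp [h1, h2]⟩
  simp [gV] at hp

theorem complete {A : Set ℕ} (h : InX A) {c k m : ℕ} (h1 : Nat.pair c (Nat.pair k m) ∈ A) (n : ℕ) :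
    pos c k n ∈ A ∨ neg c k n ∈ A := by
  obtain ⟨l, ⟨p, hp⟩, hl⟩ := h (Nat.pair 1 (Nat.pair c (Nat.pair k n)))
    ⟨[Nat.pair c (Nat.pair k m)], ⟨m, by simp [gU]⟩, by simp [h1]⟩
  simp only [gV, Nat.unpair_pair] at hp
  by_cases hp0 : p = 0
  · simp [hp0] at hp
    subst hp
    left; simpa using hl
  · simp [hp0] at hp
    subst hp
    right; simpa using hl

theorem total {A : Set ℕ} (h : InX A) {c k n : ℕ} (h1 : pos c k n ∈ A) (j : ℕ) :
    ∃ m, pos c j m ∈ A := by
  obtain ⟨l, ⟨p, hp⟩, hl⟩ := h (Nat.pair 2 (Nat.pair c j))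
    ⟨[pos c k n], ⟨Nat.pair k n, by simp [gU]⟩, by simp [h1]⟩
  simp [gV] at hp
  subst hp
  exact ⟨p, by simpa using hl⟩

theorem single {A : Set ℕ} (h : InX A) {c k n j m : ℕ} (h1 : neg c k n ∈ A)
    (h2 : neg c j m ∈ A) (hkj : k ≠ j) : ∃ k' n', pos c k' n' ∈ A := by
  obtain ⟨l, ⟨p, hp⟩, hl⟩ := h (Nat.pair 3 c)
    ⟨[neg c k n, neg c j m], ⟨Nat.pair (Nat.pair k n) (Nat.pair j m), by simp [gU, hkj]⟩,
      by simp [h1, h2]⟩
  simp [gV] at hp
  subst hp
  exact ⟨p.unpair.1, p.unpair.2, by simpa using hl⟩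

theorem nonempty_row {A : Set ℕ} (h : InX A) (c : ℕ) : ∃ k m, Nat.pair c (Nat.pair k m) ∈ A := by
  obtain ⟨l, ⟨p, hp⟩, hl⟩ := h (Nat.pair 4 c) ⟨[], ⟨0, by simp [gU]⟩, by simp⟩
  simp [gV] at hp
  subst hp
  exact ⟨p.unpair.1, p.unpair.2, by simpa using hl⟩

/-- the space is `T₁` -/
theorem antichain {A B : Set ℕ} (hA : InX A) (hB : InX B) (hAB : A ⊆ B) : A = B := by
  refine Set.Subset.antisymm hAB ?_
  intro b hb
  obtain ⟨c, k, n, hbb⟩ := atom_cases' b
  by_cases hpos : ∃ k' n', pos c k' n' ∈ A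
  · obtain ⟨k', n', h'⟩ := hpos
    obtain ⟨m, hm⟩ := total hA h' k
    rcases complete hA (m := 2 * m) hm n with h | h
    · rcases hbb with hbb | hbb
      · rw [hbb]; exact h
      · exact (cons hB (hAB h) (hbb ▸ hb)).elim
    · rcases hbb with hbb | hbb
      · exact (cons hB (hbb ▸ hb) (hAB h)).elim
      · rw [hbb]; exact h
  · obtain ⟨k', m', h'⟩ := nonempty_row hA c
    have hneg : ∀ n, neg c k' n ∈ A := fun n => by
      rcases complete hA h' n with h | h
      · exact (hpos ⟨_, _, h⟩).elim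
      · exact h
    have hposB : ¬ ∃ j i, pos c j i ∈ B := by
      rintro ⟨j, i, hji⟩
      obtain ⟨m, hm⟩ := total hB hji k'
      exact cons hB hm (hAB (hneg m))
    rcases hbb with hbb | hbb
    · exact (hposB ⟨k, n, hbb ▸ hb⟩).elim
    · by_cases hk : k = k'
      · rw [hbb, hk]; exact hneg n
      · obtain ⟨k'', n'', h''⟩ := single hB (hbb ▸ hb) (hAB (hneg 0)) hk
        exact (hposB ⟨_, _, h''⟩).elim

/-! ### Generic points -/

/-- The set enumerated from `A` by the operator `W`. -/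
def op (W : ℕ × List ℕ → Prop) (A : Set ℕ) : Set ℕ := {n | ∃ l : List ℕ, W (n, l) ∧ ∀ k ∈ l, k ∈ A}

/-- `L` witnesses that `n` is enumerated, provided all members of `L` are outside `C`. -/
def Good (W W1 : ℕ × List ℕ → Prop) (n : ℕ) (L : List ℕ) : Prop :=
  ∃ l : List ℕ, W1 (n, l) ∧ ∀ k ∈ l, ∃ l' : List ℕ, W (k, l') ∧ ∀ j ∈ l', j ∈ L

/-- The open set of parameters whose point enumerates some member of `L`. -/
def O (W2 : ℕ × List ℕ → Prop) (L : List ℕ) : Set (ℕ → ℕ) := {y | ∃ k ∈ L, k ∈ op W2 (pt y)}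

theorem isClopen_mem (a : ℕ) : IsClopen {y : ℕ → ℕ | a ∈ pt y} := by
  have : {y : ℕ → ℕ | a ∈ pt y} =
      (fun y : ℕ → ℕ => (y (Nat.pair a.unpair.1 0),
        y (Nat.pair a.unpair.1 (a.unpair.2.unpair.1 + 1)))) ⁻¹'
      {q : ℕ × ℕ | (q.1 = 0 ∧
        (a.unpair.2.unpair.2 = 2 * q.2 ∨
          (a.unpair.2.unpair.2 % 2 = 1 ∧ a.unpair.2.unpair.2 ≠ 2 * q.2 + 1))) ∨
       (q.1 = a.unpair.2.unpair.1 + 1 ∧ a.unpair.2.unpair.2 % 2 = 1)} := rfl
  rw [this]
  exact (isClopen_discrete _).preimage (by fun_prop)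

theorem isOpen_O (W2 : ℕ × List ℕ → Prop) (L : List ℕ) : IsOpen (O W2 L) := by
  have : O W2 L = ⋃ k ∈ L, ⋃ l ∈ {l : List ℕ | W2 (k, l)}, ⋂ a ∈ l.toFinset, {y | a ∈ pt y} := by
    ext y
    simp [O, op]
  rw [this]
  refine isOpen_biUnion fun k _ => isOpen_biUnion fun l _ => ?_
  exact isOpen_biInter_finset fun a _ => (isClopen_mem a).isOpen

/-- The parameters at which some witness is refuted by brute force. -/
def Dset (W W1 W2 : ℕ × List ℕ → Prop) : Set (ℕ → ℕ) :=
  ⋃ c : ℕ, ⋃ L ∈ {L : List ℕ | Good W W1 (pos c 0 0) L},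
    interior (O W2 L)ᶜ ∩ {y | pos c 0 0 ∈ pt y}ᶜ

theorem isOpen_Dset (W W1 W2 : ℕ × List ℕ → Prop) : IsOpen (Dset W W1 W2) := by
  refine isOpen_iUnion fun c => isOpen_biUnion fun L _ => ?_
  exact isOpen_interior.inter (isClopen_mem _).isClosed.isOpen_compl

theorem dense_union_ext {X : Type} [TopologicalSpace X] (S : Set X) :
    Dense (S ∪ interior Sᶜ) := by
  rw [dense_iff_inter_open]
  rintro V hV ⟨x, hx⟩
  by_cases h : (V ∩ S).Nonempty
  · obtain ⟨z, hz⟩ := h
    exact ⟨z, hz.1, Or.inl hz.2⟩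
  · refine ⟨x, hx, Or.inr ?_⟩
    rw [mem_interior]
    refine ⟨V, ?_, hV, hx⟩
    intro z hz hzS
    exact h ⟨z, hz, hzS⟩

theorem exists_cylinder {S : Set (ℕ → ℕ)} (hS : IsOpen S) {y : ℕ → ℕ} (hy : y ∈ S) :
    ∃ N : ℕ, ∀ z : ℕ → ℕ, (∀ i < N, z i = y i) → z ∈ S := by
  have hb := PiNat.isTopologicalBasis_cylinders (fun _ : ℕ => ℕ)
  obtain ⟨T, ⟨x, n, rfl⟩, hyT, hTS⟩ := hb.exists_subset_of_mem_open hy hS
  refine ⟨n, fun z hz => hTS ?_⟩
  rw [PiNat.mem_cylinder_iff] at hyT ⊢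
  intro i hi
  rw [hz i hi, hyT i hi]

theorem dense_io (N : ℕ) : Dense {y : ℕ → ℕ | ∃ c, N ≤ c ∧ pos c 0 0 ∈ pt y} := by
  rw [dense_iff_inter_open]
  rintro V hV ⟨x, hx⟩
  obtain ⟨M, hM⟩ := exists_cylinder hV hx
  refine ⟨fun i => if i < M then x i else 0, hM _ fun i hi => by simp [hi], max N M,
    le_max_left _ _, ?_⟩
  rw [pos_mem_pt]
  have h1 : ¬ Nat.pair (max N M) 0 < M := not_lt.2 ((le_max_right _ _).trans (Nat.left_le_pair _ _))
  have h2 : ¬ Nat.pair (max N M) (0 + 1) < M :=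
    not_lt.2 ((le_max_right _ _).trans (Nat.left_le_pair _ _))
  simp only [h1, h2, if_false, and_self]

theorem isOpen_io (N : ℕ) : IsOpen {y : ℕ → ℕ | ∃ c, N ≤ c ∧ pos c 0 0 ∈ pt y} := by
  have : {y : ℕ → ℕ | ∃ c, N ≤ c ∧ pos c 0 0 ∈ pt y} =
      ⋃ c ∈ {c : ℕ | N ≤ c}, {y | pos c 0 0 ∈ pt y} := by
    ext y; simp
  rw [this]
  exact isOpen_biUnion fun c _ => (isClopen_mem _).isOpen

/-- The genericity requirements. -/
theorem exists_generic : ∃ y : ℕ → ℕ,
    (∀ e2 : Nat.Partrec.Code, ∀ L : List ℕ,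
      y ∈ O (codePred e2) L ∪ interior (O (codePred e2) L)ᶜ) ∧
    (∀ e e1 e2 : Nat.Partrec.Code,
      y ∈ Dset (codePred e) (codePred e1) (codePred e2) ∪
        interior (Dset (codePred e) (codePred e1) (codePred e2))ᶜ) ∧
    (∀ N : ℕ, ∃ c, N ≤ c ∧ pos c 0 0 ∈ pt y) := by
  have h1 : ∀ᶠ y in residual (ℕ → ℕ), ∀ e2 : Nat.Partrec.Code, ∀ L : List ℕ,
      y ∈ O (codePred e2) L ∪ interior (O (codePred e2) L)ᶜ := by
    rw [eventually_countable_forall]
    intro e2
    rw [eventually_countable_forall]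
    intro L
    exact residual_of_dense_open ((isOpen_O _ _).union isOpen_interior) (dense_union_ext _)
  have h2 : ∀ᶠ y in residual (ℕ → ℕ), ∀ e e1 e2 : Nat.Partrec.Code,
      y ∈ Dset (codePred e) (codePred e1) (codePred e2) ∪
        interior (Dset (codePred e) (codePred e1) (codePred e2))ᶜ := by
    rw [eventually_countable_forall]
    intro e
    rw [eventually_countable_forall]
    intro e1
    rw [eventually_countable_forall]
    intro e2
    exact residual_of_dense_open ((isOpen_Dset _ _ _).union isOpen_interior) (dense_union_ext _)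
  have h3 : ∀ᶠ y in residual (ℕ → ℕ), ∀ N : ℕ, ∃ c, N ≤ c ∧ pos c 0 0 ∈ pt y := by
    rw [eventually_countable_forall]
    intro N
    exact residual_of_dense_open (isOpen_io N) (dense_io N)
  have h := h1.and (h2.and h3)
  exact (dense_of_mem_residual h).nonempty

/-- The heart of the argument. -/
theorem key {W W1 W2 : ℕ × List ℕ → Prop} {y : ℕ → ℕ}
    (g1 : ∀ L : List ℕ, y ∈ O W2 L ∪ interior (O W2 L)ᶜ)
    (g2 : y ∈ Dset W W1 W2 ∪ interior (Dset W W1 W2)ᶜ)
    (g3 : ∀ N : ℕ, ∃ c, N ≤ c ∧ pos c 0 0 ∈ pt y)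
    (H : ∀ n : ℕ, n ∈ pt y ↔ ∃ L : List ℕ, Good W W1 n L ∧ y ∉ O W2 L) : False := by
  rcases g2 with g2 | g2
  · simp only [Dset, Set.mem_iUnion] at g2
    obtain ⟨c, L, hL, h1, h2⟩ := g2
    exact h2 ((H _).2 ⟨L, hL, interior_subset h1⟩)
  · obtain ⟨N, hN⟩ := exists_cylinder isOpen_interior g2
    obtain ⟨c, hc, hcy⟩ := g3 N
    obtain ⟨L, hL, hyL⟩ := (H _).1 hcy
    have hyL' : y ∈ interior (O W2 L)ᶜ := (g1 L).resolve_left hyL
    obtain ⟨N', hN'⟩ := exists_cylinder isOpen_interior hyL'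
    rw [pos_mem_pt] at hcy
    -- the point in the closure
    set z : ℕ → ℕ := Function.update y (Nat.pair c 0) (N' + 1) with hz
    have hzc : z (Nat.pair c 0) = N' + 1 := by simp [hz]
    have hzy : ∀ i, i ≠ Nat.pair c 0 → z i = y i := fun i hi => by simp [hz, hi]
    have hzD : z ∈ interior (Dset W W1 W2)ᶜ := hN z fun i hi => hzy i (by
      have := Nat.left_le_pair c 0
      omega)
    refine interior_subset hzD ?_
    simp only [Dset, Set.mem_iUnion]
    refine ⟨c, L, hL, ?_, ?_⟩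
    · rw [mem_interior]
      set N'' := max N' (Nat.pair c 0 + 1) with hN''
      refine ⟨{w | ∀ i < N'', w i = z i}, ?_, ?_, fun i _ => rfl⟩
      · rintro w hw ⟨k, hkL, l, hkl, hl⟩
        -- `w'` is close to `y` and enumerates `k`
        set M := l.sum + 1 with hM
        set w' : ℕ → ℕ := fun i => if i.unpair.1 = c then
          (if i = Nat.pair c 0 then 0 else if i.unpair.2 = N' + 1 then M else y i) else w i
          with hw'
        have hw'O : w' ∈ (O W2 L)ᶜ := by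
          refine interior_subset (hN' w' fun i hi => ?_)
          simp only [hw']
          split_ifs with h1 h2 h3
          · rw [h2]; exact hcy.1.symm
          · have := Nat.unpair_right_le i
            omega
          · rfl
          · rw [hw i (lt_of_lt_of_le hi (le_max_left _ _))]
            refine hzy i ?_
            rintro rfl
            simp at h1
        refine hw'O ⟨k, hkL, l, hkl, fun a ha => ?_⟩
        have haw := hl a ha
        obtain ⟨d, j, n, hdj⟩ := atom_cases' a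
        by_cases hd : d = c
        · subst hd
          have hwc : w (Nat.pair d 0) = N' + 1 := by
            rw [hw _ (lt_of_lt_of_le (Nat.lt_succ_self _) (le_max_right _ _)), hzc]
          rcases hdj with rfl | rfl
          · rw [pos_mem_pt] at haw
            omega
          · rw [neg_mem_pt] at haw ⊢
            have hj : j = N' := by omega
            subst hj
            left
            have e1 : w' (Nat.pair d 0) = 0 := by simp [hw']
            have e2 : w' (Nat.pair d (j + 1)) = M := by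
              simp only [hw', Nat.unpair_pair, if_true]
              rw [if_neg]
              intro h
              have := congrArg Nat.unpair h
              simp at this
            refine ⟨e1, ?_⟩
            rw [e2]
            have h1 : neg d j n ≤ l.sum := List.single_le_sum (by simp) _ ha
            have h2 : n ≤ neg d j n := by
              unfold neg
              have h3 := Nat.right_le_pair d (Nat.pair j (2 * n + 1))
              have h4 := Nat.right_le_pair j (2 * n + 1)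
              omega
            omega
        · have e : ∀ m, w' (Nat.pair d m) = w (Nat.pair d m) := fun m => by
            simp [hw', hd]
          rcases hdj with rfl | rfl
          · rw [pos_mem_pt] at haw ⊢
            rw [e, e]; exact haw
          · rw [neg_mem_pt] at haw ⊢
            rw [e, e]; exact haw
      · have : {w : ℕ → ℕ | ∀ i < N'', w i = z i} = PiNat.cylinder z N'' := by
          ext w
          rw [PiNat.mem_cylinder_iff]
          rfl
        rw [this]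
        exact PiNat.isOpen_cylinder _ _ _
    · simp only [Set.mem_compl_iff, Set.mem_ofPred_eq]
      rw [pos_mem_pt]
      omega

/-- There is an effective Π⁰₂ subspace of P(ℕ) (given by c.e. U, V) whose points are pairwise ⊆-incomparable (T₁), containing a point A that is enumeration-equivalent to no cototal set C (C ≤ₑ complement of C). -/
theorem result :
    ∃ (U V : ℕ × List ℕ → Prop), REPred U ∧ REPred V ∧
      (∀ X Y : Set ℕ,
        (∀ i : ℕ, (∃ l : List ℕ, U (i, l) ∧ ∀ k ∈ l, k ∈ X) →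
          ∃ l : List ℕ, V (i, l) ∧ ∀ k ∈ l, k ∈ X) →
        (∀ i : ℕ, (∃ l : List ℕ, U (i, l) ∧ ∀ k ∈ l, k ∈ Y) →
          ∃ l : List ℕ, V (i, l) ∧ ∀ k ∈ l, k ∈ Y) →
        X ⊆ Y → X = Y) ∧
      ∃ A : Set ℕ,
        (∀ i : ℕ, (∃ l : List ℕ, U (i, l) ∧ ∀ k ∈ l, k ∈ A) →
          ∃ l : List ℕ, V (i, l) ∧ ∀ k ∈ l, k ∈ A) ∧
        ∀ C : Set ℕ,
          (∃ W : ℕ × List ℕ → Prop, REPred W ∧
            ∀ n : ℕ, n ∈ C ↔ ∃ l : List ℕ, W (n, l) ∧ ∀ k ∈ l, k ∉ C) →
          ¬ ((∃ W : ℕ × List ℕ → Prop, REPred W ∧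
                ∀ n : ℕ, n ∈ A ↔ ∃ l : List ℕ, W (n, l) ∧ ∀ k ∈ l, k ∈ C) ∧
             (∃ W : ℕ × List ℕ → Prop, REPred W ∧
                ∀ n : ℕ, n ∈ C ↔ ∃ l : List ℕ, W (n, l) ∧ ∀ k ∈ l, k ∈ A)) := by
  obtain ⟨y, g1, g2, g3⟩ := exists_generic
  refine ⟨U, V, re_U, re_V, fun X Y hX hY hXY => antichain hX hY hXY, pt y, pt_mem y, ?_⟩
  rintro C ⟨W, hW, hWC⟩ ⟨⟨W1, hW1, h1⟩, ⟨W2, hW2, h2⟩⟩
  obtain ⟨e, rfl⟩ := exists_code hW
  obtain ⟨e1, rfl⟩ := exists_code hW1
  obtain ⟨e2, rfl⟩ := exists_code hW2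
  refine key (g1 e2) (g2 e e1 e2) g3 fun n => ?_
  have hC : ∀ k, k ∈ op (codePred e2) (pt y) ↔ k ∈ C := fun k => (h2 k).symm
  rw [h1 n]
  constructor
  · rintro ⟨l, hl, hlC⟩
    have hch : ∀ k ∈ l, ∃ l' : List ℕ, codePred e (k, l') ∧ ∀ j ∈ l', j ∉ C :=
      fun k hk => (hWC k).1 (hlC k hk)
    choose! f hf using hch
    refine ⟨l.flatMap f, ⟨l, hl, fun k hk => ⟨f k, (hf k hk).1, fun j hj =>
      List.mem_flatMap.2 ⟨k, hk, hj⟩⟩⟩, ?_⟩
    rintro ⟨j, hj, hjC⟩
    obtain ⟨k, hk, hjk⟩ := List.mem_flatMap.1 hj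
    exact (hf k hk).2 j hjk ((hC j).1 hjC)
  · rintro ⟨L, ⟨l, hl, hlL⟩, hL⟩
    refine ⟨l, hl, fun k hk => ?_⟩
    obtain ⟨l', hl', hl'L⟩ := hlL k hk
    refine (hWC k).2 ⟨l', hl', fun j hj hjC => ?_⟩
    exact hL ⟨j, hl'L j hj, (hC j).2 hjC⟩

end Pool.Agent.S15651
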