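import Pool.Statements.S16575
import Pool.Agent.Work.MP_37bd4f_nt.Final

set_option autoImplicit false
open Pool Pool.MP_37bd4f_nt

namespace Pool.Agent.S16575

/-- There are constants A>0 and C such that for all large x, the absolute value of (sum over n≤x of Λ(n)/n) − log x + γ is at most C times (the max over x/A<y≤Ax of ∣ψ(y)−y∣/y, plus x^(−1/4)). -/
theorem result :
    ∃ A : ℝ, 0 < A ∧ ∃ C : ℝ, ∃ x0 : ℝ, ∀ x : ℝ, x0 ≤ x → ∀ M : ℝ,
      (∀ y : ℝ, x / A < y → y ≤ A * x →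
        |(∑ n ∈ Finset.Iic ⌊y⌋₊, ArithmeticFunction.vonMangoldt n) - y| / y ≤ M) →
      |(∑ n ∈ Finset.Iic ⌊x⌋₊, ArithmeticFunction.vonMangoldt n / (n : ℝ))
          - Real.log x + Real.eulerMascheroniConstant|
        ≤ C * (M + x ^ (-(1 / 4 : ℝ))) :=
  ⟨Real.exp 4, Real.exp_pos _, Pool.Agent.Work.MP_37bd4f_nt.final_bound⟩

end Pool.Agent.S16575
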