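import Pool.Statements.S16985
import Pool.Agent.Work.MP_54ef3e_nt.Fr.Final

set_option autoImplicit false
open Pointwise
open Pool Pool.MP_54ef3e_nt

namespace Pool.Agent.S16985

/-- For p prime and S ⊆ Z_p with 35∣S∣ < p and ∣S+S∣ = 2∣S∣+m, −1 ≤ m ≤ ∣S∣−4, S is contained in an arithmetic progression of length ∣S∣+m+1. -/
theorem result :
    ∀ p : ℕ, p.Prime → ∀ S : Finset (ZMod p),
      35 * S.card < p →
      2 * S.card ≤ (S + S).card + 1 →
      (S + S).card + 4 ≤ 3 * S.card →
      ∃ a d : ZMod p,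
        S ⊆ (Finset.range ((S + S).card + 1 - S.card)).image
              (fun i : ℕ => a + (i : ZMod p) * d) := by
  intro p hp S hsm _ hd
  exact Pool.Agent.Fr.main p hp S hsm hd

end Pool.Agent.S16985
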