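import Pool.Statements.S17405
import Pool.Agent.Work.MP_725bd9_nt.Core

set_option autoImplicit false
open Pool Pool.MP_725bd9_nt

namespace Pool.Agent.S17405

/-- For primes p<q that are not a Wieferich pair (not both p^(q-1)≡1 mod q² and q^(p-1)≡1 mod p²), there are no four distinct positive integers whose pairwise products plus one are all of the form p^i q^j. -/
theorem result :
    ∀ p q : ℕ, p.Prime → q.Prime → p < q →
      ¬ (p ^ (q - 1) ≡ 1 [MOD q ^ 2] ∧ q ^ (p - 1) ≡ 1 [MOD p ^ 2]) →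
      ¬ ∃ a b c d : ℕ, 0 < a ∧ a < b ∧ b < c ∧ c < d ∧
        ∀ x ∈ ({a, b, c, d} : Finset ℕ), ∀ y ∈ ({a, b, c, d} : Finset ℕ),
          x ≠ y → ∃ i j : ℕ, x * y + 1 = p ^ i * q ^ j := by
  intro p q hp hq hpq _ hex
  obtain ⟨a, b, c, d, ha, hab, hbc, hcd, h⟩ := hex
  exact Pool.Agent.SDioph.no_quadruple_nat hp hq hpq.ne ha hab hbc hcd h

end Pool.Agent.S17405
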