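import Pool.Statements.S17731
import Pool.Agent.Work.MP_8e4d29_nt.All

set_option autoImplicit false
open Pool Pool.MP_8e4d29_nt

namespace Pool.Agent.S17731

/-- The set of primes p whose sum of base-2 digits equals their sum of base-3 digits is infinite. -/
theorem result :
    Set.Infinite {p : ℕ | p.Prime ∧ (Nat.digits 2 p).sum = (Nat.digits 3 p).sum} := by
  exact Pool.Agent.Work.MP_8e4d29_nt.main

end Pool.Agent.S17731
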