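import Pool.Statements.S18569
import Pool.Agent.Work.MP_d159ed_nt.Final

set_option autoImplicit false
open Pool Pool.MP_d159ed_nt

namespace Pool.Agent.S18569

/-- There are infinitely many pairs (a, d) with d > 0 such that each of a, a+d, a+2d, a+3d, a+4d is composite and divides 2 to its own power minus 2. -/
theorem result :
    Set.Infinite {p : ℕ × ℕ | 0 < p.2 ∧ ∀ i : ℕ, i < 5 →
      (1 < p.1 + i * p.2 ∧ ¬ (p.1 + i * p.2).Prime ∧
        (p.1 + i * p.2) ∣ 2 ^ (p.1 + i * p.2) - 2)} :=
  D159.infinite_five_term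

end Pool.Agent.S18569
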