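-- Proof of the frozen statement S19235 (expected Lovasz number of a random circulant graph).
import Pool.Statements.S19235
import Pool.Agent.Work.MP_2c2d16_pr.Final
import Pool.Agent.Work.MP_2c2d16_pr.Link
import Pool.Agent.Work.MP_2c2d16_pr.Thinning
import Pool.Agent.Work.MP_2c2d16_pr.Cleaning
import Pool.Agent.Work.MP_2c2d16_pr.GoodPoly
import Pool.Agent.Work.MP_2c2d16_pr.Amp
import Pool.Agent.Work.MP_2c2d16_pr.SE.Bridge

set_option autoImplicit false
open Pool Pool.MP_2c2d16_pr

namespace Pool.Agent.S19235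

/-- Averaging the Lovász number (SDP form) over all circulant graphs on Z_n given by a uniform subset S of {1..n/2} of connection distances, then dividing by sqrt(n), gives a quantity that tends to 1 as n grows. -/
theorem result :
    Filter.Tendsto
      (fun n : ℕ =>
        ((∑ S ∈ (Finset.Icc 1 (n / 2)).powerset,
            sSup {r : ℝ | ∃ B : Matrix (Fin n) (Fin n) ℝ,
              B.PosSemidef ∧ B.trace = 1 ∧
              (∀ i j : Fin n,
                (SimpleGraph.fromRel
                  (fun a b : Fin n => min (b - a).val (a - b).val ∈ S)).Adj i j →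
                  B i j = 0) ∧
              r = ∑ i, ∑ j, B i j}) / (2 : ℝ) ^ (n / 2)) / Real.sqrt (n : ℝ))
      Filter.atTop (nhds 1) := by
  exact Pool.Agent.Th2c.final (Pool.Agent.Th2c.amp_of Pool.Agent.Th2c.state_evolution)
    (fun N f hf T R β e κ δ h1 h2 h3 h4 h5 h6 h7 =>
      Pool.Agent.Th2c.thinning (N + 1) f hf T R β e κ δ h1 h2 h3 h4 h5 h6 h7)
    (fun N D hD l η κ h1 h2 h3 h4 h5 =>
      Pool.Agent.Th2c.cleaning (N + 1) D hD l η κ h1 h2 h3 h4 h5)
    Pool.Agent.Th2c.theta_lower Pool.Agent.Th2c.theta_upper Pool.Agent.Th2c.theta_nonneg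
    Pool.Agent.Th2c.theta_le

end Pool.Agent.S19235
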