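import Pool.Statements.S19237
import Pool.Agent.Work.MP_2c6138_pr.Final

set_option autoImplicit false
open Classical MeasureTheory ProbabilityTheory Filter
open Pool Pool.MP_2c6138_pr

namespace Pool.Agent.S19237

/-- For geometric(p) last-passage percolation on the n×n box, if each site is independently kept with probability e^{-t} and otherwise resampled, the correlation between the old and new passage times tends to 0 as n grows, for every t>0. -/
theorem result :
    ∀ p : ℝ, ∀ hp : 0 < p, ∀ hp1 : p < 1, ∀ t : ℝ, 0 < t →
      Tendsto
        (fun n : ℕ =>
          covariance
              (fun ω : Fin n × Fin n → ℕ × ℕ =>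
                (((Finset.univ.filter (fun S : Finset (Fin n × Fin n) =>
                    IsChain (· ≤ ·) (S : Set (Fin n × Fin n)))).sup
                    (fun S => ∑ v ∈ S, (ω v).1) : ℕ) : ℝ))
              (fun ω : Fin n × Fin n → ℕ × ℕ =>
                (((Finset.univ.filter (fun S : Finset (Fin n × Fin n) =>
                    IsChain (· ≤ ·) (S : Set (Fin n × Fin n)))).sup
                    (fun S => ∑ v ∈ S, (ω v).2) : ℕ) : ℝ))
              (Measure.pi (fun _ : Fin n × Fin n =>
                (Real.toNNReal (Real.exp (-t))) •
                    Measure.map (fun a : ℕ => (a, a)) (geometricPMF hp hp1.le).toMeasure +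
                  (Real.toNNReal (1 - Real.exp (-t))) •
                    Measure.prod (geometricPMF hp hp1.le).toMeasure
                      (geometricPMF hp hp1.le).toMeasure))
            /
            Real.sqrt
              (variance
                  (fun ω : Fin n × Fin n → ℕ × ℕ =>
                    (((Finset.univ.filter (fun S : Finset (Fin n × Fin n) =>
                        IsChain (· ≤ ·) (S : Set (Fin n × Fin n)))).sup
                        (fun S => ∑ v ∈ S, (ω v).1) : ℕ) : ℝ))
                  (Measure.pi (fun _ : Fin n × Fin n =>
                    (Real.toNNReal (Real.exp (-t))) •
                        Measure.map (fun a : ℕ => (a, a)) (geometricPMF hp hp1.le).toMeasure +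
                      (Real.toNNReal (1 - Real.exp (-t))) •
                        Measure.prod (geometricPMF hp hp1.le).toMeasure
                          (geometricPMF hp hp1.le).toMeasure)) *
                variance
                  (fun ω : Fin n × Fin n → ℕ × ℕ =>
                    (((Finset.univ.filter (fun S : Finset (Fin n × Fin n) =>
                        IsChain (· ≤ ·) (S : Set (Fin n × Fin n)))).sup
                        (fun S => ∑ v ∈ S, (ω v).2) : ℕ) : ℝ))
                  (Measure.pi (fun _ : Fin n × Fin n =>
                    (Real.toNNReal (Real.exp (-t))) •
                        Measure.map (fun a : ℕ => (a, a)) (geometricPMF hp hp1.le).toMeasure +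
                      (Real.toNNReal (1 - Real.exp (-t))) •
                        Measure.prod (geometricPMF hp hp1.le).toMeasure
                          (geometricPMF hp hp1.le).toMeasure))))
        atTop (nhds 0) := by
  exact Pool.Agent.MP2c.frozen_of Pool.Agent.MP2c.all_bounds

end Pool.Agent.S19237
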